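import Pool.Agent.Lib_helper45.Indep

/-!
Integrals over arcs of the circle.
-/

open MeasureTheory Set Filter Topology
open scoped NNReal ENNReal

namespace Pool.Agent.Lib_helper45

set_option linter.unusedSectionVars false

variable {T : ℝ} [hT : Fact (0 < T)]

/-- Indicator of an arc as an element of `L²`, with the change of variables `s = 2 t`. -/
theorem exists_arc (c η : ℝ) (hη : 0 ≤ η) (hηT : 2 * η ≤ T) :
    ∃ κ : XT T, ∀ B : AddCircle T → ℝ, Continuous B →
      ∫ s : AddCircle T, κ s * B s = 2 * ∫ t in c..(c + η), B ((2 * t : ℝ) : AddCircle T) := by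
  classical
  set E : Set (AddCircle T) := {s | ((AddCircle.equivIoc T (2 * c) s : Ioc (2 * c) (2 * c + T)) : ℝ)
    ≤ 2 * c + 2 * η} with hE
  have hEm : MeasurableSet E := by
    have h1 : Measurable fun s : AddCircle T =>
        ((AddCircle.measurableEquivIoc T (2 * c) s : Ioc (2 * c) (2 * c + T)) : ℝ) :=
      measurable_subtype_coe.comp (AddCircle.measurableEquivIoc T (2 * c)).measurable
    exact h1 measurableSet_Iic
  have hmem : ∀ y ∈ Ioc (2 * c) (2 * c + T), ((y : AddCircle T) ∈ E ↔ y ≤ 2 * c + 2 * η) := by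
    intro y hy
    have h1 : ((AddCircle.equivIoc T (2 * c) (y : AddCircle T) : Ioc (2 * c) (2 * c + T)) : ℝ) = y :=
      AddCircle.equivIoc_coe_of_mem hy
    simp only [hE, mem_ofPred_eq, h1]
  refine ⟨indicatorConstLp 2 hEm (measure_ne_top _ _) (1 : ℝ), fun B hB => ?_⟩
  have h1 : ∫ s : AddCircle T, (indicatorConstLp 2 hEm (measure_ne_top _ _) (1 : ℝ) : XT T) s * B s
      = ∫ s : AddCircle T, E.indicator B s := by
    refine integral_congr_ae ?_
    filter_upwards [indicatorConstLp_coeFn (p := 2) (hs := hEm)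
      (hμs := measure_ne_top (volume : Measure (AddCircle T)) E) (c := (1 : ℝ))] with s h
    rw [h]
    by_cases hs : s ∈ E
    · rw [indicator_of_mem hs, indicator_of_mem hs, one_mul]
    · rw [indicator_of_notMem hs, indicator_of_notMem hs, zero_mul]
  rw [h1, ← AddCircle.intervalIntegral_preimage T (2 * c)]
  have hT0 : 0 < T := hT.out
  rw [intervalIntegral.integral_of_le (by linarith)]
  have h2 : ∫ a in Ioc (2 * c) (2 * c + T), E.indicator B (a : AddCircle T)
      = ∫ a in Ioc (2 * c) (2 * c + T),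
        (Iic (2 * c + 2 * η)).indicator (fun a : ℝ => B (a : AddCircle T)) a := by
    refine setIntegral_congr_fun measurableSet_Ioc fun y hy => ?_
    by_cases h : y ≤ 2 * c + 2 * η
    · rw [indicator_of_mem ((hmem y hy).mpr h), indicator_of_mem (show y ∈ Iic _ from h)]
    · rw [indicator_of_notMem (fun h' => h ((hmem y hy).mp h')),
        indicator_of_notMem (show y ∉ Iic _ from h)]
  rw [h2, setIntegral_indicator measurableSet_Iic]
  have h3 : Ioc (2 * c) (2 * c + T) ∩ Iic (2 * c + 2 * η) = Ioc (2 * c) (2 * c + 2 * η) := by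
    ext y
    simp only [mem_inter_iff, mem_Ioc, mem_Iic]
    constructor
    · rintro ⟨⟨h1, _⟩, h2⟩; exact ⟨h1, h2⟩
    · rintro ⟨h1, h2⟩; exact ⟨⟨h1, by linarith⟩, h2⟩
  rw [h3, ← intervalIntegral.integral_of_le (by linarith)]
  rw [intervalIntegral.integral_comp_mul_left (fun y : ℝ => B (y : AddCircle T)) two_ne_zero]
  rw [smul_eq_mul, ← mul_assoc, mul_inv_cancel₀ two_ne_zero, one_mul]
  congr 1
  ring

end Pool.Agent.Lib_helper45
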