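import Mathlib

/-!
The asymptotic centre of a bounded orbit of a nonexpansive map is a fixed point
(Browder-Petryshyn, by way of Edelstein's asymptotic centre).
-/

open Filter Topology Set

namespace Pool.Agent.Lib_helper45

set_option linter.unusedSectionVars false

variable {H : Type*} [NormedAddCommGroup H] [InnerProductSpace ℝ H]

/-- Eventual upper bounds of the squared distance from the orbit to `x`. -/
def evBounds (a : ℕ → H) (x : H) : Set ℝ := {ρ | ∀ᶠ n in atTop, ‖a n - x‖ ^ 2 ≤ ρ}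

/-- Asymptotic (squared) radius. -/
noncomputable def asRadius (a : ℕ → H) (x : H) : ℝ := sInf (evBounds a x)

theorem evBounds_nonneg {a : ℕ → H} {x : H} {ρ : ℝ} (h : ρ ∈ evBounds a x) : 0 ≤ ρ := by
  obtain ⟨n, hn⟩ := (h : ∀ᶠ n in atTop, ‖a n - x‖ ^ 2 ≤ ρ).exists
  exact (sq_nonneg _).trans hn

theorem evBounds_bddBelow (a : ℕ → H) (x : H) : BddBelow (evBounds a x) :=
  ⟨0, fun _ h => evBounds_nonneg h⟩

theorem evBounds_nonempty {a : ℕ → H} {C : ℝ} (hC : ∀ n, ‖a n‖ ≤ C) (x : H) :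
    (evBounds a x).Nonempty := by
  refine ⟨(C + ‖x‖) ^ 2, Filter.Eventually.of_forall fun n => ?_⟩
  have h1 : ‖a n - x‖ ≤ C + ‖x‖ := (norm_sub_le _ _).trans (by linarith [hC n])
  exact pow_le_pow_left₀ (norm_nonneg _) h1 2

theorem evBounds_upward {a : ℕ → H} {x : H} {ρ ρ' : ℝ} (h : ρ ∈ evBounds a x) (h' : ρ ≤ ρ') :
    ρ' ∈ evBounds a x := by
  refine Filter.Eventually.mono h fun n hn => hn.trans h'

theorem mem_evBounds_of_lt {a : ℕ → H} {C : ℝ} (hC : ∀ n, ‖a n‖ ≤ C) {x : H} {ρ : ℝ}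
    (h : asRadius a x < ρ) : ρ ∈ evBounds a x := by
  obtain ⟨σ, hσ, hσρ⟩ := exists_lt_of_csInf_lt (evBounds_nonempty hC x) h
  exact evBounds_upward hσ hσρ.le

theorem asRadius_nonneg (a : ℕ → H) {C : ℝ} (hC : ∀ n, ‖a n‖ ≤ C) (x : H) : 0 ≤ asRadius a x :=
  le_csInf (evBounds_nonempty hC x) fun _ h => evBounds_nonneg h

/-- Midpoint inequality. -/
theorem asRadius_midpoint {a : ℕ → H} {C : ℝ} (hC : ∀ n, ‖a n‖ ≤ C) {x y : H} {ρ σ : ℝ}
    (hx : asRadius a x < ρ) (hy : asRadius a y < σ) :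
    asRadius a ((1 / 2 : ℝ) • (x + y)) ≤ ρ / 2 + σ / 2 - ‖x - y‖ ^ 2 / 4 := by
  have h1 := mem_evBounds_of_lt hC hx
  have h2 := mem_evBounds_of_lt hC hy
  refine csInf_le (evBounds_bddBelow _ _) ?_
  have h3 : ∀ᶠ n in atTop, ‖a n - x‖ ^ 2 ≤ ρ := h1
  have h4 : ∀ᶠ n in atTop, ‖a n - y‖ ^ 2 ≤ σ := h2
  filter_upwards [h3, h4] with n hn1 hn2
  have h5 : a n - (1 / 2 : ℝ) • (x + y) = (1 / 2 : ℝ) • ((a n - x) + (a n - y)) := by
    module
  have h6 : x - y = (a n - y) - (a n - x) := by abel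
  have h7 := parallelogram_law_with_norm ℝ (a n - y) (a n - x)
  rw [h5, norm_smul, h6]
  rw [add_comm (a n - y) (a n - x)] at h7
  have h8 : ‖(1 / 2 : ℝ)‖ = 1 / 2 := by norm_num
  rw [h8]
  nlinarith

theorem exists_fixed_of_bounded [CompleteSpace H] (a : ℕ → H) (C : ℝ) (hC : ∀ n, ‖a n‖ ≤ C)
    (S : H → H) (hS : ∀ n x, ‖a (n + 1) - S x‖ ≤ ‖a n - x‖) : ∃ c, S c = c := by
  -- infimum of the radius
  set m : ℝ := ⨅ x, asRadius a x with hm
  have hbdd : BddBelow (range fun x => asRadius a x) :=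
    ⟨0, by rintro _ ⟨x, rfl⟩; exact asRadius_nonneg a hC x⟩
  have hmle : ∀ x, m ≤ asRadius a x := fun x => ciInf_le hbdd x
  have hex : ∀ k : ℕ, ∃ x, asRadius a x < m + 1 / (k + 1) := by
    intro k
    have h1 : m < m + 1 / ((k : ℝ) + 1) := by
      have : (0 : ℝ) < 1 / ((k : ℝ) + 1) := by positivity
      linarith
    obtain ⟨x, hx⟩ := exists_lt_of_ciInf_lt h1
    exact ⟨x, hx⟩
  choose x hx using hex
  have hdist : ∀ {y z : H} {ε δ : ℝ}, asRadius a y < m + ε → asRadius a z < m + δ →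
      ‖y - z‖ ^ 2 ≤ 2 * (ε + δ) := by
    intro y z ε δ hy hz
    have h1 := asRadius_midpoint hC hy hz
    have h2 := hmle ((1 / 2 : ℝ) • (y + z))
    linarith
  have hcauchy : CauchySeq x := by
    rw [Metric.cauchySeq_iff']
    intro ε hε
    obtain ⟨N, hN⟩ := exists_nat_one_div_lt (show (0 : ℝ) < ε ^ 2 / 4 by positivity)
    refine ⟨N, fun n hn => ?_⟩
    have h1 : asRadius a (x n) < m + 1 / ((N : ℝ) + 1) := by
      refine (hx n).trans_le ?_
      have : (1 : ℝ) / ((n : ℝ) + 1) ≤ 1 / ((N : ℝ) + 1) := by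
        apply one_div_le_one_div_of_le (by positivity)
        have : (N : ℝ) ≤ n := by exact_mod_cast hn
        linarith
      linarith
    have h2 := hdist h1 (hx N)
    have h3 : ‖x n - x N‖ ^ 2 < ε ^ 2 := by nlinarith
    rw [dist_eq_norm]
    exact lt_of_pow_lt_pow_left₀ 2 hε.le h3
  obtain ⟨c, hc⟩ := cauchySeq_tendsto_of_complete hcauchy
  -- the radius at `c` is minimal
  have hcm : asRadius a c ≤ m := by
    refine le_of_forall_pos_lt_add fun ε hε => ?_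
    -- choose `k` with small defect and `x k` near `c`
    have h1 : Tendsto (fun k : ℕ => ((Real.sqrt (m + 1 / ((k : ℝ) + 1))) + ‖x k - c‖) ^ 2) atTop
        (𝓝 ((Real.sqrt (m + 0) + 0) ^ 2)) := by
      refine Tendsto.pow (Tendsto.add ?_ ?_) 2
      · refine (Real.continuous_sqrt.tendsto _).comp (tendsto_const_nhds.add ?_)
        exact tendsto_one_div_add_atTop_nhds_zero_nat
      · have := (hc.sub_const c).norm
        simpa using this
    have hm0 : 0 ≤ m := le_ciInf fun y => asRadius_nonneg a hC y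
    rw [add_zero, add_zero, Real.sq_sqrt hm0] at h1
    have h2 : ∀ᶠ k : ℕ in atTop, ((Real.sqrt (m + 1 / ((k : ℝ) + 1))) + ‖x k - c‖) ^ 2 < m + ε :=
      h1.eventually_lt_const (by linarith)
    obtain ⟨k, hk⟩ := h2.exists
    refine lt_of_le_of_lt (csInf_le (evBounds_bddBelow _ _) ?_) hk
    have h3 : ∀ᶠ n in atTop, ‖a n - x k‖ ^ 2 ≤ m + 1 / ((k : ℝ) + 1) :=
      mem_evBounds_of_lt hC (hx k)
    change ∀ᶠ n in atTop, _
    filter_upwards [h3] with n hn
    have h4 : ‖a n - x k‖ ≤ Real.sqrt (m + 1 / ((k : ℝ) + 1)) := Real.le_sqrt_of_sq_le hn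
    have h5 : ‖a n - c‖ ≤ ‖a n - x k‖ + ‖x k - c‖ := by
      have := norm_add_le (a n - x k) (x k - c)
      simpa using this
    exact pow_le_pow_left₀ (norm_nonneg _) (h5.trans (by linarith)) 2
  have hSc : asRadius a (S c) ≤ m := by
    refine le_trans ?_ hcm
    refine le_csInf (evBounds_nonempty hC c) fun ρ hρ => ?_
    refine csInf_le (evBounds_bddBelow _ _) ?_
    have h1 : ∀ᶠ n in atTop, ‖a n - c‖ ^ 2 ≤ ρ := hρ
    change ∀ᶠ n in atTop, ‖a n - S c‖ ^ 2 ≤ ρ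
    obtain ⟨N, hN⟩ := eventually_atTop.mp h1
    refine eventually_atTop.mpr ⟨N + 1, fun n hn => ?_⟩
    obtain ⟨k, rfl⟩ : ∃ k, n = k + 1 := ⟨n - 1, by omega⟩
    exact (pow_le_pow_left₀ (norm_nonneg _) (hS k c) 2).trans (hN k (by omega))
  refine ⟨c, ?_⟩
  have h0 : ‖S c - c‖ ^ 2 ≤ 0 := by
    refine le_of_forall_pos_le_add fun ε hε => ?_
    have h1 := hdist (y := S c) (z := c) (ε := ε / 4) (δ := ε / 4) (by linarith) (by linarith)
    linarith
  have h2 : ‖S c - c‖ = 0 := by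
    have := sq_nonneg ‖S c - c‖
    exact pow_eq_zero_iff (two_ne_zero) |>.mp (le_antisymm h0 this)
  exact sub_eq_zero.mp (norm_eq_zero.mp h2)

end Pool.Agent.Lib_helper45
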