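import Mathlib

/-!
Global existence for ordinary differential equations in a Banach space whose right-hand side is
globally Lipschitz in space, continuous in time and bounded at the origin uniformly in time.
-/

open MeasureTheory Set Filter Topology
open scoped NNReal

namespace Pool.Agent.Lib_helper45

section Ode

set_option linter.unusedSectionVars false

variable {E : Type*} [NormedAddCommGroup E] [NormedSpace ℝ E]

theorem ode_integrand_continuous (f : ℝ → E → E) (K : ℝ≥0)
    (hK : ∀ t, LipschitzWith K (f t)) (hc : ∀ x, Continuous fun t => f t x)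
    {y : ℝ → E} (hy : Continuous y) : Continuous fun s => f s (y s) := by
  have h : Continuous (Function.uncurry f) :=
    continuous_prod_of_continuous_lipschitzWith' (Function.uncurry f) K hK hc
  exact h.comp (continuous_id.prodMk hy)

theorem integral_exp_mul_le {lam t : ℝ} (hlam : 0 < lam) :
    Real.exp (-lam * t) * ∫ s in (0 : ℝ)..t, Real.exp (lam * s) ≤ 1 / lam := by
  have h1 : ∫ s in (0 : ℝ)..t, Real.exp (lam * s) = lam⁻¹ * (Real.exp (lam * t) - 1) := by
    rw [intervalIntegral.integral_comp_mul_left (fun x => Real.exp x) hlam.ne', integral_exp]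
    simp
  rw [h1]
  have h2 : Real.exp (-lam * t) * (lam⁻¹ * (Real.exp (lam * t) - 1))
      = lam⁻¹ * (Real.exp (-lam * t + lam * t) - Real.exp (-lam * t)) := by
    rw [Real.exp_add]; ring
  rw [h2]
  have h3 : -lam * t + lam * t = 0 := by ring
  rw [h3, Real.exp_zero, one_div]
  have h4 := Real.exp_pos (-lam * t)
  have h5 : 0 < lam⁻¹ := inv_pos.mpr hlam
  nlinarith

/-- Global existence on `[0,∞)` for a globally Lipschitz right-hand side. -/
theorem exists_global_integral_solution [CompleteSpace E] (f : ℝ → E → E) (K : ℝ≥0)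
    (hK : ∀ t, LipschitzWith K (f t)) (hc : ∀ x, Continuous fun t => f t x)
    (M : ℝ) (hM : ∀ t, ‖f t 0‖ ≤ M) (x₀ : E) :
    ∃ α : ℝ → E, Continuous α ∧ ∀ t, 0 ≤ t → α t = x₀ + ∫ s in (0 : ℝ)..t, f s (α s) := by
  have hM0 : 0 ≤ M := (norm_nonneg _).trans (hM 0)
  set lam : ℝ := 2 * K + 1 with hlam_def
  have hlam : 0 < lam := by positivity
  -- the integrand attached to a bounded continuous function
  set I : BoundedContinuousFunction ℝ E → ℝ → E :=
    fun z s => f s (Real.exp (lam * s) • z s) with hI_def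
  have hIc : ∀ z, Continuous (I z) := fun z =>
    ode_integrand_continuous f K hK hc
      ((Real.continuous_exp.comp (continuous_const.mul continuous_id)).smul z.continuous)
  set Φ : BoundedContinuousFunction ℝ E → ℝ → E :=
    fun z t => Real.exp (-lam * max t 0) • (x₀ + ∫ s in (0 : ℝ)..(max t 0), I z s) with hΦ_def
  have hΦc : ∀ z, Continuous (Φ z) := by
    intro z
    have h1 : Continuous fun t : ℝ => ∫ s in (0 : ℝ)..(max t 0), I z s := by
      have h2 : Continuous fun t : ℝ => ∫ s in (0 : ℝ)..t, I z s :=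
        intervalIntegral.continuous_primitive (fun a b => (hIc z).intervalIntegrable a b) 0
      exact h2.comp (continuous_id.max continuous_const)
    exact (Real.continuous_exp.comp (continuous_const.mul
      (continuous_id.max continuous_const))).smul (continuous_const.add h1)
  have hdiff : ∀ z z' t, ‖Φ z t - Φ z' t‖ ≤ (K / lam) * ‖z - z'‖ := by
    intro z z' t
    set u := max t 0 with hu
    have hu0 : 0 ≤ u := le_max_right _ _
    have h1 : Φ z t - Φ z' t = Real.exp (-lam * u) • ∫ s in (0 : ℝ)..u, (I z s - I z' s) := by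
      rw [intervalIntegral.integral_sub ((hIc z).intervalIntegrable _ _)
        ((hIc z').intervalIntegrable _ _)]
      simp only [hΦ_def, ← hu, ← smul_sub]
      congr 1
      abel
    rw [h1, norm_smul, Real.norm_eq_abs, abs_of_pos (Real.exp_pos _)]
    have h2 : ‖∫ s in (0 : ℝ)..u, (I z s - I z' s)‖
        ≤ ∫ s in (0 : ℝ)..u, (K * ‖z - z'‖) * Real.exp (lam * s) := by
      refine intervalIntegral.norm_integral_le_of_norm_le hu0 ?_ ?_
      · refine Filter.Eventually.of_forall fun s _ => ?_
        have h3 : ‖I z s - I z' s‖ ≤ K * ‖Real.exp (lam * s) • z s - Real.exp (lam * s) • z' s‖ := by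
          have := (hK s).dist_le_mul (Real.exp (lam * s) • z s) (Real.exp (lam * s) • z' s)
          rwa [dist_eq_norm, dist_eq_norm] at this
        refine h3.trans ?_
        rw [← smul_sub, norm_smul, Real.norm_eq_abs, abs_of_pos (Real.exp_pos _)]
        have h4 : ‖z s - z' s‖ ≤ ‖z - z'‖ := by
          have := (z - z').norm_coe_le_norm s
          simpa using this
        have h5 := Real.exp_pos (lam * s)
        calc (K : ℝ) * (Real.exp (lam * s) * ‖z s - z' s‖)
            ≤ K * (Real.exp (lam * s) * ‖z - z'‖) := by gcongr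
          _ = (K * ‖z - z'‖) * Real.exp (lam * s) := by ring
      · exact (continuous_const.mul (Real.continuous_exp.comp
          (continuous_const.mul continuous_id))).intervalIntegrable _ _
    rw [intervalIntegral.integral_const_mul] at h2
    have h6 := integral_exp_mul_le (t := u) hlam
    have h7 := Real.exp_pos (-lam * u)
    calc Real.exp (-lam * u) * ‖∫ s in (0 : ℝ)..u, (I z s - I z' s)‖
        ≤ Real.exp (-lam * u) * ((K * ‖z - z'‖) * ∫ s in (0 : ℝ)..u, Real.exp (lam * s)) := by
          gcongr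
      _ = (K * ‖z - z'‖) * (Real.exp (-lam * u) * ∫ s in (0 : ℝ)..u, Real.exp (lam * s)) := by ring
      _ ≤ (K * ‖z - z'‖) * (1 / lam) := by gcongr
      _ = (K / lam) * ‖z - z'‖ := by ring
  have hΦ0 : ∀ t, ‖Φ 0 t‖ ≤ ‖x₀‖ + M / lam := by
    intro t
    set u := max t 0 with hu
    have hu0 : 0 ≤ u := le_max_right _ _
    have h1 : ‖∫ s in (0 : ℝ)..u, I 0 s‖ ≤ M * |u - 0| := by
      refine intervalIntegral.norm_integral_le_of_norm_le_const fun s _ => ?_
      simpa [hI_def] using hM s
    rw [sub_zero, abs_of_nonneg hu0] at h1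
    have h2 : ‖Φ 0 t‖ ≤ Real.exp (-lam * u) * (‖x₀‖ + M * u) := by
      simp only [hΦ_def, ← hu]
      rw [norm_smul, Real.norm_eq_abs, abs_of_pos (Real.exp_pos _)]
      have := norm_add_le x₀ (∫ s in (0 : ℝ)..u, I 0 s)
      gcongr
      linarith
    refine h2.trans ?_
    have h3 : Real.exp (-lam * u) ≤ 1 := by
      apply Real.exp_le_one_iff.mpr
      nlinarith
    have h4 : Real.exp (-lam * u) * u ≤ 1 / lam := by
      have h5 : lam * u ≤ Real.exp (lam * u) := by linarith [Real.add_one_le_exp (lam * u)]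
      have h6 : Real.exp (-lam * u) * Real.exp (lam * u) = 1 := by
        rw [← Real.exp_add]; simp
      have h7 : Real.exp (-lam * u) * (lam * u) ≤ 1 := by
        calc Real.exp (-lam * u) * (lam * u) ≤ Real.exp (-lam * u) * Real.exp (lam * u) := by
              gcongr
          _ = 1 := h6
      rw [le_div_iff₀ hlam]
      linarith
    have h8 := norm_nonneg x₀
    have h9 := Real.exp_pos (-lam * u)
    calc Real.exp (-lam * u) * (‖x₀‖ + M * u)
        = Real.exp (-lam * u) * ‖x₀‖ + M * (Real.exp (-lam * u) * u) := by ring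
      _ ≤ 1 * ‖x₀‖ + M * (1 / lam) := by gcongr
      _ = ‖x₀‖ + M / lam := by ring
  have hΦb : ∀ z t, ‖Φ z t‖ ≤ (K / lam) * ‖z‖ + (‖x₀‖ + M / lam) := by
    intro z t
    have h1 := hdiff z 0 t
    have h2 := hΦ0 t
    rw [sub_zero] at h1
    have h3 := norm_add_le (Φ z t - Φ 0 t) (Φ 0 t)
    rw [sub_add_cancel] at h3
    linarith
  set Ψ : BoundedContinuousFunction ℝ E → BoundedContinuousFunction ℝ E := fun z =>
    BoundedContinuousFunction.ofNormedAddCommGroup (Φ z) (hΦc z) _ (hΦb z) with hΨ_def
  have hK2 : (K / lam : ℝ) ≤ 1 / 2 := by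
    rw [div_le_div_iff₀ hlam (by norm_num)]
    have := K.coe_nonneg
    rw [hlam_def]; linarith
  have hcontr : ContractingWith (1 / 2 : ℝ≥0) Ψ := by
    refine ⟨by
      rw [← NNReal.coe_lt_coe]; norm_num, LipschitzWith.of_dist_le_mul fun z z' => ?_⟩
    rw [dist_eq_norm, dist_eq_norm]
    have h0 : (0 : ℝ) ≤ ((1 / 2 : ℝ≥0) : ℝ) * ‖z - z'‖ := by positivity
    refine (BoundedContinuousFunction.norm_le h0).mpr fun t => ?_
    have h1 := hdiff z z' t
    have h2 : (Ψ z - Ψ z') t = Φ z t - Φ z' t := rfl
    rw [h2]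
    refine h1.trans ?_
    have h3 : (((1 / 2 : ℝ≥0)) : ℝ) = 1 / 2 := by norm_num
    rw [h3]
    gcongr
  obtain ⟨z, hz, -⟩ := hcontr.exists_fixedPoint 0 (edist_ne_top _ _)
  refine ⟨fun t => Real.exp (lam * t) • z t,
    (Real.continuous_exp.comp (continuous_const.mul continuous_id)).smul z.continuous, ?_⟩
  intro t ht
  have h1 : z t = Φ z t := by
    have : Ψ z = z := hz
    conv_lhs => rw [← this]
    rfl
  have h2 : max t 0 = t := max_eq_left ht
  simp only [hΦ_def, h2] at h1
  change Real.exp (lam * t) • z t = x₀ + ∫ s in (0 : ℝ)..t, I z s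
  rw [h1, smul_smul, ← Real.exp_add]
  have h3 : lam * t + -lam * t = 0 := by ring
  rw [h3, Real.exp_zero, one_smul]

end Ode

end Pool.Agent.Lib_helper45
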