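import Pool.Agent.Lib_helper45.Tail
import Pool.Agent.Lib_helper45.Ode
import Pool.Agent.Lib_helper45.AsymptoticCenter

/-!
The evolution on `L²` of the circle which encodes the damped string equation:
in the travelling frame, `d/dt (tr (-t) p(t)) = tr (-t) (F t - dmp (p t))`.
-/

open MeasureTheory Set Filter Topology
open scoped NNReal ENNReal

namespace Pool.Agent.Lib_helper45

set_option linter.unusedSectionVars false

variable {T : ℝ} [hT : Fact (0 < T)] {sg : AddCircle T → ℝ} {g : ℝ → ℝ} {L : ℝ≥0}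

/-- Solutions of the evolution on the circle. -/
structure IsSol (sg : AddCircle T → ℝ) (g : ℝ → ℝ) (F : ℝ → XT T) (p : ℝ → XT T) : Prop where
  cont : Continuous p
  eqn : ∀ t : ℝ, 0 ≤ t → tr ((-t : ℝ) : AddCircle T) (p t) =
    p 0 + ∫ s in (0 : ℝ)..t, tr ((-s : ℝ) : AddCircle T) (F s - dmp sg g (p s))

theorem continuous_coe_neg : Continuous fun t : ℝ => ((-t : ℝ) : AddCircle T) :=
  (AddCircle.continuous_mk' T).comp continuous_neg

theorem continuous_coe' : Continuous fun t : ℝ => (t : AddCircle T) := AddCircle.continuous_mk' T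

/-- The forcing term in the travelling frame is continuous. -/
theorem IsSol.cont_rhs (hd : IsDamping sg g L) {F : ℝ → XT T} (hF : Continuous F) {p : ℝ → XT T}
    (hp : Continuous p) :
    Continuous fun s : ℝ => tr ((-s : ℝ) : AddCircle T) (F s - dmp sg g (p s)) :=
  continuous_tr_apply continuous_coe_neg (hF.sub (hd.dmp_continuous.comp hp))

/-- Travelling-frame difference of two solutions. -/
noncomputable def dif (p q : ℝ → XT T) (t : ℝ) : XT T := tr ((-t : ℝ) : AddCircle T) (p t - q t)

/-- Minus the time derivative of the travelling-frame difference. -/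
noncomputable def dam (sg : AddCircle T → ℝ) (g : ℝ → ℝ) (p q : ℝ → XT T) (t : ℝ) : XT T :=
  tr ((-t : ℝ) : AddCircle T) (dmp sg g (p t) - dmp sg g (q t))

theorem dam_continuous (hd : IsDamping sg g L) {p q : ℝ → XT T}
    (hp : Continuous p) (hq : Continuous q) : Continuous (dam sg g p q) :=
  continuous_tr_apply continuous_coe_neg
    ((hd.dmp_continuous.comp hp).sub (hd.dmp_continuous.comp hq))

theorem dif_continuous {p q : ℝ → XT T}
    (hp : Continuous p) (hq : Continuous q) : Continuous (dif p q) :=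
  continuous_tr_apply continuous_coe_neg (hp.sub hq)

theorem IsSol.dif_sub (hd : IsDamping sg g L) {F : ℝ → XT T} (hF : Continuous F)
    {p q : ℝ → XT T} (hp : IsSol sg g F p) (hq : IsSol sg g F q) {x y : ℝ} (hx : 0 ≤ x)
    (hxy : x ≤ y) : dif p q y - dif p q x = - ∫ r in x..y, dam sg g p q r := by
  have hcp := IsSol.cont_rhs hd hF hp.cont
  have hcq := IsSol.cont_rhs hd hF hq.cont
  have h0 : ∀ t, 0 ≤ t → dif p q t = (p 0 - q 0) - ∫ r in (0 : ℝ)..t, dam sg g p q r := by
    intro t ht
    rw [dif, map_sub, hp.eqn t ht, hq.eqn t ht]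
    have h1 : (∫ r in (0 : ℝ)..t, dam sg g p q r) =
        (∫ s in (0 : ℝ)..t, tr ((-s : ℝ) : AddCircle T) (F s - dmp sg g (q s))) -
        ∫ s in (0 : ℝ)..t, tr ((-s : ℝ) : AddCircle T) (F s - dmp sg g (p s)) := by
      rw [← intervalIntegral.integral_sub (hcq.intervalIntegrable _ _)
        (hcp.intervalIntegrable _ _)]
      refine intervalIntegral.integral_congr fun r _ => ?_
      simp only [dam]
      rw [← map_sub]
      congr 1
      abel
    rw [h1]
    abel
  rw [h0 y (hx.trans hxy), h0 x hx]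
  have hc := dam_continuous hd hp.cont hq.cont
  rw [← intervalIntegral.integral_interval_sub_left (hc.intervalIntegrable 0 y)
    (hc.intervalIntegrable 0 x)]
  abel

/-- The sign condition behind all monotonicity. -/
theorem dam_sign (hd : IsDamping sg g L) (p q : ℝ → XT T) {M : ℝ} (hM : 0 ≤ M) (t : ℝ) :
    0 ≤ inner ℝ (Tl M hM (dif p q t)) (dam sg g p q t) := by
  rw [dif, dam, Tl_tr, inner_tr_tr, real_inner_comm]
  exact hd.integral_mono_nonneg (p t) (q t) (tl M) (tl_mono hM) _ (Tl_coe hM _)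

/-- Tails of the difference of two solutions do not increase. -/
theorem IsSol.tail_antitone (hd : IsDamping sg g L) {F : ℝ → XT T} (hF : Continuous F)
    {p q : ℝ → XT T} (hp : IsSol sg g F p) (hq : IsSol sg g F q) {M : ℝ} (hM : 0 ≤ M)
    {s t : ℝ} (hs : 0 ≤ s) (hst : s ≤ t) :
    ‖Tl M hM (p t - q t)‖ ≤ ‖Tl M hM (p s - q s)‖ := by
  have h := norm_phi_antitone (Tl M hM) (Tl_lip hM) (Tl_conv hM) (dif p q) (dam sg g p q)
    (dam_continuous hd hp.cont hq.cont) (fun x y hx hxy => IsSol.dif_sub hd hF hp hq hx hxy)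
    (fun r _ => dam_sign hd p q hM r) hs hst
  rwa [dif, dif, Tl_tr, Tl_tr, norm_tr, norm_tr] at h

/-- The evolution is nonexpansive. -/
theorem IsSol.nonexpansive (hd : IsDamping sg g L) {F : ℝ → XT T} (hF : Continuous F)
    {p q : ℝ → XT T} (hp : IsSol sg g F p) (hq : IsSol sg g F q)
    {s t : ℝ} (hs : 0 ≤ s) (hst : s ≤ t) : ‖p t - q t‖ ≤ ‖p s - q s‖ := by
  have h := IsSol.tail_antitone hd hF hp hq (le_refl (0 : ℝ)) hs hst
  rwa [Tl_zero_eq, Tl_zero_eq] at h

/-- The dissipation rate. -/
noncomputable def diss (sg : AddCircle T → ℝ) (g : ℝ → ℝ) (p q : ℝ → XT T) (t : ℝ) : ℝ :=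
  inner ℝ (dmp sg g (p t) - dmp sg g (q t)) (p t - q t)

theorem diss_continuous (hd : IsDamping sg g L) {p q : ℝ → XT T}
    (hp : Continuous p) (hq : Continuous q) : Continuous (diss sg g p q) :=
  ((hd.dmp_continuous.comp hp).sub (hd.dmp_continuous.comp hq)).inner (hp.sub hq)

theorem diss_nonneg (hd : IsDamping sg g L) (p q : ℝ → XT T) (t : ℝ) : 0 ≤ diss sg g p q t :=
  hd.integral_mono_nonneg (p t) (q t) id monotone_id _ (Filter.Eventually.of_forall fun _ => rfl)

theorem IsSol.energy (hd : IsDamping sg g L) {F : ℝ → XT T} (hF : Continuous F)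
    {p q : ℝ → XT T} (hp : IsSol sg g F p) (hq : IsSol sg g F q)
    {s t : ℝ} (hs : 0 ≤ s) (hst : s ≤ t) :
    2 * ∫ r in s..t, diss sg g p q r = ‖p s - q s‖ ^ 2 - ‖p t - q t‖ ^ 2 := by
  have h := energy_identity (dif p q) (dam sg g p q) (dam_continuous hd hp.cont hq.cont)
    (dif_continuous hp.cont hq.cont) (fun x y hx hxy => IsSol.dif_sub hd hF hp hq hx hxy) hs hst
  rw [dif, dif, norm_tr, norm_tr] at h
  rw [← h]
  congr 1
  refine intervalIntegral.integral_congr fun r _ => ?_
  simp only [dif, dam, diss, inner_tr_tr]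

/-- Existence of solutions with arbitrary initial data, for bounded continuous forcing. -/
theorem exists_sol (hd : IsDamping sg g L) {F : ℝ → XT T} (hF : Continuous F) {B : ℝ}
    (hB : ∀ t, ‖F t‖ ≤ B) (c : XT T) : ∃ p : ℝ → XT T, IsSol sg g F p ∧ p 0 = c := by
  obtain ⟨α, hα, hαe⟩ := exists_global_integral_solution
    (fun t P => tr ((-t : ℝ) : AddCircle T) (F t - dmp sg g (tr (t : AddCircle T) P))) L
    (fun t => LipschitzWith.of_dist_le_mul fun x y => by
      rw [dist_eq_norm, dist_eq_norm, ← map_sub, norm_tr]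
      have h1 : F t - dmp sg g (tr (t : AddCircle T) x) - (F t - dmp sg g (tr (t : AddCircle T) y))
          = dmp sg g (tr (t : AddCircle T) y) - dmp sg g (tr (t : AddCircle T) x) := by abel
      rw [h1]
      refine (hd.dmp_lip _ _).trans (le_of_eq ?_)
      rw [← map_sub, norm_tr, norm_sub_rev])
    (fun x => continuous_tr_apply continuous_coe_neg (hF.sub (hd.dmp_continuous.comp
      (continuous_tr_apply continuous_coe' continuous_const))))
    (B + ‖dmp sg g (0 : XT T)‖)
    (fun t => by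
      rw [norm_tr, map_zero]
      refine (norm_sub_le _ _).trans ?_
      linarith [hB t]) c
  refine ⟨fun t => tr (t : AddCircle T) (α t),
    ⟨continuous_tr_apply continuous_coe' hα, fun t ht => ?_⟩, ?_⟩
  · have h1 : ((-t : ℝ) : AddCircle T) = -(t : AddCircle T) := by simp
    rw [h1, tr_neg_tr, hαe t ht]
    have h2 : α 0 = c := by
      have := hαe 0 le_rfl
      simpa using this
    have h3 : ((0 : ℝ) : AddCircle T) = 0 := by simp
    rw [h3, tr_zero, h2]
  · have h2 : α 0 = c := by
      have := hαe 0 le_rfl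
      simpa using this
    have h3 : ((0 : ℝ) : AddCircle T) = 0 := by simp
    simp only
    rw [h3, tr_zero, h2]

/-- Time shifts of solutions. -/
theorem IsSol.shift (hd : IsDamping sg g L) {F : ℝ → XT T} (hF : Continuous F)
    {p : ℝ → XT T} (hp : IsSol sg g F p) {a : ℝ} (ha : 0 ≤ a) :
    IsSol sg g (fun t => F (t + a)) (fun t => p (t + a)) := by
  refine ⟨hp.cont.comp (continuous_id.add continuous_const), fun t ht => ?_⟩
  have hc := IsSol.cont_rhs hd hF hp.cont
  have h1 := hp.eqn (t + a) (by linarith)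
  have h2 := hp.eqn a ha
  simp only [zero_add]
  have e1 : ((-t : ℝ) : AddCircle T) = (a : AddCircle T) + ((-(t + a) : ℝ) : AddCircle T) := by
    rw [← AddCircle.coe_add]; congr 1; ring
  have e2 : (a : AddCircle T) + ((-a : ℝ) : AddCircle T) = 0 := by
    rw [← AddCircle.coe_add]; simp
  have h3 : tr ((-t : ℝ) : AddCircle T) (p (t + a))
      = tr (a : AddCircle T) (tr ((-(t + a) : ℝ) : AddCircle T) (p (t + a))) := by
    rw [tr_tr, ← e1]
  have h4 : tr (a : AddCircle T) (tr ((-a : ℝ) : AddCircle T) (p a)) = p a := by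
    rw [tr_tr, e2, tr_zero]
  rw [h3, h1]
  rw [h2] at h4
  have h5 : (∫ s in (0 : ℝ)..(t + a), tr ((-s : ℝ) : AddCircle T) (F s - dmp sg g (p s))) =
      (∫ s in (0 : ℝ)..a, tr ((-s : ℝ) : AddCircle T) (F s - dmp sg g (p s))) +
      ∫ s in a..(t + a), tr ((-s : ℝ) : AddCircle T) (F s - dmp sg g (p s)) :=
    (intervalIntegral.integral_add_adjacent_intervals (hc.intervalIntegrable _ _)
      (hc.intervalIntegrable _ _)).symm
  rw [h5, ← add_assoc, map_add, h4]
  congr 1
  have h6 : (∫ s in a..(t + a), tr ((-s : ℝ) : AddCircle T) (F s - dmp sg g (p s))) =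
      ∫ s in (0 : ℝ)..t, tr ((-(s + a) : ℝ) : AddCircle T) (F (s + a) - dmp sg g (p (s + a))) := by
    rw [intervalIntegral.integral_comp_add_right
      (fun s => tr ((-s : ℝ) : AddCircle T) (F s - dmp sg g (p s))) a, zero_add]
  rw [h6]
  have h7 : tr (a : AddCircle T) (∫ s in (0 : ℝ)..t,
      tr ((-(s + a) : ℝ) : AddCircle T) (F (s + a) - dmp sg g (p (s + a)))) =
      ∫ s in (0 : ℝ)..t, tr (a : AddCircle T)
        (tr ((-(s + a) : ℝ) : AddCircle T) (F (s + a) - dmp sg g (p (s + a)))) := by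
    have hc' : Continuous fun s : ℝ =>
        tr ((-(s + a) : ℝ) : AddCircle T) (F (s + a) - dmp sg g (p (s + a))) :=
      hc.comp (continuous_id.add continuous_const)
    exact (((tr (a : AddCircle T)).toContinuousLinearMap).intervalIntegral_comp_comm
      (hc'.intervalIntegrable _ _)).symm
  rw [h7]
  refine intervalIntegral.integral_congr fun s _ => ?_
  rw [tr_tr]
  congr 2
  rw [← AddCircle.coe_add]; congr 1; ring

/-- Bounded solutions force the existence of a periodic solution. -/
theorem exists_periodic (hd : IsDamping sg g L) {F : ℝ → XT T} (hF : Continuous F) {B : ℝ}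
    (hB : ∀ t, ‖F t‖ ≤ B) {τ : ℝ} (hτ : 0 < τ) (hper : ∀ t, F (t + τ) = F t)
    {p : ℝ → XT T} (hp : IsSol sg g F p) {C : ℝ} (hC : ∀ t, 0 ≤ t → ‖p t‖ ≤ C) :
    ∃ q : ℝ → XT T, IsSol sg g F q ∧ ∀ t, 0 ≤ t → q (t + τ) = q t := by
  choose sol hsol hsol0 using fun c : XT T => exists_sol hd hF hB c
  have hpern : ∀ n : ℕ, ∀ t, F (t + n * τ) = F t := by
    intro n
    induction n with
    | zero => intro t; simp
    | succ n ih =>
      intro t
      have : t + ((n + 1 : ℕ) : ℝ) * τ = (t + n * τ) + τ := by push_cast; ring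
      rw [this, hper, ih]
  obtain ⟨c, hc⟩ := exists_fixed_of_bounded (fun n : ℕ => p (n * τ)) C
    (fun n => hC _ (by positivity)) (fun c => sol c τ) (by
      intro n x
      have h1 : IsSol sg g F (fun t => p (t + n * τ)) := by
        have := IsSol.shift hd hF hp (a := n * τ) (by positivity)
        simpa only [hpern n] using this
      have h2 := IsSol.nonexpansive hd hF h1 (hsol x) (le_refl (0 : ℝ)) hτ.le
      rw [hsol0, zero_add] at h2
      have e1 : ((n + 1 : ℕ) : ℝ) * τ = τ + n * τ := by push_cast; ring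
      rw [e1]
      exact h2)
  refine ⟨sol c, hsol c, fun t ht => ?_⟩
  have h1 : IsSol sg g F (fun t => sol c (t + τ)) := by
    have := IsSol.shift hd hF (hsol c) (a := τ) hτ.le
    simpa only [hper] using this
  have h2 := IsSol.nonexpansive hd hF h1 (hsol c) (le_refl (0 : ℝ)) ht
  rw [zero_add, hsol0, hc, sub_self, norm_zero] at h2
  exact sub_eq_zero.mp (norm_le_zero_iff.mp h2)

end Pool.Agent.Lib_helper45
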