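import Pool.Agent.Lib_helper45.Level
import Pool.Agent.Lib_helper45.Dynamics

/-!
Lower bounds for the dissipation in terms of level sets.
-/

open MeasureTheory Set Filter Topology
open scoped NNReal ENNReal

namespace Pool.Agent.Lib_helper45

set_option linter.unusedSectionVars false

variable {T : ℝ} [hT : Fact (0 < T)] {sg : AddCircle T → ℝ} {g : ℝ → ℝ} {L : ℝ≥0}

/-- Damping response to a constant increment `σ`. -/
noncomputable def resp (sg : AddCircle T → ℝ) (g : ℝ → ℝ) (σ : ℝ) (P : XT T) : XT T :=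
  nem sg g (od P + cst σ) - nem sg g (od P)

theorem resp_coe (hd : IsDamping sg g L) (σ : ℝ) (P : XT T) :
    ∀ᵐ x ∂(volume : Measure (AddCircle T)), resp sg g σ P x =
      sg x * g (sg x * (od P x + σ)) - sg x * g (sg x * od P x) := by
  filter_upwards [hd.nem_coe (od P + cst σ), hd.nem_coe (od P), Lp.coeFn_add (od P) (cst σ),
    cst_coe (T := T) σ, Lp.coeFn_sub (nem sg g (od P + cst σ)) (nem sg g (od P))]
    with x h1 h2 h3 h4 h5
  rw [resp, h5, Pi.sub_apply, h1, h2, h3, Pi.add_apply, h4]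

theorem resp_abs_le (hd : IsDamping sg g L) (σ : ℝ) (P : XT T) :
    ∀ᵐ x ∂(volume : Measure (AddCircle T)), |resp sg g σ P x| ≤ L * |σ| := by
  filter_upwards [resp_coe hd σ P] with x h
  rw [h]
  have := hd.pointwise_lip x (od P x + σ) (od P x)
  rwa [add_sub_cancel_left] at this

theorem resp_nonneg (hd : IsDamping sg g L) {σ : ℝ} (hσ : 0 ≤ σ) (P : XT T) :
    ∀ᵐ x ∂(volume : Measure (AddCircle T)), 0 ≤ resp sg g σ P x := by
  filter_upwards [resp_coe hd σ P] with x h
  rw [h]
  exact sub_nonneg.mpr (hd.pointwise_mono x (by linarith))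

theorem resp_continuous (hd : IsDamping sg g L) (σ : ℝ) {Z : Type*} [TopologicalSpace Z]
    {P : Z → XT T} (hP : Continuous P) : Continuous fun z => resp sg g σ (P z) := by
  have h1 : Continuous fun z => od (P z) := by
    unfold od
    exact (continuous_const_smul (1 / 2 : ℝ)).comp (hP.sub ((rf 0).continuous.comp hP))
  exact (hd.nem_continuous.comp (h1.add continuous_const)).sub (hd.nem_continuous.comp h1)

/-- The dissipation functional. -/
noncomputable def Dd (sg : AddCircle T → ℝ) (g : ℝ → ℝ) (P q : XT T) : ℝ :=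
  inner ℝ (dmp sg g (P + q) - dmp sg g P) q

theorem Dd_eq_od (hd : IsDamping sg g L) (P q : XT T) :
    Dd sg g P q = inner ℝ (dmp sg g (P + q) - dmp sg g P) (od q) := by
  set G := dmp sg g (P + q) - dmp sg g P with hG
  have h1 : inner ℝ G q = inner ℝ (rf 0 G) (rf 0 q) := (inner_rf_rf 0 G _).symm
  have h2 : rf 0 G = -G := by
    refine Lp.ext ?_
    filter_upwards [rf_coe (0 : AddCircle T) G, hd.dmp_sub_odd (P + q) P, Lp.coeFn_neg G]
      with x a b c
    rw [a, zero_sub, b, c]
    rfl
  have h4 : inner ℝ G (rf 0 q) = - inner ℝ G q := by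
    rw [h1, h2, inner_neg_left, neg_neg]
  rw [Dd, od, inner_smul_right, inner_sub_right, h4]
  ring

theorem Dd_nonneg (hd : IsDamping sg g L) (P q : XT T) : 0 ≤ Dd sg g P q := by
  have := hd.integral_mono_nonneg (P + q) P id monotone_id (P + q - P)
    (Filter.Eventually.of_forall fun _ => rfl)
  rwa [add_sub_cancel_left] at this

/-- The travelling-frame odd part of a translate. -/
theorem tr_neg_od_tr (u : AddCircle T) (R : XT T) :
    tr (-u) (od (tr u R)) = (1 / 2 : ℝ) • (R - rf (u + u) R) := by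
  rw [od, map_smul, map_sub, tr_neg_tr, rf_tr, zero_add, tr_rf, sub_neg_eq_add]

/-- Lower bound of the dissipation by level sets. -/
theorem Dd_lower (hd : IsDamping sg g L) (P R : XT T) (u : AddCircle T) {r s : ℝ} (hrs : s ≤ r) :
    (r - s) / 2 * inner ℝ (pm (tr (-u) (resp sg g ((r - s) / 2) P)) (lev r R))
      (rf (u + u) (colev s R)) ≤ Dd sg g P (tr u R) := by
  set σ := (r - s) / 2 with hσ
  have hσ0 : 0 ≤ σ := by rw [hσ]; linarith
  set q := tr u R with hq
  set G := dmp sg g (P + q) - dmp sg g P with hG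
  have hresp : ∀ᵐ x ∂(volume : Measure (AddCircle T)), |tr (-u) (resp sg g σ P) x| ≤ L * |σ| := by
    filter_upwards [tr_coe (-u) (resp sg g σ P), ae_add (resp_abs_le hd σ P) (-u)] with x h1 h2
    rw [h1]; exact h2
  have e0 : Dd sg g P q = inner ℝ (tr (-u) G) ((1 / 2 : ℝ) • (R - rf (u + u) R)) := by
    rw [Dd_eq_od hd, ← tr_neg_od_tr, inner_tr_tr]
  rw [e0]
  rw [inner_eq_integral, inner_eq_integral, ← integral_const_mul]
  refine integral_mono_ae ((integrable_mul _ _).const_mul _) (integrable_mul _ _) ?_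
  filter_upwards [pm_coe (φ := lev r R) hresp, lev_coe r R, rf_coe (u + u) (colev s R),
    ae_sub (colev_coe s R) (u + u), tr_coe (-u) (resp sg g σ P), ae_add (resp_coe hd σ P) (-u),
    tr_coe (-u) G, ae_add (hd.nem_coe (od (P + q))) (-u), ae_add (hd.nem_coe (od P)) (-u),
    ae_add (Lp.coeFn_sub (dmp sg g (P + q)) (dmp sg g P)) (-u),
    ae_add (Lp.coeFn_add (od P) (od q)) (-u), tr_coe (-u) (od q),
    Lp.coeFn_smul (1 / 2 : ℝ) (R - rf (u + u) R), Lp.coeFn_sub R (rf (u + u) R),
    rf_coe (u + u) R]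
    with x h1 h2 h3 h4 h5 h6 h7 h8 h9 h10 h11 h12 h13 h14 h15
  have hodq : od q (x + -u) = (R x - R (u + u - x)) / 2 := by
    have := tr_neg_od_tr u R
    rw [← hq] at this
    rw [← h12, this, h13, Pi.smul_apply, h14, Pi.sub_apply, h15, smul_eq_mul]
    ring
  have hG1 : (tr (-u) G) x = sg (x + -u) * g (sg (x + -u) * (od P (x + -u) + od q (x + -u)))
      - sg (x + -u) * g (sg (x + -u) * od P (x + -u)) := by
    rw [h7, hG, h10, Pi.sub_apply]
    rw [od_add, h11, Pi.add_apply] at h8
    rw [dmp, dmp, od_add, h8, h9]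
  have hR : ((1 / 2 : ℝ) • (R - rf (u + u) R) : XT T) x = od q (x + -u) := by
    rw [h13, Pi.smul_apply, h14, Pi.sub_apply, h15, smul_eq_mul, hodq]
    ring
  rw [h1, h2, h3, h4, h5, h6, hG1, hR]
  set y := x + -u
  set B := od P y
  set o := od q y with ho
  have hpos : 0 ≤ (sg y * g (sg y * (B + o)) - sg y * g (sg y * B)) * o := by
    rcases le_total 0 o with h | h
    · exact mul_nonneg (sub_nonneg.mpr (hd.pointwise_mono y (by linarith))) h
    · exact mul_nonneg_of_nonpos_of_nonpos (sub_nonpos.mpr (hd.pointwise_mono y (by linarith))) h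
  by_cases hr : r < R x
  · by_cases hs : s < R (u + u - x)
    · rw [if_pos hs]; simpa using hpos
    · rw [if_pos hr, if_neg hs, mul_one, mul_one]
      have ho1 : σ ≤ o := by rw [hodq, hσ]; linarith
      have h16 := hd.pointwise_mono y (show B + σ ≤ B + o by linarith)
      have h17 := hd.pointwise_mono y (show B ≤ B + σ by linarith)
      nlinarith
  · rw [if_neg hr]; simpa using hpos

end Pool.Agent.Lib_helper45
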