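import Pool.Agent.Lib_helper45.ClipLimit

/-!
Bounded orbits of the periodically forced evolution on the circle are totally bounded.
-/

open MeasureTheory Set Filter Topology
open scoped NNReal ENNReal

namespace Pool.Agent.Lib_helper45

set_option linter.unusedSectionVars false

variable {T : ℝ} [hT : Fact (0 < T)] {sg : AddCircle T → ℝ} {g : ℝ → ℝ} {L : ℝ≥0}

/-- A criterion for total boundedness. -/
theorem totallyBounded_of_near {E : Type*} [SeminormedAddCommGroup E] {s : Set E}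
    (h : ∀ ε > 0, ∃ K : Set E, TotallyBounded K ∧ ∀ x ∈ s, ∃ y ∈ K, ‖x - y‖ ≤ ε) :
    TotallyBounded s := by
  rw [Metric.totallyBounded_iff]
  intro ε hε
  obtain ⟨K, hK, hs⟩ := h (ε / 2) (by linarith)
  obtain ⟨t, ht, hKt⟩ := Metric.totallyBounded_iff.mp hK (ε / 2) (by linarith)
  refine ⟨t, ht, fun x hx => ?_⟩
  obtain ⟨y, hy, hxy⟩ := hs x hx
  have h1 := hKt hy
  rw [mem_iUnion₂] at h1 ⊢
  obtain ⟨z, hz, hyz⟩ := h1
  refine ⟨z, hz, ?_⟩
  rw [Metric.mem_ball] at hyz ⊢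
  calc dist x z ≤ dist x y + dist y z := dist_triangle _ _ _
    _ < ε / 2 + ε / 2 := by
      rw [dist_eq_norm x y]; linarith
    _ = ε := by ring

theorem sol_add_free (hd : IsDamping sg g L) {F : ℝ → XT T} (hF : Continuous F) {q : ℝ → XT T}
    (hq : IsSol sg g F q) (Q : XT T)
    (hQ : ∀ t : ℝ, 0 ≤ t → dmp sg g (q t + tr (t : AddCircle T) Q) = dmp sg g (q t)) :
    IsSol sg g F (fun t => q t + tr (t : AddCircle T) Q) := by
  have hc : Continuous fun t : ℝ => q t + tr (t : AddCircle T) Q :=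
    hq.cont.add (continuous_tr_apply continuous_coe' continuous_const)
  refine ⟨hc, fun t ht => ?_⟩
  have e0 : ((0 : ℝ) : AddCircle T) = 0 := by simp
  have e1 : ((-t : ℝ) : AddCircle T) = -(t : AddCircle T) := by simp
  rw [map_add, hq.eqn t ht]
  have h1 : tr ((-t : ℝ) : AddCircle T) (tr (t : AddCircle T) Q) = Q := by
    rw [e1, tr_neg_tr]
  rw [h1, e0, tr_zero]
  have h2 : (∫ s in (0 : ℝ)..t, tr ((-s : ℝ) : AddCircle T)
      (F s - dmp sg g (q s + tr (s : AddCircle T) Q))) =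
      ∫ s in (0 : ℝ)..t, tr ((-s : ℝ) : AddCircle T) (F s - dmp sg g (q s)) := by
    refine intervalIntegral.integral_congr fun s hs => ?_
    rw [uIcc_of_le ht] at hs
    rw [hQ s hs.1]
  rw [h2]
  abel

instance : Fact ((2 : ℝ≥0∞) ≠ ⊤) := ⟨by norm_num⟩

theorem separable_XT : TopologicalSpace.SeparableSpace (XT T) := by
  infer_instance

/-- **Main theorem on the circle.** -/
theorem totallyBounded_orbit (hd : IsDamping sg g L) {F : ℝ → XT T} (hF : Continuous F) {B : ℝ}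
    (hB : ∀ t, ‖F t‖ ≤ B) {τ : ℝ} (hτ : 0 < τ) (hper : ∀ t, F (t + τ) = F t)
    {p : ℝ → XT T} (hp : IsSol sg g F p) {C : ℝ} (hC : ∀ t, 0 ≤ t → ‖p t‖ ≤ C) :
    TotallyBounded (p '' Ici 0) := by
  obtain ⟨q, hq, hqper⟩ := exists_periodic hd hF hB hτ hper hp hC
  have hqn : ∀ n : ℕ, ∀ t, 0 ≤ t → q (t + n * τ) = q t := by
    intro n
    induction n with
    | zero => intro t _; simp
    | succ n ih =>
      intro t ht
      have : t + ((n + 1 : ℕ) : ℝ) * τ = (t + n * τ) + τ := by push_cast; ring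
      rw [this, hqper _ (by positivity), ih t ht]
  have hFn : ∀ n : ℕ, ∀ t, F (t + n * τ) = F t := by
    intro n
    induction n with
    | zero => intro t; simp
    | succ n ih =>
      intro t
      have : t + ((n + 1 : ℕ) : ℝ) * τ = (t + n * τ) + τ := by push_cast; ring
      rw [this, hper, ih]
  set R : ℕ → XT T := fun n => p (n * τ) - q (n * τ) with hR
  -- weak limits of level sets
  have : TopologicalSpace.SeparableSpace (XT T) := separable_XT
  obtain ⟨φ, hφ, θ, hθ⟩ := exists_weak_subseq (H := XT T)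
    (fun (r : ℚ) (n : ℕ) => lev (r : ℝ) (R n)) (CT T)
    (fun r n => norm_le_CT (lev_abs_le (r : ℝ) (R n)))
  have hw : ∀ r : ℚ, WeakTo (fun n => lev (r : ℝ) (R (φ n))) (θ r) := fun r z => hθ r z
  have hθ01 : ∀ r : ℚ, ∀ᵐ x ∂(volume : Measure (AddCircle T)), 0 ≤ θ r x ∧ θ r x ≤ 1 := fun r =>
    (hw r).abs_le (fun n => lev_nonneg _ _) (fun n => by
      filter_upwards [lev_abs_le (r : ℝ) (R (φ n))] with x hx using (abs_le.mp hx).2)
  -- constraints
  have hcon : ∀ t : ℝ, 0 ≤ t → ∀ r s : ℚ, s < r → ∀ᵐ ξ ∂(volume : Measure (AddCircle T)),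
      (tr (-(t : AddCircle T)) (resp sg g (((r : ℝ) - s) / 2) (q t))) ξ * θ r ξ *
        (1 - θ s ((t : AddCircle T) + (t : AddCircle T) - ξ)) = 0 := by
    intro t ht r s hrs
    have h01 : ∀ᵐ x ∂(volume : Measure (AddCircle T)),
        0 ≤ (cst 1 - θ s : XT T) x ∧ (cst 1 - θ s : XT T) x ≤ 1 := by
      filter_upwards [hθ01 s, Lp.coeFn_sub (cst 1) (θ s), cst_coe (T := T) 1] with x a b c
      rw [b, Pi.sub_apply, c]
      constructor <;> linarith [a.1, a.2]
    have h1 := level_constraint hd hq.cont (R := fun n => R (φ n)) (φ' := θ r)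
      (ψ' := cst 1 - θ s) (r := (r : ℝ)) (s := (s : ℝ)) (by exact_mod_cast hrs) (hw r)
      ((hw s).const_sub (cst 1)) (hθ01 r) h01
      (fun b hb => (Dd_window_tendsto hd hF hp hq hτ hqper hb).comp hφ.tendsto_atTop) ht
    have hsub : ∀ᵐ x ∂(volume : Measure (AddCircle T)), (cst 1 - θ s : XT T) x = 1 - θ s x := by
      filter_upwards [Lp.coeFn_sub (cst 1) (θ s), cst_coe (T := T) 1] with x b c
      rw [b, Pi.sub_apply, c]
    filter_upwards [h1, ae_sub hsub ((t : AddCircle T) + (t : AddCircle T))] with ξ a b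
    rw [b] at a
    exact a
  -- total boundedness
  refine totallyBounded_of_near fun ε hε => ?_
  obtain ⟨M, hM⟩ := exists_tail_le (p 0 - q 0) (show 0 < ε / 2 by linarith)
  have hM0 : (0 : ℝ) ≤ M := Nat.cast_nonneg M
  obtain ⟨n, hn⟩ := (clip_error_small (M := M) hw (show 0 < ε / 2 by linarith)).exists
  set N := φ n with hN
  set Q : XT T := Clp (M : ℝ) hM0 θ (R N) with hQdef
  have hQR : ‖R N - Q‖ ≤ ε := by
    have h1 : R N - Q = ((R N - Tl (M : ℝ) hM0 (R N)) - Q) + Tl (M : ℝ) hM0 (R N) := by abel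
    have h2 : ‖Tl (M : ℝ) hM0 (R N)‖ ≤ ε / 2 :=
      (IsSol.tail_antitone hd hF hp hq hM0 le_rfl (by positivity)).trans hM
    rw [h1]
    refine (norm_add_le _ _).trans ?_
    linarith
  have hQbox : ∀ᵐ ξ ∂(volume : Measure (AddCircle T)),
      lo (M : ℝ) θ ξ ≤ Q ξ ∧ Q ξ ≤ hi (M : ℝ) θ ξ := by
    filter_upwards [Clp_coe hM0 θ (R N)] with ξ h
    rw [hQdef, h]
    exact clp_mem hM0 θ (R N) ξ
  have hund : ∀ t : ℝ, 0 ≤ t → dmp sg g (q t + tr (t : AddCircle T) Q) = dmp sg g (q t) :=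
    fun t ht => undamped_of_constraint hd hM0 (hcon t ht) hQbox
  have hsol := sol_add_free hd hF hq Q hund
  have hshift : IsSol sg g F (fun t => p (t + N * τ)) := by
    have := IsSol.shift hd hF hp (a := N * τ) (by positivity)
    simpa only [hFn N] using this
  have e0 : ((0 : ℝ) : AddCircle T) = 0 := by simp
  have hnear : ∀ t : ℝ, 0 ≤ t → ‖p (t + N * τ) - (q t + tr (t : AddCircle T) Q)‖ ≤ ε := by
    intro t ht
    have h1 := IsSol.nonexpansive hd hF hshift hsol le_rfl ht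
    refine h1.trans ?_
    have h2 : p (0 + N * τ) - (q 0 + tr ((0 : ℝ) : AddCircle T) Q) = R N - Q := by
      have h3 := hqn N 0 le_rfl
      rw [zero_add] at h3
      have h4 : R N = p (N * τ) - q 0 := by rw [← h3]
      rw [h4, e0, tr_zero, zero_add]
      abel
    rw [h2]
    exact hQR
  -- the compact set
  set K1 : Set (XT T) := q '' Icc 0 τ with hK1
  set K2 : Set (XT T) := range fun u : AddCircle T => tr u Q with hK2
  have hK1c : IsCompact K1 := isCompact_Icc.image hq.cont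
  have hK2c : IsCompact K2 := isCompact_range (continuous_tr_apply continuous_id continuous_const)
  have hK3c : IsCompact ((fun z : XT T × XT T => z.1 + z.2) '' (K1 ×ˢ K2)) :=
    (hK1c.prod hK2c).image (continuous_fst.add continuous_snd)
  have hK4c : IsCompact (p '' Icc 0 (N * τ)) := isCompact_Icc.image hp.cont
  have hqK1 : ∀ t : ℝ, 0 ≤ t → q t ∈ K1 := by
    intro t ht
    set m := ⌊t / τ⌋₊ with hm
    have h1 : (m : ℝ) ≤ t / τ := Nat.floor_le (by positivity)
    have h2 : t / τ < m + 1 := Nat.lt_floor_add_one _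
    have h3 : (m : ℝ) * τ ≤ t := by rwa [le_div_iff₀ hτ] at h1
    have h4 : t < (m + 1) * τ := by rwa [div_lt_iff₀ hτ] at h2
    refine ⟨t - m * τ, ⟨by linarith, by linarith⟩, ?_⟩
    have := hqn m (t - m * τ) (by linarith)
    rw [← this]
    congr 1; ring
  refine ⟨p '' Icc 0 (N * τ) ∪ (fun z : XT T × XT T => z.1 + z.2) '' (K1 ×ˢ K2),
    (hK4c.union hK3c).totallyBounded, ?_⟩
  rintro x ⟨t, ht, rfl⟩
  have ht0 : (0 : ℝ) ≤ t := ht
  rcases le_total t (N * τ) with h | h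
  · exact ⟨p t, Or.inl ⟨t, ⟨ht0, h⟩, rfl⟩, by rw [sub_self, norm_zero]; exact hε.le⟩
  · refine ⟨q (t - N * τ) + tr ((t - N * τ : ℝ) : AddCircle T) Q, Or.inr
      ⟨(q (t - N * τ), tr ((t - N * τ : ℝ) : AddCircle T) Q),
        ⟨hqK1 _ (by linarith), ⟨_, rfl⟩⟩, rfl⟩, ?_⟩
    have h1 := hnear (t - N * τ) (by linarith)
    rwa [sub_add_cancel] at h1

end Pool.Agent.Lib_helper45
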