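import Mathlib

/-!
The real Hilbert space `L²` of a circle of length `T`, with its translations and reflections.
-/

open MeasureTheory Set Filter Topology
open scoped NNReal ENNReal

namespace Pool.Agent.Lib_helper45

set_option linter.unusedSectionVars false

/-- Real `L²` of the circle of length `T`. -/
abbrev XT (T : ℝ) [Fact (0 < T)] : Type := Lp ℝ 2 (volume : Measure (AddCircle T))

variable {T : ℝ} [hT : Fact (0 < T)]

/-- Translation: `(tr s p)(x) = p (x + s)`. -/
noncomputable def tr (s : AddCircle T) : XT T →ₗᵢ[ℝ] XT T :=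
  Lp.compMeasurePreservingₗᵢ ℝ (fun x => x + s) (measurePreserving_add_right volume s)

/-- Reflection: `(rf s p)(x) = p (s - x)`. -/
noncomputable def rf (s : AddCircle T) : XT T →ₗᵢ[ℝ] XT T :=
  Lp.compMeasurePreservingₗᵢ ℝ (fun x => s - x) (Measure.measurePreserving_sub_left volume s)

theorem tr_coe (s : AddCircle T) (p : XT T) : tr s p =ᵐ[volume] fun x => p (x + s) :=
  Lp.coeFn_compMeasurePreserving p (measurePreserving_add_right volume s)

theorem rf_coe (s : AddCircle T) (p : XT T) : rf s p =ᵐ[volume] fun x => p (s - x) :=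
  Lp.coeFn_compMeasurePreserving p (Measure.measurePreserving_sub_left volume s)

/-- An almost everywhere statement can be translated. -/
theorem ae_add {P : AddCircle T → Prop} (h : ∀ᵐ x ∂(volume : Measure (AddCircle T)), P x)
    (s : AddCircle T) : ∀ᵐ x ∂(volume : Measure (AddCircle T)), P (x + s) :=
  (measurePreserving_add_right volume s).quasiMeasurePreserving.ae h

/-- An almost everywhere statement can be reflected. -/
theorem ae_sub {P : AddCircle T → Prop} (h : ∀ᵐ x ∂(volume : Measure (AddCircle T)), P x)
    (s : AddCircle T) : ∀ᵐ x ∂(volume : Measure (AddCircle T)), P (s - x) :=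
  (Measure.measurePreserving_sub_left volume s).quasiMeasurePreserving.ae h

theorem tr_tr (s t : AddCircle T) (p : XT T) : tr s (tr t p) = tr (s + t) p := by
  refine Lp.ext ?_
  filter_upwards [tr_coe s (tr t p), ae_add (tr_coe t p) s, tr_coe (s + t) p] with x h1 h2 h3
  rw [h1, h2, h3, add_assoc]

theorem tr_zero (p : XT T) : tr (0 : AddCircle T) p = p := by
  refine Lp.ext ?_
  filter_upwards [tr_coe (0 : AddCircle T) p] with x h1
  rw [h1, add_zero]

theorem tr_neg_tr (s : AddCircle T) (p : XT T) : tr (-s) (tr s p) = p := by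
  rw [tr_tr, neg_add_cancel, tr_zero]

theorem tr_tr_neg (s : AddCircle T) (p : XT T) : tr s (tr (-s) p) = p := by
  rw [tr_tr, add_neg_cancel, tr_zero]

theorem rf_tr (s t : AddCircle T) (p : XT T) : rf s (tr t p) = rf (s + t) p := by
  refine Lp.ext ?_
  filter_upwards [rf_coe s (tr t p), ae_sub (tr_coe t p) s, rf_coe (s + t) p] with x h1 h2 h3
  rw [h1, h2, h3]
  congr 1
  abel

theorem tr_rf (s t : AddCircle T) (p : XT T) : tr s (rf t p) = rf (t - s) p := by
  refine Lp.ext ?_
  filter_upwards [tr_coe s (rf t p), ae_add (rf_coe t p) s, rf_coe (t - s) p] with x h1 h2 h3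
  rw [h1, h2, h3]
  congr 1
  abel

theorem rf_rf (s t : AddCircle T) (p : XT T) : rf s (rf t p) = tr (t - s) p := by
  refine Lp.ext ?_
  filter_upwards [rf_coe s (rf t p), ae_sub (rf_coe t p) s, tr_coe (t - s) p] with x h1 h2 h3
  rw [h1, h2, h3]
  congr 1
  abel

theorem norm_tr (s : AddCircle T) (p : XT T) : ‖tr s p‖ = ‖p‖ := (tr s).norm_map p

theorem norm_rf (s : AddCircle T) (p : XT T) : ‖rf s p‖ = ‖p‖ := (rf s).norm_map p

theorem inner_tr_tr (s : AddCircle T) (p q : XT T) :
    inner ℝ (tr s p) (tr s q) = inner ℝ p q := (tr s).inner_map_map p q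

theorem inner_rf_rf (s : AddCircle T) (p q : XT T) :
    inner ℝ (rf s p) (rf s q) = inner ℝ p q := (rf s).inner_map_map p q

theorem inner_tr_left (s : AddCircle T) (p q : XT T) :
    inner ℝ (tr s p) q = inner ℝ p (tr (-s) q) := by
  conv_lhs => rw [← tr_tr_neg s q]
  rw [inner_tr_tr]

theorem continuous_tr_apply {Z : Type*} [TopologicalSpace Z] {s : Z → AddCircle T}
    {p : Z → XT T} (hs : Continuous s) (hp : Continuous p) :
    Continuous fun z => tr (s z) (p z) := by
  have hg : Continuous fun z => (⟨fun x => x + s z, by fun_prop⟩ : C(AddCircle T, AddCircle T)) := by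
    refine ContinuousMap.continuous_of_continuous_uncurry _ ?_
    exact continuous_snd.add (hs.comp continuous_fst)
  exact hp.compMeasurePreservingLp hg (fun z => measurePreserving_add_right volume (s z))
    (by norm_num)

theorem continuous_rf_apply {Z : Type*} [TopologicalSpace Z] {s : Z → AddCircle T}
    {p : Z → XT T} (hs : Continuous s) (hp : Continuous p) :
    Continuous fun z => rf (s z) (p z) := by
  have hg : Continuous fun z => (⟨fun x => s z - x, by fun_prop⟩ : C(AddCircle T, AddCircle T)) := by
    refine ContinuousMap.continuous_of_continuous_uncurry _ ?_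
    exact (hs.comp continuous_fst).sub continuous_snd
  exact hp.compMeasurePreservingLp hg (fun z => Measure.measurePreserving_sub_left volume (s z))
    (by norm_num)

theorem inner_eq_integral (p q : XT T) :
    inner ℝ p q = ∫ x, p x * q x := by
  rw [L2.inner_def]
  refine integral_congr_ae (Filter.Eventually.of_forall fun x => ?_)
  simp [mul_comm]

theorem norm_sq_eq_integral (p : XT T) : ‖p‖ ^ 2 = ∫ x, p x * p x := by
  rw [← inner_eq_integral, real_inner_self_eq_norm_sq]

theorem integrable_mul (p q : XT T) : Integrable (fun x => p x * q x) := by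
  have h := L2.integrable_inner (𝕜 := ℝ) p q
  refine h.congr (Filter.Eventually.of_forall fun x => ?_)
  simp [mul_comm]

end Pool.Agent.Lib_helper45
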