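import Pool.Agent.Lib_helper45.Precompact

/-!
The clipping error tends to zero along weakly convergent level sets.
-/

open MeasureTheory Set Filter Topology
open scoped NNReal ENNReal

namespace Pool.Agent.Lib_helper45

set_option linter.unusedSectionVars false

variable {T : ℝ} [hT : Fact (0 < T)] {sg : AddCircle T → ℝ} {g : ℝ → ℝ} {L : ℝ≥0}

/-- Indicator of a measurable set as an element of `L²`. -/
noncomputable def ind (s : Set (AddCircle T)) (hs : MeasurableSet s) : XT T :=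
  indicatorConstLp 2 hs (measure_ne_top _ _) (1 : ℝ)

open Classical in
theorem ind_coe (s : Set (AddCircle T)) (hs : MeasurableSet s) :
    ind s hs =ᵐ[volume] fun x => if x ∈ s then (1 : ℝ) else 0 := by
  have h := indicatorConstLp_coeFn (p := 2) (hs := hs)
    (hμs := measure_ne_top (volume : Measure (AddCircle T)) s) (c := (1 : ℝ))
  filter_upwards [h] with x hx
  rw [ind, hx]
  by_cases h1 : x ∈ s
  · rw [indicator_of_mem h1, if_pos h1]
  · rw [indicator_of_notMem h1, if_neg h1]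

theorem meas_nonpos (θ : XT T) : MeasurableSet {ξ | θ ξ ≤ 0} :=
  measurableSet_le (Lp.stronglyMeasurable θ).measurable measurable_const

theorem meas_one_le (θ : XT T) : MeasurableSet {ξ | 1 ≤ θ ξ} :=
  measurableSet_le measurable_const (Lp.stronglyMeasurable θ).measurable

theorem inner_ind_nonpos (θ : XT T) : inner ℝ θ (ind _ (meas_nonpos θ)) ≤ 0 := by
  classical
  rw [inner_eq_integral]
  refine integral_nonpos_of_ae ?_
  filter_upwards [ind_coe _ (meas_nonpos θ)] with x h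
  rw [h]
  split_ifs with h1
  · rw [mul_one]; exact h1
  · simp

theorem inner_ind_one_le (θ : XT T) : inner ℝ (cst 1 - θ) (ind _ (meas_one_le θ)) ≤ 0 := by
  classical
  rw [inner_eq_integral]
  refine integral_nonpos_of_ae ?_
  filter_upwards [ind_coe _ (meas_one_le θ), Lp.coeFn_sub (cst 1) θ, cst_coe (T := T) 1]
    with x h h2 h3
  rw [h, h2, Pi.sub_apply, h3]
  split_ifs with h1
  · rw [mul_one]; have : 1 ≤ θ x := h1
    simp only [Pi.zero_apply]; linarith
  · simp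

/-- The clipping error tends to zero. -/
theorem clip_error_small {M : ℕ} {θ : ℚ → XT T} {R : ℕ → XT T}
    (hw : ∀ r : ℚ, WeakTo (fun n => lev (r : ℝ) (R n)) (θ r)) {ε : ℝ} (hε : 0 < ε) :
    ∀ᶠ n in atTop, ‖(R n - Tl (M : ℝ) (Nat.cast_nonneg M) (R n))
      - Clp (M : ℝ) (Nat.cast_nonneg M) θ (R n)‖ ≤ ε := by
  classical
  have hM : (0 : ℝ) ≤ M := Nat.cast_nonneg M
  have hT0 : 0 < T := hT.out
  set δ : ℝ := ε / (2 * (1 + T)) with hδ
  have hδ0 : 0 < δ := by positivity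
  obtain ⟨G, hG, hG'⟩ := exists_grid M hδ0
  -- the error functional
  set E : ℕ → ℝ := fun n => T * δ ^ 2 + (2 * (M : ℝ)) ^ 2 *
    ((∑ r ∈ G, inner ℝ (lev (r : ℝ) (R n)) (ind _ (meas_nonpos (θ r)))) +
      ∑ r ∈ G, inner ℝ (colev (r : ℝ) (R n)) (ind _ (meas_one_le (θ r)))) with hE
  have hle : ∀ n, ‖(R n - Tl (M : ℝ) hM (R n)) - Clp (M : ℝ) hM θ (R n)‖ ^ 2 ≤ E n := by
    intro n
    rw [norm_sq_eq_integral]
    have hint1 : ∀ r ∈ G, Integrable (fun ξ => lev (r : ℝ) (R n) ξ *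
        (ind _ (meas_nonpos (θ r))) ξ) (volume : Measure (AddCircle T)) :=
      fun r _ => integrable_mul _ _
    have hint2 : ∀ r ∈ G, Integrable (fun ξ => colev (r : ℝ) (R n) ξ *
        (ind _ (meas_one_le (θ r))) ξ) (volume : Measure (AddCircle T)) :=
      fun r _ => integrable_mul _ _
    have hint3 : Integrable (fun ξ => ∑ r ∈ G, lev (r : ℝ) (R n) ξ *
        (ind _ (meas_nonpos (θ r))) ξ) (volume : Measure (AddCircle T)) :=
      integrable_finsetSum _ hint1
    have hint4 : Integrable (fun ξ => ∑ r ∈ G, colev (r : ℝ) (R n) ξ *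
        (ind _ (meas_one_le (θ r))) ξ) (volume : Measure (AddCircle T)) :=
      integrable_finsetSum _ hint2
    have hint5 : Integrable (fun ξ => (∑ r ∈ G, lev (r : ℝ) (R n) ξ *
        (ind _ (meas_nonpos (θ r))) ξ) + ∑ r ∈ G, colev (r : ℝ) (R n) ξ *
        (ind _ (meas_one_le (θ r))) ξ) (volume : Measure (AddCircle T)) := hint3.add hint4
    have hint6 : Integrable (fun ξ => (2 * (M : ℝ)) ^ 2 * ((∑ r ∈ G, lev (r : ℝ) (R n) ξ *
        (ind _ (meas_nonpos (θ r))) ξ) + ∑ r ∈ G, colev (r : ℝ) (R n) ξ *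
        (ind _ (meas_one_le (θ r))) ξ)) (volume : Measure (AddCircle T)) := hint5.const_mul _
    have hEn : E n = ∫ ξ : AddCircle T, (δ ^ 2 + (2 * (M : ℝ)) ^ 2 *
        ((∑ r ∈ G, lev (r : ℝ) (R n) ξ * (ind _ (meas_nonpos (θ r))) ξ) +
        ∑ r ∈ G, colev (r : ℝ) (R n) ξ * (ind _ (meas_one_le (θ r))) ξ)) := by
      rw [integral_add (integrable_const _) hint6, integral_const_mul,
        integral_add hint3 hint4, integral_finsetSum _ hint1, integral_finsetSum _ hint2,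
        integral_const, smul_eq_mul]
      simp only [hE, inner_eq_integral]
      congr 2
      rw [Measure.real, AddCircle.measure_univ, ENNReal.toReal_ofReal hT0.le]
    rw [hEn]
    refine integral_mono_ae (integrable_mul _ _)
      ((integrable_const _).add hint6) ?_
    have hae : ∀ᵐ ξ ∂(volume : Measure (AddCircle T)), ∀ r ∈ G,
        lev (r : ℝ) (R n) ξ = (if (r : ℝ) < R n ξ then (1 : ℝ) else 0) ∧
        colev (r : ℝ) (R n) ξ = (if (r : ℝ) < R n ξ then (0 : ℝ) else 1) ∧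
        (ind _ (meas_nonpos (θ r))) ξ = (if θ r ξ ≤ 0 then (1 : ℝ) else 0) ∧
        (ind _ (meas_one_le (θ r))) ξ = (if 1 ≤ θ r ξ then (1 : ℝ) else 0) := by
      rw [Finset.eventually_all]
      intro r _
      filter_upwards [lev_coe (r : ℝ) (R n), colev_coe (r : ℝ) (R n),
        ind_coe _ (meas_nonpos (θ r)), ind_coe _ (meas_one_le (θ r))] with ξ a b c d
      exact ⟨a, b, c, d⟩
    filter_upwards [hae, Lp.coeFn_sub (R n - Tl (M : ℝ) hM (R n)) (Clp (M : ℝ) hM θ (R n)),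
      Lp.coeFn_sub (R n) (Tl (M : ℝ) hM (R n)), Tl_coe hM (R n), Clp_coe hM θ (R n)]
      with ξ h1 h2 h3 h4 h5
    rw [h2, Pi.sub_apply, h3, Pi.sub_apply, h4, h5, ← sq]
    refine (clp_error hδ0 hG hG' θ (R n) ξ).trans (le_of_eq ?_)
    congr 2
    congr 1
    · refine Finset.sum_congr rfl fun r hr => ?_
      rw [(h1 r hr).1, (h1 r hr).2.2.1]
    · refine Finset.sum_congr rfl fun r hr => ?_
      rw [(h1 r hr).2.1, (h1 r hr).2.2.2]
  have hlim : Tendsto E atTop (𝓝 (T * δ ^ 2 + (2 * (M : ℝ)) ^ 2 *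
    ((∑ r ∈ G, inner ℝ (θ r) (ind _ (meas_nonpos (θ r)))) +
      ∑ r ∈ G, inner ℝ (cst 1 - θ r) (ind _ (meas_one_le (θ r)))))) := by
    refine tendsto_const_nhds.add (Tendsto.const_mul _ (Tendsto.add ?_ ?_))
    · exact tendsto_finsetSum _ fun r _ => hw r _
    · refine tendsto_finsetSum _ fun r _ => ?_
      exact ((hw r).const_sub (cst 1)) _
  have hval : T * δ ^ 2 + (2 * (M : ℝ)) ^ 2 *
    ((∑ r ∈ G, inner ℝ (θ r) (ind _ (meas_nonpos (θ r)))) +
      ∑ r ∈ G, inner ℝ (cst 1 - θ r) (ind _ (meas_one_le (θ r)))) < ε ^ 2 := by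
    have h1 : ∑ r ∈ G, inner ℝ (θ r) (ind _ (meas_nonpos (θ r))) ≤ 0 :=
      Finset.sum_nonpos fun r _ => inner_ind_nonpos (θ r)
    have h2 : ∑ r ∈ G, inner ℝ (cst 1 - θ r) (ind _ (meas_one_le (θ r))) ≤ 0 :=
      Finset.sum_nonpos fun r _ => inner_ind_one_le (θ r)
    have h3 : (2 * (M : ℝ)) ^ 2 *
      ((∑ r ∈ G, inner ℝ (θ r) (ind _ (meas_nonpos (θ r)))) +
      ∑ r ∈ G, inner ℝ (cst 1 - θ r) (ind _ (meas_one_le (θ r)))) ≤ 0 :=
      mul_nonpos_of_nonneg_of_nonpos (sq_nonneg _) (by linarith)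
    have h4 : T * δ ^ 2 < ε ^ 2 := by
      rw [hδ, div_pow, mul_div_assoc']
      rw [div_lt_iff₀ (by positivity)]
      have h5 : (2 * (1 + T)) ^ 2 = 4 * (1 + 2 * T + T ^ 2) := by ring
      rw [h5]
      have h6 : 0 < ε ^ 2 := by positivity
      nlinarith [sq_nonneg T]
    linarith
  filter_upwards [hlim.eventually_lt_const hval] with n hn
  have h1 : ‖(R n - Tl (M : ℝ) hM (R n)) - Clp (M : ℝ) hM θ (R n)‖ ^ 2 ≤ ε ^ 2 :=
    (hle n).trans hn.le
  exact le_of_sq_le_sq h1 hε.le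

end Pool.Agent.Lib_helper45
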