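import Pool.Agent.Lib_helper45.Box

/-!
The weak limits of level sets satisfy the zero-dissipation constraint.
-/

open MeasureTheory Set Filter Topology
open scoped NNReal ENNReal

namespace Pool.Agent.Lib_helper45

set_option linter.unusedSectionVars false

variable {T : ℝ} [hT : Fact (0 < T)] {sg : AddCircle T → ℝ} {g : ℝ → ℝ} {L : ℝ≥0}

theorem Dd_continuous (hd : IsDamping sg g L) {Z : Type*} [TopologicalSpace Z] {P q : Z → XT T}
    (hP : Continuous P) (hq : Continuous q) : Continuous fun z => Dd sg g (P z) (q z) :=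
  ((hd.dmp_continuous.comp (hP.add hq)).sub (hd.dmp_continuous.comp hP)).inner hq

/-- If the integral of a continuous function over short intervals to the right of `t₀` is
nonpositive then so is its value at `t₀`. -/
theorem nonpos_of_integral_nonpos {f : ℝ → ℝ} (hf : Continuous f) {t₀ η₀ : ℝ} (hη₀ : 0 < η₀)
    (h : ∀ η, 0 ≤ η → η ≤ η₀ → ∫ t in t₀..(t₀ + η), f t ≤ 0) : f t₀ ≤ 0 := by
  by_contra hcon
  push Not at hcon
  obtain ⟨δ, hδ, hδf⟩ := Metric.continuousAt_iff.mp hf.continuousAt (f t₀ / 2) (by linarith)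
  set η := min (δ / 2) η₀ with hη
  have hη0 : 0 < η := lt_min (by linarith) hη₀
  have h1 := h η hη0.le (min_le_right _ _)
  have h2 : ∫ t in t₀..(t₀ + η), (f t₀ / 2) ≤ ∫ t in t₀..(t₀ + η), f t := by
    refine intervalIntegral.integral_mono_on (by linarith) intervalIntegrable_const
      (hf.intervalIntegrable _ _) fun t ht => ?_
    have h3 : dist t t₀ < δ := by
      rw [Real.dist_eq, abs_of_nonneg (by linarith [ht.1])]
      have := min_le_left (δ / 2) η₀
      linarith [ht.2]
    have h4 := hδf h3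
    rw [Real.dist_eq] at h4
    have := (abs_lt.mp h4).1
    linarith
  rw [intervalIntegral.integral_const, smul_eq_mul] at h2
  have h5 : 0 < (t₀ + η - t₀) * (f t₀ / 2) := by
    apply mul_pos <;> linarith
  linarith

theorem coe_two_mul (t : ℝ) : ((2 * t : ℝ) : AddCircle T) = (t : AddCircle T) + (t : AddCircle T) := by
  rw [← AddCircle.coe_add]; congr 1; ring

/-- Zero-dissipation constraint for weak limits of level sets. -/
theorem level_constraint (hd : IsDamping sg g L) {P : ℝ → XT T} (hP : Continuous P)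
    {R : ℕ → XT T} {φ' ψ' : XT T} {r s : ℝ} (hrs : s < r)
    (hφ : WeakTo (fun n => lev r (R n)) φ') (hψ : WeakTo (fun n => colev s (R n)) ψ')
    (hφ0 : ∀ᵐ x ∂(volume : Measure (AddCircle T)), 0 ≤ φ' x ∧ φ' x ≤ 1)
    (hψ0 : ∀ᵐ x ∂(volume : Measure (AddCircle T)), 0 ≤ ψ' x ∧ ψ' x ≤ 1)
    (hD : ∀ b : ℝ, 0 ≤ b →
      Tendsto (fun n => ∫ t in (0 : ℝ)..b, Dd sg g (P t) (tr (t : AddCircle T) (R n))) atTop (𝓝 0))
    {t₀ : ℝ} (ht₀ : 0 ≤ t₀) :
    ∀ᵐ ξ ∂(volume : Measure (AddCircle T)),
      (tr (-(t₀ : AddCircle T)) (resp sg g ((r - s) / 2) (P t₀))) ξ * φ' ξ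
        * ψ' ((t₀ : AddCircle T) + (t₀ : AddCircle T) - ξ) = 0 := by
  set σ := (r - s) / 2 with hσ
  have hσ0 : 0 < σ := by rw [hσ]; linarith
  set θ : ℝ → XT T := fun t => tr (-(t : AddCircle T)) (resp sg g σ (P t)) with hθ
  have hθc : Continuous θ := continuous_tr_apply continuous_coe'.neg (resp_continuous hd σ hP)
  have hθb : ∀ t, ∀ᵐ x ∂(volume : Measure (AddCircle T)), |θ t x| ≤ L * |σ| := by
    intro t
    filter_upwards [tr_coe (-(t : AddCircle T)) (resp sg g σ (P t)),
      ae_add (resp_abs_le hd σ (P t)) (-(t : AddCircle T))] with x h1 h2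
    simp only [hθ]
    rw [h1]; exact h2
  have hθn : ∀ t, ∀ᵐ x ∂(volume : Measure (AddCircle T)), 0 ≤ θ t x := by
    intro t
    filter_upwards [tr_coe (-(t : AddCircle T)) (resp sg g σ (P t)),
      ae_add (resp_nonneg hd hσ0.le (P t)) (-(t : AddCircle T))] with x h1 h2
    simp only [hθ]
    rw [h1]; exact h2
  have hφ1 : ∀ᵐ x ∂(volume : Measure (AddCircle T)), |φ' x| ≤ 1 := by
    filter_upwards [hφ0] with x h
    rw [abs_of_nonneg h.1]; exact h.2
  have hψ1 : ∀ᵐ x ∂(volume : Measure (AddCircle T)), |ψ' x| ≤ 1 := by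
    filter_upwards [hψ0] with x h
    rw [abs_of_nonneg h.1]; exact h.2
  -- the limit function
  set b : ℝ → ℝ := fun t =>
    inner ℝ (pm (θ t₀) φ') (rf ((t : AddCircle T) + (t : AddCircle T)) ψ') with hb
  have hbc : Continuous b := continuous_const.inner
    (continuous_rf_apply (continuous_coe'.add continuous_coe') continuous_const)
  set ω : ℝ → ℝ := fun t => ‖θ t - θ t₀‖ * CT T with hω
  have hωc : Continuous ω := ((hθc.sub continuous_const).norm).mul continuous_const
  have hmain : ∀ η, 0 ≤ η → η ≤ T / 2 → ∫ t in t₀..(t₀ + η), (b t - ω t) ≤ 0 := by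
    intro η hη hηT
    obtain ⟨κ, hκ⟩ := exists_arc (T := T) t₀ η hη (by linarith)
    -- sequence version
    set bn : ℕ → ℝ → ℝ := fun n t =>
      inner ℝ (pm (θ t₀) (lev r (R n))) (rf ((t : AddCircle T) + (t : AddCircle T))
        (colev s (R n))) with hbn
    have hbnc : ∀ n, Continuous (bn n) := fun n => continuous_const.inner
      (continuous_rf_apply (continuous_coe'.add continuous_coe') continuous_const)
    have hlim : Tendsto (fun n => ∫ t in t₀..(t₀ + η), bn n t) atTop
        (𝓝 (∫ t in t₀..(t₀ + η), b t)) := by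
      have h1 := pair_tendsto κ (a := fun n => pm (θ t₀) (lev r (R n))) (a' := pm (θ t₀) φ')
        (ψ := fun n => colev s (R n)) (ψ' := ψ') (A := ‖θ t₀‖) (C := CT T)
        (fun n => pm_norm_le (hθb t₀) (lev_abs_le r (R n))) (pm_weak (hθb t₀) hφ)
        (fun n => norm_le_CT (colev_abs_le s (R n))) hψ (fun n => colev_abs_le s (R n)) hψ1
      have h2 : ∀ a ψ : XT T, ∫ s : AddCircle T, κ s * inner ℝ a (rf s ψ) =
          2 * ∫ t in t₀..(t₀ + η), inner ℝ a (rf ((t : AddCircle T) + (t : AddCircle T)) ψ) := by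
        intro a ψ
        rw [hκ (fun s => inner ℝ a (rf s ψ)) (continuous_const.inner
          (continuous_rf_apply continuous_id continuous_const))]
        simp only [coe_two_mul]
      simp only [h2] at h1
      have h3 := h1.const_mul (1 / 2 : ℝ)
      simp only [← mul_assoc] at h3
      norm_num at h3
      exact h3
    have hle : ∀ n, ∫ t in t₀..(t₀ + η), bn n t ≤
        (1 / σ) * (∫ t in (0 : ℝ)..(t₀ + η), Dd sg g (P t) (tr (t : AddCircle T) (R n)))
          + ∫ t in t₀..(t₀ + η), ω t := by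
      intro n
      have hDc : Continuous fun t : ℝ => Dd sg g (P t) (tr (t : AddCircle T) (R n)) :=
        Dd_continuous hd hP (continuous_tr_apply continuous_coe' continuous_const)
      have h1 : ∫ t in t₀..(t₀ + η), bn n t ≤ ∫ t in t₀..(t₀ + η),
          ((1 / σ) * Dd sg g (P t) (tr (t : AddCircle T) (R n)) + ω t) := by
        refine intervalIntegral.integral_mono_on (by linarith)
          ((hbnc n).intervalIntegrable _ _)
          (((continuous_const.mul hDc).add hωc).intervalIntegrable _ _) fun t _ => ?_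
        have h2 := Dd_lower hd (P t) (R n) (t : AddCircle T) hrs.le
        rw [← hσ] at h2
        have h3 : bn n t - inner ℝ (pm (θ t) (lev r (R n)))
            (rf ((t : AddCircle T) + (t : AddCircle T)) (colev s (R n))) ≤ ω t := by
          simp only [hbn]
          rw [← inner_sub_left]
          refine (real_inner_le_norm _ _).trans ?_
          have h4 : ‖pm (θ t₀) (lev r (R n)) - pm (θ t) (lev r (R n))‖ ≤ ‖θ t - θ t₀‖ := by
            rw [norm_sub_rev (θ t)]
            exact pm_sub_norm_le (hθb t₀) (hθb t) (lev_abs_le r (R n))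
          have h5 : ‖rf ((t : AddCircle T) + (t : AddCircle T)) (colev s (R n))‖ ≤ CT T := by
            rw [norm_rf]; exact norm_le_CT (colev_abs_le s (R n))
          exact mul_le_mul h4 h5 (norm_nonneg _) (norm_nonneg _)
        have h6 : inner ℝ (pm (θ t) (lev r (R n)))
            (rf ((t : AddCircle T) + (t : AddCircle T)) (colev s (R n))) ≤
            (1 / σ) * Dd sg g (P t) (tr (t : AddCircle T) (R n)) := by
          rw [one_div, ← div_eq_inv_mul, le_div_iff₀ hσ0, mul_comm]
          exact h2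
        linarith
      have h7 : ∫ t in t₀..(t₀ + η), ((1 / σ) * Dd sg g (P t) (tr (t : AddCircle T) (R n)) + ω t)
          = (1 / σ) * (∫ t in t₀..(t₀ + η), Dd sg g (P t) (tr (t : AddCircle T) (R n)))
            + ∫ t in t₀..(t₀ + η), ω t := by
        have hDc' : Continuous fun t : ℝ =>
            (1 / σ) * Dd sg g (P t) (tr (t : AddCircle T) (R n)) := continuous_const.mul hDc
        rw [intervalIntegral.integral_add (hDc'.intervalIntegrable _ _)
          (hωc.intervalIntegrable _ _), intervalIntegral.integral_const_mul]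
      have h8 : ∫ t in t₀..(t₀ + η), Dd sg g (P t) (tr (t : AddCircle T) (R n)) ≤
          ∫ t in (0 : ℝ)..(t₀ + η), Dd sg g (P t) (tr (t : AddCircle T) (R n)) := by
        rw [← intervalIntegral.integral_add_adjacent_intervals (hDc.intervalIntegrable 0 t₀)
          (hDc.intervalIntegrable t₀ (t₀ + η))]
        have : 0 ≤ ∫ t in (0 : ℝ)..t₀, Dd sg g (P t) (tr (t : AddCircle T) (R n)) :=
          intervalIntegral.integral_nonneg ht₀ fun t _ => Dd_nonneg hd _ _
        linarith
      have h9 : 0 ≤ 1 / σ := by positivity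
      have h10 := mul_le_mul_of_nonneg_left h8 h9
      linarith
    have hlim2 : Tendsto (fun n => (1 / σ) * (∫ t in (0 : ℝ)..(t₀ + η),
        Dd sg g (P t) (tr (t : AddCircle T) (R n))) + ∫ t in t₀..(t₀ + η), ω t) atTop
        (𝓝 ((1 / σ) * 0 + ∫ t in t₀..(t₀ + η), ω t)) :=
      ((hD (t₀ + η) (by linarith)).const_mul _).add tendsto_const_nhds
    have h11 := le_of_tendsto_of_tendsto' hlim hlim2 hle
    rw [mul_zero, zero_add] at h11
    rw [intervalIntegral.integral_sub (hbc.intervalIntegrable _ _) (hωc.intervalIntegrable _ _)]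
    linarith
  have hb0 : b t₀ ≤ 0 := by
    have h1 : b t₀ - ω t₀ ≤ 0 := nonpos_of_integral_nonpos (hbc.sub hωc) (t₀ := t₀) (η₀ := T / 2)
      (by have := hT.out; linarith) hmain
    have h2 : ω t₀ = 0 := by simp [hω]
    linarith
  -- the integrand is nonnegative
  have hint : ∀ᵐ ξ ∂(volume : Measure (AddCircle T)),
      0 ≤ (pm (θ t₀) φ') ξ * (rf ((t₀ : AddCircle T) + (t₀ : AddCircle T)) ψ') ξ := by
    filter_upwards [pm_coe (φ := φ') (hθb t₀), hθn t₀, hφ0,
      rf_coe ((t₀ : AddCircle T) + (t₀ : AddCircle T)) ψ',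
      ae_sub hψ0 ((t₀ : AddCircle T) + (t₀ : AddCircle T))] with ξ h1 h2 h3 h4 h5
    rw [h1, h4]
    exact mul_nonneg (mul_nonneg h2 h3.1) h5.1
  have hzero : ∫ ξ : AddCircle T, (pm (θ t₀) φ') ξ *
      (rf ((t₀ : AddCircle T) + (t₀ : AddCircle T)) ψ') ξ = 0 := by
    refine le_antisymm ?_ (integral_nonneg_of_ae hint)
    rw [← inner_eq_integral]
    exact hb0
  have h12 := (integral_eq_zero_iff_of_nonneg_ae hint (integrable_mul _ _)).mp hzero
  filter_upwards [h12, pm_coe (φ := φ') (hθb t₀),
    rf_coe ((t₀ : AddCircle T) + (t₀ : AddCircle T)) ψ'] with ξ h1 h2 h3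
  rw [h2, h3] at h1
  exact h1

end Pool.Agent.Lib_helper45
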