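import Mathlib

/-!
Monotonicity lemmas for curves in a Hilbert space.
-/

open MeasureTheory Set Filter Topology
open scoped NNReal ENNReal

namespace Pool.Agent.Lib_helper45

set_option linter.unusedSectionVars false

/-- A real function with quadratic defects of monotonicity is nonincreasing. -/
theorem le_of_quadratic_defect {e : ℝ → ℝ} {s t C : ℝ} (hst : s ≤ t)
    (h : ∀ x y, s ≤ x → x ≤ y → y ≤ t → e y - e x ≤ C * (y - x) ^ 2) : e t ≤ e s := by
  have key : ∀ n : ℕ, 0 < n → e t - e s ≤ C * (t - s) ^ 2 / n := by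
    intro n hn
    have hn' : (0 : ℝ) < n := by exact_mod_cast hn
    set δ := (t - s) / n with hδ
    have hδ0 : 0 ≤ δ := div_nonneg (by linarith) hn'.le
    have hnδ : (n : ℝ) * δ = t - s := by rw [hδ]; field_simp
    have hind : ∀ k : ℕ, k ≤ n → e (s + k * δ) - e s ≤ k * (C * δ ^ 2) := by
      intro k
      induction k with
      | zero => intro _; simp
      | succ k ih =>
        intro hk
        have h1 := ih (by omega)
        have hk' : ((k : ℝ) + 1) * δ ≤ t - s := by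
          rw [← hnδ]
          apply mul_le_mul_of_nonneg_right _ hδ0
          exact_mod_cast hk
        have hk0 : 0 ≤ (k : ℝ) * δ := by positivity
        have h2 := h (s + k * δ) (s + (k + 1) * δ) (by linarith) (by nlinarith) (by linarith)
        have h3 : (s + ((k : ℝ) + 1) * δ) - (s + k * δ) = δ := by ring
        rw [h3] at h2
        push_cast
        linarith
    have h4 := hind n le_rfl
    have h5 : s + (n : ℝ) * δ = t := by rw [hnδ]; ring
    rw [h5] at h4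
    have h6 : (n : ℝ) * (C * δ ^ 2) = C * (t - s) ^ 2 / n := by
      rw [hδ]; field_simp
    linarith
  have hlim : Tendsto (fun n : ℕ => C * (t - s) ^ 2 / (n : ℝ)) atTop (𝓝 0) :=
    tendsto_const_div_atTop_nhds_zero_nat _
  have h1 : e t - e s ≤ 0 := by
    refine ge_of_tendsto hlim ?_
    filter_upwards [eventually_gt_atTop 0] with n hn using key n hn
  linarith

variable {H : Type*} [NormedAddCommGroup H] [InnerProductSpace ℝ H] [CompleteSpace H]

theorem norm_integral_le_mul {γ : ℝ → H} {B x y : ℝ} (hxy : x ≤ y)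
    (hB : ∀ r, x ≤ r → r ≤ y → ‖γ r‖ ≤ B) : ‖∫ r in x..y, γ r‖ ≤ B * (y - x) := by
  have h1 : ‖∫ r in x..y, γ r‖ ≤ B * |y - x| := by
    refine intervalIntegral.norm_integral_le_of_norm_le_const fun r hr => ?_
    rw [uIoc_of_le hxy] at hr
    exact hB r hr.1.le hr.2
  rwa [abs_of_nonneg (by linarith)] at h1

/-- Abstract decay of a distance-type functional along a curve. -/
theorem norm_phi_antitone (Φ : H → H) (hΦ : ∀ x y, ‖Φ x - Φ y‖ ≤ ‖x - y‖)
    (hconv : ∀ x y, ‖Φ x‖ ^ 2 / 2 + inner ℝ (Φ x) (y - x) ≤ ‖Φ y‖ ^ 2 / 2)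
    (Q γ : ℝ → H) (hγ : Continuous γ)
    (hQ : ∀ x y, 0 ≤ x → x ≤ y → Q y - Q x = - ∫ r in x..y, γ r)
    (hsign : ∀ r, 0 ≤ r → 0 ≤ inner ℝ (Φ (Q r)) (γ r)) {s t : ℝ} (hs : 0 ≤ s) (hst : s ≤ t) :
    ‖Φ (Q t)‖ ≤ ‖Φ (Q s)‖ := by
  obtain ⟨B, hB⟩ : ∃ B, ∀ r ∈ Icc s t, ‖γ r‖ ≤ B :=
    isCompact_Icc.exists_bound_of_continuousOn hγ.continuousOn
  have hB0 : 0 ≤ B := (norm_nonneg _).trans (hB s ⟨le_rfl, hst⟩)
  have hcontQ : ∀ x y, s ≤ x → x ≤ y → y ≤ t → ‖Q y - Q x‖ ≤ B * (y - x) := by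
    intro x y hx hxy hy
    rw [hQ x y (hs.trans hx) hxy, norm_neg]
    exact norm_integral_le_mul hxy fun r h1 h2 => hB r ⟨hx.trans h1, h2.trans hy⟩
  have key : ‖Φ (Q t)‖ ^ 2 / 2 ≤ ‖Φ (Q s)‖ ^ 2 / 2 := by
    refine le_of_quadratic_defect (e := fun r => ‖Φ (Q r)‖ ^ 2 / 2) (C := B * B) hst ?_
    intro x y hx hxy hy
    have h1 := hconv (Q y) (Q x)
    have h2 : inner ℝ (Φ (Q y)) (Q x - Q y) = ∫ r in x..y, inner ℝ (Φ (Q y)) (γ r) := by
      have h3 : Q x - Q y = ∫ r in x..y, γ r := by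
        rw [← neg_sub, hQ x y (hs.trans hx) hxy, neg_neg]
      rw [h3, ← innerSL_apply_apply ℝ, ← ContinuousLinearMap.intervalIntegral_comp_comm _
        (hγ.intervalIntegrable _ _)]
      rfl
    have h4 : - ((B * B * (y - x)) * (y - x)) ≤ ∫ r in x..y, inner ℝ (Φ (Q y)) (γ r) := by
      have h5 : ∫ r in x..y, (-(B * B * (y - x))) ≤ ∫ r in x..y, inner ℝ (Φ (Q y)) (γ r) := by
        refine intervalIntegral.integral_mono_on hxy intervalIntegrable_const
          ((continuous_const.inner hγ).intervalIntegrable _ _) ?_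
        intro r hr
        have h6 := hsign r (hs.trans (hx.trans hr.1))
        have h7 : inner ℝ (Φ (Q y)) (γ r)
            = inner ℝ (Φ (Q r)) (γ r) + inner ℝ (Φ (Q y) - Φ (Q r)) (γ r) := by
          rw [inner_sub_left]; ring
        have h8 : |inner ℝ (Φ (Q y) - Φ (Q r)) (γ r)| ≤ (B * (y - x)) * B := by
          refine (abs_real_inner_le_norm _ _).trans ?_
          have h9 : ‖Φ (Q y) - Φ (Q r)‖ ≤ B * (y - x) := by
            refine (hΦ _ _).trans ((hcontQ r y (hx.trans hr.1) hr.2 hy).trans ?_)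
            have := hr.1
            gcongr
          have h10 : ‖γ r‖ ≤ B := hB r ⟨hx.trans hr.1, hr.2.trans hy⟩
          have : 0 ≤ B * (y - x) := mul_nonneg hB0 (by linarith)
          exact mul_le_mul h9 h10 (norm_nonneg _) this
        have h11 := neg_abs_le (inner ℝ (Φ (Q y) - Φ (Q r)) (γ r))
        rw [h7]
        nlinarith
      rw [intervalIntegral.integral_const, smul_eq_mul] at h5
      linarith
    have h12 : ‖Φ (Q y)‖ ^ 2 / 2 - ‖Φ (Q x)‖ ^ 2 / 2 ≤ - inner ℝ (Φ (Q y)) (Q x - Q y) := by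
      linarith
    calc ‖Φ (Q y)‖ ^ 2 / 2 - ‖Φ (Q x)‖ ^ 2 / 2 ≤ - inner ℝ (Φ (Q y)) (Q x - Q y) := h12
      _ ≤ (B * B * (y - x)) * (y - x) := by rw [h2]; linarith
      _ = B * B * (y - x) ^ 2 := by ring
  have h13 : ‖Φ (Q t)‖ ^ 2 ≤ ‖Φ (Q s)‖ ^ 2 := by linarith
  exact le_of_sq_le_sq h13 (norm_nonneg _)

/-- Energy identity along a curve. -/
theorem energy_identity (Q γ : ℝ → H) (hγ : Continuous γ) (hQc : Continuous Q)
    (hQ : ∀ x y, 0 ≤ x → x ≤ y → Q y - Q x = - ∫ r in x..y, γ r) {s t : ℝ} (hs : 0 ≤ s)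
    (hst : s ≤ t) :
    2 * ∫ r in s..t, inner ℝ (γ r) (Q r) = ‖Q s‖ ^ 2 - ‖Q t‖ ^ 2 := by
  have hderiv : ∀ x ∈ Ioo s t, HasDerivAt Q (-γ x) x := by
    intro x hx
    have hx0 : 0 < x := lt_of_le_of_lt hs hx.1
    have h1 : HasDerivAt (fun y => Q 0 - ∫ r in (0 : ℝ)..y, γ r) (-γ x) x := by
      have h2 := (intervalIntegral.integral_hasDerivAt_right (hγ.intervalIntegrable 0 x)
        (hγ.stronglyMeasurableAtFilter _ _) hγ.continuousAt)
      simpa using h2.const_sub (Q 0)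
    refine h1.congr_of_eventuallyEq ?_
    filter_upwards [lt_mem_nhds hx0] with y hy
    have := hQ 0 y le_rfl hy.le
    rw [sub_eq_iff_eq_add] at this
    rw [this]; abel
  have h1 : ∫ r in s..t, (2 * inner ℝ (Q r) (-γ r)) = ‖Q t‖ ^ 2 - ‖Q s‖ ^ 2 := by
    refine intervalIntegral.integral_eq_sub_of_hasDerivAt_of_le (f := fun r => ‖Q r‖ ^ 2) hst
      (hQc.norm.pow 2).continuousOn ?_ ?_
    · intro x hx
      exact (hderiv x hx).norm_sq
    · exact (continuous_const.mul (hQc.inner hγ.neg)).intervalIntegrable _ _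
  have h2 : ∫ r in s..t, (2 * inner ℝ (Q r) (-γ r)) = - (2 * ∫ r in s..t, inner ℝ (γ r) (Q r)) := by
    rw [← intervalIntegral.integral_const_mul, ← intervalIntegral.integral_neg]
    refine intervalIntegral.integral_congr fun r _ => ?_
    simp only [inner_neg_right, real_inner_comm (γ r) (Q r)]
    ring
  linarith

end Pool.Agent.Lib_helper45
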