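import Pool.Agent.Lib_helper45.Ext

/-!
Facts on `H¹₀(a,b)`: smooth functions vanishing at the end points, integration by parts and
the Poincaré inequality.
-/

open MeasureTheory Set Filter Topology
open scoped NNReal ENNReal ContDiff

namespace Pool.Agent.Lib_helper45

set_option linter.unusedSectionVars false

open Pool.Agent.Wave1D

section Density

variable {a b : ℝ}

theorem deriv_trans_eq_zero {x : ℝ} (h : x < 0 ∨ 1 < x) : deriv Real.smoothTransition x = 0 := by
  rcases h with h | h
  · have h1 : Real.smoothTransition =ᶠ[𝓝 x] fun _ => (0 : ℝ) := by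
      filter_upwards [Iio_mem_nhds h] with y hy
      exact Real.smoothTransition.zero_of_nonpos (le_of_lt hy)
    rw [h1.deriv_eq, deriv_const]
  · have h1 : Real.smoothTransition =ᶠ[𝓝 x] fun _ => (1 : ℝ) := by
      filter_upwards [Ioi_mem_nhds h] with y hy
      exact Real.smoothTransition.one_of_one_le (le_of_lt hy)
    rw [h1.deriv_eq, deriv_const]

theorem exists_deriv_trans_bound :
    ∃ K : ℝ, 0 ≤ K ∧ ∀ x : ℝ, |deriv Real.smoothTransition x| ≤ K := by
  have hc : Continuous (deriv Real.smoothTransition) :=
    (Real.smoothTransition.contDiff (n := 1)).continuous_deriv (le_refl _)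
  obtain ⟨K, hK⟩ := isCompact_Icc.exists_bound_of_continuousOn
    (s := Icc (0 : ℝ) 1) (hc.continuousOn)
  have hK0 : 0 ≤ K := (norm_nonneg _).trans (hK 0 ⟨le_refl _, zero_le_one⟩)
  refine ⟨K, hK0, fun x => ?_⟩
  by_cases h : x < 0 ∨ 1 < x
  · rw [deriv_trans_eq_zero h, abs_zero]; exact hK0
  · push Not at h
    exact hK x ⟨h.1, h.2⟩

/-- A cutoff function for the interval. -/
noncomputable def cut (a b : ℝ) (N : ℝ) (x : ℝ) : ℝ :=
  Real.smoothTransition (N * (x - a) - 1) * Real.smoothTransition (N * (b - x) - 1)

theorem cut_contDiff (N : ℝ) : ContDiff ℝ ∞ (cut a b N) := by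
  unfold cut
  refine ContDiff.mul ?_ ?_
  · exact Real.smoothTransition.contDiff.comp
      ((contDiff_const.mul (contDiff_id.sub contDiff_const)).sub contDiff_const)
  · exact Real.smoothTransition.contDiff.comp
      ((contDiff_const.mul (contDiff_const.sub contDiff_id)).sub contDiff_const)

theorem cut_hasDerivAt (N x : ℝ) : HasDerivAt (cut a b N)
    (deriv Real.smoothTransition (N * (x - a) - 1) * N *
      Real.smoothTransition (N * (b - x) - 1) +
      Real.smoothTransition (N * (x - a) - 1) *
      (deriv Real.smoothTransition (N * (b - x) - 1) * (-N))) x := by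
  have hd : ∀ y : ℝ, HasDerivAt Real.smoothTransition (deriv Real.smoothTransition y) y :=
    fun y => ((Real.smoothTransition.contDiff (n := 1)).differentiable (by norm_num) y).hasDerivAt
  have h1 : HasDerivAt (fun x : ℝ => N * (x - a) - 1) N x := by
    have := (((hasDerivAt_id x).sub_const a).const_mul N).sub_const 1
    simpa using this
  have h2 : HasDerivAt (fun x : ℝ => N * (b - x) - 1) (-N) x := by
    have := (((hasDerivAt_id x).const_sub b).const_mul N).sub_const 1
    simpa using this
  have h3 := (hd (N * (x - a) - 1)).comp x h1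
  have h4 := (hd (N * (b - x) - 1)).comp x h2
  exact h3.mul h4

theorem cut_abs_le (N x : ℝ) : |cut a b N x| ≤ 1 := by
  unfold cut
  rw [abs_mul, abs_of_nonneg (Real.smoothTransition.nonneg _),
    abs_of_nonneg (Real.smoothTransition.nonneg _)]
  exact mul_le_one₀ (Real.smoothTransition.le_one _) (Real.smoothTransition.nonneg _)
    (Real.smoothTransition.le_one _)

theorem cut_sub_abs_le (N x : ℝ) : |cut a b N x - 1| ≤ 1 := by
  have h0 : 0 ≤ cut a b N x :=
    mul_nonneg (Real.smoothTransition.nonneg _) (Real.smoothTransition.nonneg _)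
  have h1 := (le_abs_self _).trans (cut_abs_le (a := a) (b := b) N x)
  rw [abs_le]
  constructor <;> linarith

theorem isTest_mul_cut {φ : ℝ → ℝ} (hφ : ContDiff ℝ ∞ φ) {N : ℝ} (hN : 0 < N) :
    IsTest a b (fun x => φ x * cut a b N x) := by
  have h0 : ∀ x, x ∉ Icc (a + 1 / N) (b - 1 / N) → φ x * cut a b N x = 0 := by
    intro x hx
    rw [mem_Icc, not_and_or, not_le, not_le] at hx
    have : cut a b N x = 0 := by
      unfold cut
      rcases hx with hx | hx
      · rw [Real.smoothTransition.zero_of_nonpos, zero_mul]
        have h1 : (x - a) * N < 1 := by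
          rw [← lt_div_iff₀ hN]; linarith
        linarith
      · rw [Real.smoothTransition.zero_of_nonpos (x := N * (b - x) - 1), mul_zero]
        have h1 : (b - x) * N < 1 := by
          rw [← lt_div_iff₀ hN]; linarith
        linarith
    rw [this, mul_zero]
  have hsub : tsupport (fun x => φ x * cut a b N x) ⊆ Icc (a + 1 / N) (b - 1 / N) := by
    refine closure_minimal ?_ isClosed_Icc
    intro x hx
    by_contra h
    exact hx (h0 x h)
  have hpos : 0 < 1 / N := by positivity
  refine ⟨hφ.mul (cut_contDiff N), HasCompactSupport.intro isCompact_Icc h0, ?_⟩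
  refine hsub.trans fun x hx => ⟨by linarith [hx.1], by linarith [hx.2]⟩

theorem tendsto_L2 {h : ℕ → L2 a b} {k : L2 a b} {M : ℝ}
    (hb : ∀ n, ∀ᵐ x ∂(volume.restrict (Ioo a b)), |h n x - k x| ≤ M)
    (hl : ∀ᵐ x ∂(volume.restrict (Ioo a b)), Tendsto (fun n => h n x) atTop (𝓝 (k x))) :
    Tendsto h atTop (𝓝 k) := by
  rw [tendsto_iff_norm_sub_tendsto_zero]
  have h1 : Tendsto (fun n => ∫ x in Ioo a b, (h n x - k x) ^ 2) atTop
      (𝓝 (∫ _x in Ioo a b, (0 : ℝ))) := by
    refine tendsto_integral_of_dominated_convergence (fun _ => M ^ 2) ?_ ?_ ?_ ?_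
    · intro n
      exact ((Lp.aestronglyMeasurable (h n)).sub (Lp.aestronglyMeasurable k)).pow 2
    · exact integrable_const _
    · intro n
      filter_upwards [hb n] with x hx
      rw [Real.norm_eq_abs, abs_pow]
      exact pow_le_pow_left₀ (abs_nonneg _) hx 2
    · filter_upwards [hl] with x hx
      have := (hx.sub_const (k x)).pow 2
      simpa using this
  rw [integral_zero] at h1
  have h2 : ∀ n, ‖h n - k‖ = Real.sqrt (∫ x in Ioo a b, (h n x - k x) ^ 2) := by
    intro n
    have e : ‖h n - k‖ ^ 2 = ∫ x in Ioo a b, (h n x - k x) ^ 2 := by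
      rw [← real_inner_self_eq_norm_sq, inner_L2]
      refine integral_congr_ae ?_
      filter_upwards [Lp.coeFn_sub (h n) k] with x hx
      rw [hx, Pi.sub_apply]; ring
    rw [← e, Real.sqrt_sq (norm_nonneg _)]
  have h3 := (Real.continuous_sqrt.tendsto 0).comp h1
  rw [Real.sqrt_zero] at h3
  exact h3.congr fun n => (h2 n).symm

theorem memLp_cont {φ : ℝ → ℝ} (hφ : Continuous φ) :
    MemLp φ 2 (volume.restrict (Ioo a b)) := by
  obtain ⟨M, hM⟩ := isCompact_Icc.exists_bound_of_continuousOn (s := Icc a b) hφ.continuousOn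
  refine MemLp.of_bound hφ.aestronglyMeasurable M ?_
  filter_upwards [ae_restrict_mem measurableSet_Ioo] with x hx
  exact hM x (Ioo_subset_Icc_self hx)

/-- Smooth functions vanishing at the end points belong to `H¹₀(a,b)`. -/
theorem mem_H10 (hab : a < b) {φ : ℝ → ℝ} (hφ : ContDiff ℝ ∞ φ) (ha : φ a = 0) (hb : φ b = 0)
    {z : L2 a b × L2 a b} (h1 : z.1 =ᵐ[volume.restrict (Ioo a b)] φ)
    (h2 : z.2 =ᵐ[volume.restrict (Ioo a b)] deriv φ) : z ∈ H10 a b := by
  have hφd : Continuous (deriv φ) := hφ.continuous_deriv (by norm_num)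
  have hdiff : Differentiable ℝ φ := hφ.differentiable (by norm_num)
  obtain ⟨M, hM⟩ := isCompact_Icc.exists_bound_of_continuousOn (s := Icc a b) hφd.continuousOn
  have hM0 : 0 ≤ M := (norm_nonneg _).trans (hM a ⟨le_refl _, hab.le⟩)
  have hLa : ∀ x ∈ Icc a b, |φ x| ≤ M * |x - a| := by
    intro x hx
    have := (convex_Icc a b).norm_image_sub_le_of_norm_deriv_le
      (f := φ) (C := M) (fun y _ => hdiff y) hM (left_mem_Icc.mpr hab.le) hx
    rwa [ha, sub_zero, Real.norm_eq_abs, Real.norm_eq_abs] at this
  have hLb : ∀ x ∈ Icc a b, |φ x| ≤ M * |x - b| := by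
    intro x hx
    have := (convex_Icc a b).norm_image_sub_le_of_norm_deriv_le
      (f := φ) (C := M) (fun y _ => hdiff y) hM (right_mem_Icc.mpr hab.le) hx
    rwa [hb, sub_zero, Real.norm_eq_abs, Real.norm_eq_abs] at this
  obtain ⟨K, hK0, hK⟩ := exists_deriv_trans_bound
  -- the approximating functions
  set N : ℕ → ℝ := fun n => (n : ℝ) + 1 with hN
  have hNpos : ∀ n, 0 < N n := fun n => by simp only [hN]; positivity
  set ψ : ℕ → ℝ → ℝ := fun n x => φ x * cut a b (N n) x with hψ
  have hψt : ∀ n, IsTest a b (ψ n) := fun n => isTest_mul_cut hφ (hNpos n)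
  have hψd : ∀ n x, deriv (ψ n) x = deriv φ x * cut a b (N n) x + φ x *
      (deriv Real.smoothTransition (N n * (x - a) - 1) * N n *
      Real.smoothTransition (N n * (b - x) - 1) +
      Real.smoothTransition (N n * (x - a) - 1) *
      (deriv Real.smoothTransition (N n * (b - x) - 1) * (-N n))) := by
    intro n x
    exact ((hdiff x).hasDerivAt.mul (cut_hasDerivAt (N n) x)).deriv
  have hψc : ∀ n, Continuous (ψ n) := fun n => (hψt n).1.continuous
  have hψdc : ∀ n, Continuous (deriv (ψ n)) := fun n => (hψt n).1.continuous_deriv (by norm_num)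
  set zn : ℕ → L2 a b × L2 a b := fun n =>
    ((memLp_cont (a := a) (b := b) (hψc n)).toLp _, (memLp_cont (a := a) (b := b) (hψdc n)).toLp _)
    with hzn
  have hz1 : ∀ n, (zn n).1 =ᵐ[volume.restrict (Ioo a b)] ψ n := fun n =>
    (memLp_cont (a := a) (b := b) (hψc n)).coeFn_toLp
  have hz2 : ∀ n, (zn n).2 =ᵐ[volume.restrict (Ioo a b)] deriv (ψ n) := fun n =>
    (memLp_cont (a := a) (b := b) (hψdc n)).coeFn_toLp
  have hmem : ∀ n, zn n ∈ testPairs a b := fun n => ⟨ψ n, hψt n, hz1 n, hz2 n⟩
  have hlarge : ∀ x ∈ Ioo a b, ∀ᶠ n in atTop, 1 < N n * (x - a) - 1 ∧ 1 < N n * (b - x) - 1 := by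
    intro x hx
    have hNt : Tendsto N atTop atTop := tendsto_atTop_add_const_right _ _ tendsto_natCast_atTop_atTop
    have e1 : ∀ᶠ n in atTop, 2 / (x - a) < N n := hNt.eventually_gt_atTop _
    have e2 : ∀ᶠ n in atTop, 2 / (b - x) < N n := hNt.eventually_gt_atTop _
    have p1 : 0 < x - a := by linarith [hx.1]
    have p2 : 0 < b - x := by linarith [hx.2]
    filter_upwards [e1, e2] with n h3 h4
    rw [div_lt_iff₀ p1] at h3
    rw [div_lt_iff₀ p2] at h4
    constructor <;> linarith
  have ht1 : Tendsto (fun n => (zn n).1) atTop (𝓝 z.1) := by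
    refine tendsto_L2 (M := M * (b - a)) ?_ ?_
    · intro n
      filter_upwards [hz1 n, h1, ae_restrict_mem measurableSet_Ioo] with x e1 e2 hx
      rw [e1, e2]
      simp only [hψ]
      have e3 : φ x * cut a b (N n) x - φ x = φ x * (cut a b (N n) x - 1) := by ring
      rw [e3, abs_mul]
      have e4 := hLa x (Ioo_subset_Icc_self hx)
      have e5 : |x - a| ≤ b - a := by
        rw [abs_of_pos (by linarith [hx.1])]; linarith [hx.2]
      have e6 := cut_sub_abs_le (a := a) (b := b) (N n) x
      calc |φ x| * |cut a b (N n) x - 1| ≤ |φ x| * 1 :=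
            mul_le_mul_of_nonneg_left e6 (abs_nonneg _)
        _ = |φ x| := mul_one _
        _ ≤ M * |x - a| := e4
        _ ≤ M * (b - a) := mul_le_mul_of_nonneg_left e5 hM0
    · have hall : ∀ᵐ x ∂(volume.restrict (Ioo a b)), ∀ n, (zn n).1 x = ψ n x :=
        ae_all_iff.mpr hz1
      filter_upwards [hall, h1, ae_restrict_mem measurableSet_Ioo] with x e1 e2 hx
      rw [e2]
      refine tendsto_const_nhds.congr' ?_
      filter_upwards [hlarge x hx] with n hn
      rw [e1 n]
      simp only [hψ, cut]
      rw [Real.smoothTransition.one_of_one_le hn.1.le, Real.smoothTransition.one_of_one_le hn.2.le]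
      ring
  have ht2 : Tendsto (fun n => (zn n).2) atTop (𝓝 z.2) := by
    refine tendsto_L2 (M := M + (2 * M * K + 2 * M * K)) ?_ ?_
    · intro n
      filter_upwards [hz2 n, h2, ae_restrict_mem measurableSet_Ioo] with x e1 e2 hx
      rw [e1, e2, hψd n x]
      have hxI := Ioo_subset_Icc_self hx
      have b1 : |deriv φ x| ≤ M := hM x hxI
      have b2 := cut_sub_abs_le (a := a) (b := b) (N n) x
      have b3 : |φ x * (deriv Real.smoothTransition (N n * (x - a) - 1) * N n *
          Real.smoothTransition (N n * (b - x) - 1))| ≤ 2 * M * K := by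
        by_cases hc : N n * (x - a) - 1 < 0 ∨ 1 < N n * (x - a) - 1
        · rw [deriv_trans_eq_zero hc]
          simp only [zero_mul, mul_zero, abs_zero]
          positivity
        · push Not at hc
          have q1 : |φ x| * N n ≤ 2 * M := by
            have := hLa x hxI
            rw [abs_of_pos (by linarith [hx.1] : 0 < x - a)] at this
            have h5 : N n * (x - a) ≤ 2 := by linarith [hc.2]
            calc |φ x| * N n ≤ (M * (x - a)) * N n :=
                  mul_le_mul_of_nonneg_right this (hNpos n).le
              _ = M * (N n * (x - a)) := by ring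
              _ ≤ M * 2 := mul_le_mul_of_nonneg_left h5 hM0
              _ = 2 * M := by ring
          have q2 := hK (N n * (x - a) - 1)
          have q3 : |Real.smoothTransition (N n * (b - x) - 1)| ≤ 1 := by
            rw [abs_of_nonneg (Real.smoothTransition.nonneg _)]
            exact Real.smoothTransition.le_one _
          rw [abs_mul, abs_mul, abs_mul, abs_of_pos (hNpos n)]
          calc |φ x| * (|deriv Real.smoothTransition (N n * (x - a) - 1)| * N n *
                |Real.smoothTransition (N n * (b - x) - 1)|)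
              = (|φ x| * N n) * |deriv Real.smoothTransition (N n * (x - a) - 1)| *
                |Real.smoothTransition (N n * (b - x) - 1)| := by ring
            _ ≤ (2 * M) * K * 1 := by
                refine mul_le_mul (mul_le_mul q1 q2 (abs_nonneg _) (by positivity)) q3
                  (abs_nonneg _) (by positivity)
            _ = 2 * M * K := by ring
      have b4 : |φ x * (Real.smoothTransition (N n * (x - a) - 1) *
          (deriv Real.smoothTransition (N n * (b - x) - 1) * (-N n)))| ≤ 2 * M * K := by
        by_cases hc : N n * (b - x) - 1 < 0 ∨ 1 < N n * (b - x) - 1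
        · rw [deriv_trans_eq_zero hc]
          simp only [zero_mul, mul_zero, abs_zero]
          positivity
        · push Not at hc
          have q1 : |φ x| * N n ≤ 2 * M := by
            have := hLb x hxI
            rw [abs_of_neg (by linarith [hx.2] : x - b < 0)] at this
            have h5 : N n * (b - x) ≤ 2 := by linarith [hc.2]
            calc |φ x| * N n ≤ (M * (-(x - b))) * N n :=
                  mul_le_mul_of_nonneg_right this (hNpos n).le
              _ = M * (N n * (b - x)) := by ring
              _ ≤ M * 2 := mul_le_mul_of_nonneg_left h5 hM0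
              _ = 2 * M := by ring
          have q2 := hK (N n * (b - x) - 1)
          have q3 : |Real.smoothTransition (N n * (x - a) - 1)| ≤ 1 := by
            rw [abs_of_nonneg (Real.smoothTransition.nonneg _)]
            exact Real.smoothTransition.le_one _
          rw [abs_mul, abs_mul, abs_mul, abs_neg, abs_of_pos (hNpos n)]
          calc |φ x| * (|Real.smoothTransition (N n * (x - a) - 1)| *
                (|deriv Real.smoothTransition (N n * (b - x) - 1)| * N n))
              = (|φ x| * N n) * |deriv Real.smoothTransition (N n * (b - x) - 1)| *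
                |Real.smoothTransition (N n * (x - a) - 1)| := by ring
            _ ≤ (2 * M) * K * 1 := by
                refine mul_le_mul (mul_le_mul q1 q2 (abs_nonneg _) (by positivity)) q3
                  (abs_nonneg _) (by positivity)
            _ = 2 * M * K := by ring
      have e3 : deriv φ x * cut a b (N n) x + φ x *
          (deriv Real.smoothTransition (N n * (x - a) - 1) * N n *
          Real.smoothTransition (N n * (b - x) - 1) +
          Real.smoothTransition (N n * (x - a) - 1) *
          (deriv Real.smoothTransition (N n * (b - x) - 1) * (-N n))) - deriv φ x =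
          deriv φ x * (cut a b (N n) x - 1) +
          (φ x * (deriv Real.smoothTransition (N n * (x - a) - 1) * N n *
          Real.smoothTransition (N n * (b - x) - 1)) +
          φ x * (Real.smoothTransition (N n * (x - a) - 1) *
          (deriv Real.smoothTransition (N n * (b - x) - 1) * (-N n)))) := by ring
      rw [e3]
      refine (abs_add_le _ _).trans (add_le_add ?_ ((abs_add_le _ _).trans (add_le_add b3 b4)))
      rw [abs_mul]
      calc |deriv φ x| * |cut a b (N n) x - 1| ≤ M * 1 :=
            mul_le_mul b1 b2 (abs_nonneg _) hM0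
        _ = M := mul_one _
    · have hall : ∀ᵐ x ∂(volume.restrict (Ioo a b)), ∀ n, (zn n).2 x = deriv (ψ n) x :=
        ae_all_iff.mpr hz2
      filter_upwards [hall, h2, ae_restrict_mem measurableSet_Ioo] with x e1 e2 hx
      rw [e2]
      refine tendsto_const_nhds.congr' ?_
      filter_upwards [hlarge x hx] with n hn
      rw [e1 n, hψd n x, deriv_trans_eq_zero (Or.inr hn.1), deriv_trans_eq_zero (Or.inr hn.2)]
      simp only [cut]
      rw [Real.smoothTransition.one_of_one_le hn.1.le, Real.smoothTransition.one_of_one_le hn.2.le]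
      ring
  have ht : Tendsto zn atTop (𝓝 z) := by
    have := ht1.prodMk_nhds ht2
    simpa using this
  exact mem_closure_of_tendsto ht (Filter.Eventually.of_forall hmem)

end Density

end Pool.Agent.Lib_helper45
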