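import Pool.Agent.Lib_helper45.Constraint

/-!
Upper and lower envelopes of the weak limits of level sets, and the box of undamped states.
-/

open MeasureTheory Set Filter Topology
open scoped NNReal ENNReal

namespace Pool.Agent.Lib_helper45

set_option linter.unusedSectionVars false

variable {T : ℝ} [hT : Fact (0 < T)] {sg : AddCircle T → ℝ} {g : ℝ → ℝ} {L : ℝ≥0}

open Classical in
/-- Upper envelope. -/
noncomputable def hi (M : ℝ) (θ : ℚ → XT T) (ξ : AddCircle T) : ℝ :=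
  ⨆ r : ℚ, if 0 < θ r ξ ∧ |(r : ℝ)| ≤ M then (r : ℝ) else -M

open Classical in
/-- Lower envelope. -/
noncomputable def lo (M : ℝ) (θ : ℚ → XT T) (ξ : AddCircle T) : ℝ :=
  ⨅ r : ℚ, if θ r ξ < 1 ∧ |(r : ℝ)| ≤ M then (r : ℝ) else M

section

variable {M : ℝ} {θ : ℚ → XT T}

theorem hi_bddAbove (hM : 0 ≤ M) (ξ : AddCircle T) :
    BddAbove (range fun r : ℚ => (open Classical in
      if 0 < θ r ξ ∧ |(r : ℝ)| ≤ M then (r : ℝ) else -M)) := by
  classical
  refine ⟨M, ?_⟩
  rintro _ ⟨r, rfl⟩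
  simp only
  split_ifs with h
  · exact (abs_le.mp h.2).2
  · linarith

theorem lo_bddBelow (hM : 0 ≤ M) (ξ : AddCircle T) :
    BddBelow (range fun r : ℚ => (open Classical in
      if θ r ξ < 1 ∧ |(r : ℝ)| ≤ M then (r : ℝ) else M)) := by
  classical
  refine ⟨-M, ?_⟩
  rintro _ ⟨r, rfl⟩
  simp only
  split_ifs with h
  · exact (abs_le.mp h.2).1
  · linarith

theorem le_hi (hM : 0 ≤ M) {ξ : AddCircle T} {r : ℚ} (h : 0 < θ r ξ) (hr : |(r : ℝ)| ≤ M) :
    (r : ℝ) ≤ hi M θ ξ := by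
  classical
  have := le_ciSup (hi_bddAbove (θ := θ) hM ξ) r
  rw [if_pos ⟨h, hr⟩] at this
  exact this

theorem lo_le (hM : 0 ≤ M) {ξ : AddCircle T} {r : ℚ} (h : θ r ξ < 1) (hr : |(r : ℝ)| ≤ M) :
    lo M θ ξ ≤ (r : ℝ) := by
  classical
  have := ciInf_le (lo_bddBelow (θ := θ) hM ξ) r
  rw [if_pos ⟨h, hr⟩] at this
  exact this

theorem hi_le (hM : 0 ≤ M) (ξ : AddCircle T) : hi M θ ξ ≤ M := by
  classical
  refine ciSup_le fun r => ?_
  split_ifs with h
  · exact (abs_le.mp h.2).2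
  · linarith

theorem neg_le_hi (hM : 0 ≤ M) (ξ : AddCircle T) : -M ≤ hi M θ ξ := by
  classical
  have := le_ciSup (hi_bddAbove (θ := θ) hM ξ) 0
  refine le_trans ?_ this
  split_ifs with h
  · push_cast; linarith
  · exact le_rfl

theorem le_lo (hM : 0 ≤ M) (ξ : AddCircle T) : -M ≤ lo M θ ξ := by
  classical
  refine le_ciInf fun r => ?_
  split_ifs with h
  · exact (abs_le.mp h.2).1
  · linarith

theorem lo_le_M (hM : 0 ≤ M) (ξ : AddCircle T) : lo M θ ξ ≤ M := by
  classical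
  have := ciInf_le (lo_bddBelow (θ := θ) hM ξ) 0
  refine le_trans this ?_
  split_ifs with h
  · push_cast; linarith
  · exact le_rfl

theorem exists_of_lt_hi {ξ : AddCircle T} {c : ℝ} (hc : c < hi M θ ξ) (hcM : -M ≤ c) :
    ∃ r : ℚ, c < r ∧ 0 < θ r ξ ∧ |(r : ℝ)| ≤ M := by
  classical
  obtain ⟨r, hr⟩ := exists_lt_of_lt_ciSup hc
  split_ifs at hr with h
  · exact ⟨r, hr, h⟩
  · linarith

theorem exists_of_lo_lt {ξ : AddCircle T} {c : ℝ} (hc : lo M θ ξ < c) (hcM : c ≤ M) :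
    ∃ r : ℚ, (r : ℝ) < c ∧ θ r ξ < 1 ∧ |(r : ℝ)| ≤ M := by
  classical
  obtain ⟨r, hr⟩ := exists_lt_of_ciInf_lt hc
  split_ifs at hr with h
  · exact ⟨r, hr, h⟩
  · linarith

theorem lo_le_hi (hM : 0 ≤ M) (ξ : AddCircle T) : lo M θ ξ ≤ hi M θ ξ := by
  by_contra hcon
  push Not at hcon
  obtain ⟨r, h1, h2⟩ := exists_rat_btwn hcon
  have h3 := neg_le_hi (θ := θ) hM ξ
  have h4 := lo_le_M (θ := θ) hM ξ
  have hr : |(r : ℝ)| ≤ M := abs_le.mpr ⟨by linarith, by linarith⟩
  have h5 : ¬ 0 < θ r ξ := fun h => by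
    have := le_hi hM h hr; linarith
  have h6 : ¬ θ r ξ < 1 := fun h => by
    have := lo_le hM h hr; linarith
  linarith

open Classical in
theorem hi_measurable : Measurable (hi M θ) := by
  unfold hi
  refine Measurable.iSup fun r => ?_
  have hm : Measurable fun ξ => θ r ξ := (Lp.stronglyMeasurable (θ r)).measurable
  refine Measurable.ite ?_ measurable_const measurable_const
  exact (measurableSet_lt measurable_const hm).inter (MeasurableSet.const _)

open Classical in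
theorem lo_measurable : Measurable (lo M θ) := by
  unfold lo
  refine Measurable.iInf fun r => ?_
  have hm : Measurable fun ξ => θ r ξ := (Lp.stronglyMeasurable (θ r)).measurable
  refine Measurable.ite ?_ measurable_const measurable_const
  exact (measurableSet_lt hm measurable_const).inter (MeasurableSet.const _)

end

/-- Pointwise consequence of the constraints. -/
theorem no_damping_of_constraint (hd : IsDamping sg g L) {M : ℝ} (hM : 0 ≤ M) {θ : ℚ → XT T}
    {P : XT T} {u : AddCircle T}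
    (hc : ∀ r s : ℚ, s < r → ∀ᵐ ξ ∂(volume : Measure (AddCircle T)),
      (tr (-u) (resp sg g (((r : ℝ) - s) / 2) P)) ξ * θ r ξ * (1 - θ s (u + u - ξ)) = 0) :
    ∀ᵐ ξ ∂(volume : Measure (AddCircle T)), ∀ a b : ℝ, a ≤ hi M θ ξ → lo M θ (u + u - ξ) ≤ b →
      b ≤ a → sg (ξ + -u) * g (sg (ξ + -u) * (od P (ξ + -u) + (a - b) / 2)) =
        sg (ξ + -u) * g (sg (ξ + -u) * od P (ξ + -u)) := by
  have hc' : ∀ᵐ ξ ∂(volume : Measure (AddCircle T)), ∀ r s : ℚ, s < r →
      (tr (-u) (resp sg g (((r : ℝ) - s) / 2) P)) ξ * θ r ξ * (1 - θ s (u + u - ξ)) = 0 := by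
    rw [ae_all_iff]; intro r
    rw [ae_all_iff]; intro s
    rw [ae_all_iff]; intro h
    exact hc r s h
  have hr : ∀ᵐ ξ ∂(volume : Measure (AddCircle T)), ∀ r s : ℚ,
      (tr (-u) (resp sg g (((r : ℝ) - s) / 2) P)) ξ =
      sg (ξ + -u) * g (sg (ξ + -u) * (od P (ξ + -u) + ((r : ℝ) - s) / 2)) -
        sg (ξ + -u) * g (sg (ξ + -u) * od P (ξ + -u)) := by
    rw [ae_all_iff]; intro r
    rw [ae_all_iff]; intro s
    filter_upwards [tr_coe (-u) (resp sg g (((r : ℝ) - s) / 2) P),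
      ae_add (resp_coe hd (((r : ℝ) - s) / 2) P) (-u)] with ξ h1 h2
    rw [h1, h2]
  filter_upwards [hc', hr] with ξ h1 h2 a b ha hb hab
  set y := ξ + -u
  set β := od P y
  set H := hi M θ ξ
  set l := lo M θ (u + u - ξ) with hl
  have hHM : H ≤ M := hi_le hM ξ
  have hlM : -M ≤ l := le_lo hM _
  -- equality for increments strictly below `(H - l) / 2`
  have key : ∀ σ : ℝ, 0 ≤ σ → σ < (H - l) / 2 →
      sg y * g (sg y * (β + σ)) = sg y * g (sg y * β) := by
    intro σ hσ0 hσ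
    set gap := H - l - 2 * σ with hgap
    have hgap0 : 0 < gap := by rw [hgap]; linarith
    obtain ⟨r, hr1, hr2, hr3⟩ := exists_of_lt_hi (M := M) (θ := θ) (ξ := ξ) (c := H - gap / 4)
      (by change H - gap / 4 < H; linarith) (by rw [hgap]; linarith)
    obtain ⟨s, hs1, hs2, hs3⟩ := exists_of_lo_lt (M := M) (θ := θ) (ξ := u + u - ξ)
      (c := l + gap / 4) (by rw [← hl]; linarith) (by rw [hgap]; linarith)
    have hrs : (s : ℝ) < r := by linarith
    have h3 := h1 r s (by exact_mod_cast hrs)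
    rw [h2 r s] at h3
    have h4 : (1 - θ s (u + u - ξ)) ≠ 0 := by linarith
    have h5 : θ r ξ ≠ 0 := hr2.ne'
    have h6 := (mul_eq_zero.mp h3).resolve_right h4
    have h7 := (mul_eq_zero.mp h6).resolve_right h5
    have h8 := hd.pointwise_mono y (show β + σ ≤ β + ((r : ℝ) - s) / 2 by linarith)
    have h9 := hd.pointwise_mono y (show β ≤ β + σ by linarith)
    linarith
  have key2 : ∀ σ : ℝ, 0 ≤ σ → σ ≤ (H - l) / 2 →
      sg y * g (sg y * (β + σ)) = sg y * g (sg y * β) := by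
    intro σ hσ0 hσ
    rcases hσ.lt_or_eq with h | h
    · exact key σ hσ0 h
    · rcases hσ0.lt_or_eq with h0 | h0
      · -- limit from the left
        have hcont : Continuous fun σ : ℝ => sg y * g (sg y * (β + σ)) := by
          have := hd.lip.continuous
          fun_prop
        have h3 : Tendsto (fun σ : ℝ => sg y * g (sg y * (β + σ))) (𝓝[<] σ)
            (𝓝 (sg y * g (sg y * (β + σ)))) := (hcont.tendsto σ).mono_left nhdsWithin_le_nhds
        have h4 : Tendsto (fun σ : ℝ => sg y * g (sg y * (β + σ))) (𝓝[<] σ)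
            (𝓝 (sg y * g (sg y * β))) := by
          refine tendsto_const_nhds.congr' ?_
          have h5 : Ioo 0 σ ∈ 𝓝[<] σ := Ioo_mem_nhdsLT h0
          filter_upwards [h5] with x hx
          exact (key x hx.1.le (by linarith [hx.2])).symm
        exact tendsto_nhds_unique h3 h4
      · rw [← h0, add_zero]
  exact key2 ((a - b) / 2) (by linarith) (by linarith)

/-- A state within the envelopes is undamped. -/
theorem undamped_of_constraint (hd : IsDamping sg g L) {M : ℝ} (hM : 0 ≤ M) {θ : ℚ → XT T}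
    {P : XT T} {u : AddCircle T}
    (hc : ∀ r s : ℚ, s < r → ∀ᵐ ξ ∂(volume : Measure (AddCircle T)),
      (tr (-u) (resp sg g (((r : ℝ) - s) / 2) P)) ξ * θ r ξ * (1 - θ s (u + u - ξ)) = 0)
    {Q : XT T} (hQ : ∀ᵐ ξ ∂(volume : Measure (AddCircle T)), lo M θ ξ ≤ Q ξ ∧ Q ξ ≤ hi M θ ξ) :
    dmp sg g (P + tr u Q) = dmp sg g P := by
  have h0 := no_damping_of_constraint hd hM hc
  -- statement at `x`, with `ξ = x + u`
  have h1 := ae_add h0 u
  -- statement at `-x`, with `ξ = u - x`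
  have h2 := ae_sub h0 u
  have hod := od_coe P
  refine Lp.ext ?_
  filter_upwards [h1, h2, hd.nem_coe (od (P + tr u Q)), hd.nem_coe (od P),
    Lp.coeFn_add (od P) (od (tr u Q)), od_coe (tr u Q), tr_coe u Q, ae_sub (tr_coe u Q) 0,
    ae_add hQ u, ae_sub hQ u, hd.sign.odd, hod, ae_sub hod 0]
    with x a1 a2 a3 a4 a5 a6 a7 a8 a9 a10 a11 a12 a13
  have e1 : x + u + -u = x := by abel
  have e2 : u + u - (x + u) = u - x := by abel
  have e3 : u - x + -u = -x := by abel
  have e4 : u + u - (u - x) = x + u := by abel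
  rw [zero_sub] at a8 a13
  rw [e1, e2] at a1
  rw [e3, e4] at a2
  have e5 : -x + u = u - x := by abel
  rw [e5] at a8
  have hoP : od P (-x) = - od P x := by
    rw [a12, a13, neg_neg]; ring
  rw [dmp, dmp, a3, a4, od_add, a5, Pi.add_apply, a6, a7, a8]
  rcases le_total (Q (u - x)) (Q (x + u)) with h | h
  · exact a1 (Q (x + u)) (Q (u - x)) a9.2 a10.1 h
  · have h3 := a2 (Q (u - x)) (Q (x + u)) a10.2 a9.1 h
    rw [a11, hoP] at h3
    have e6 : -sg x * (-od P x + (Q (u - x) - Q (x + u)) / 2) =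
        sg x * (od P x + (Q (x + u) - Q (u - x)) / 2) := by ring
    have e7 : -sg x * -od P x = sg x * od P x := by ring
    rw [e6, e7] at h3
    linarith

end Pool.Agent.Lib_helper45
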