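import Pool.Agent.Lib_helper45.Fold

/-!
Even and odd extensions from `L²(a,b)` to `L²` of the circle of length `2 (b - a)`.
-/

open MeasureTheory Set Filter Topology
open scoped NNReal ENNReal ContDiff

namespace Pool.Agent.Lib_helper45

set_option linter.unusedSectionVars false

open Pool.Agent.Wave1D

theorem inner_L2 {a b : ℝ} (p q : L2 a b) :
    inner ℝ p q = ∫ x in Ioo a b, p x * q x := by
  rw [L2.inner_def]
  refine integral_congr_ae (Filter.Eventually.of_forall fun x => ?_)
  simp [mul_comm]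

section Ext

variable {a b : ℝ} [hT : Fact (0 < len a b)]

theorem memLp_fold (w : L2 a b) :
    MemLp (fun ξ => w (fold a b ξ)) 2 (volume : Measure (AddCircle (len a b))) := by
  have h1 : MemLp (fun x => w x) 2 ((2 : ℝ≥0∞) • (volume.restrict (Ioo a b))) :=
    (Lp.memLp w).smul_measure (by norm_num)
  exact h1.comp_measurePreserving fold_mp

theorem memLp_sgn_fold (v : L2 a b) :
    MemLp (fun ξ => sgn a b ξ * v (fold a b ξ)) 2 (volume : Measure (AddCircle (len a b))) := by
  have h1 := memLp_fold (a := a) (b := b) v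
  have hs := sgn_sign (a := a) (b := b)
  refine h1.mono (hs.meas.aestronglyMeasurable.mul h1.1) (Filter.Eventually.of_forall fun ξ => ?_)
  rw [norm_mul]
  rcases hs.val ξ with h | h <;> simp [h]

/-- Even extension. -/
noncomputable def evx (w : L2 a b) : XT (len a b) := (memLp_fold w).toLp _

/-- Odd extension. -/
noncomputable def odx (v : L2 a b) : XT (len a b) := (memLp_sgn_fold v).toLp _

theorem evx_coe (w : L2 a b) : evx w =ᵐ[volume] fun ξ => w (fold a b ξ) :=
  (memLp_fold w).coeFn_toLp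

theorem odx_coe (v : L2 a b) : odx v =ᵐ[volume] fun ξ => sgn a b ξ * v (fold a b ξ) :=
  (memLp_sgn_fold v).coeFn_toLp

theorem evx_sub (w z : L2 a b) : evx (w - z) = evx w - evx z := by
  refine Lp.ext ?_
  filter_upwards [evx_coe (w - z), evx_coe w, evx_coe z, Lp.coeFn_sub (evx w) (evx z),
    ae_fold (Lp.coeFn_sub w z)] with ξ h1 h2 h3 h4 h5
  rw [h1, h4, Pi.sub_apply, h2, h3, h5]
  rfl

theorem odx_sub (w z : L2 a b) : odx (w - z) = odx w - odx z := by
  refine Lp.ext ?_
  filter_upwards [odx_coe (w - z), odx_coe w, odx_coe z, Lp.coeFn_sub (odx w) (odx z),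
    ae_fold (Lp.coeFn_sub w z)] with ξ h1 h2 h3 h4 h5
  rw [h1, h4, Pi.sub_apply, h2, h3, h5, Pi.sub_apply]
  ring

theorem integral_fold (G : ℝ → ℝ) (hG : AEStronglyMeasurable G (volume.restrict (Ioo a b))) :
    ∫ ξ : AddCircle (len a b), G (fold a b ξ) = 2 * ∫ x in Ioo a b, G x := by
  have h1 : AEStronglyMeasurable G (Measure.map (fold a b)
      (volume : Measure (AddCircle (len a b)))) := by
    rw [fold_map]
    exact hG.smul_measure _
  have h2 := integral_map (μ := (volume : Measure (AddCircle (len a b))))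
    fold_continuous.measurable.aemeasurable h1
  rw [← h2, fold_map, integral_smul_measure]
  simp

theorem inner_evx_evx (w z : L2 a b) : inner ℝ (evx w) (evx z) = 2 * inner ℝ w z := by
  rw [inner_eq_integral, inner_L2, ← integral_fold (fun x => w x * z x)
    ((Lp.aestronglyMeasurable w).mul (Lp.aestronglyMeasurable z))]
  refine integral_congr_ae ?_
  filter_upwards [evx_coe w, evx_coe z] with ξ h1 h2
  rw [h1, h2]

theorem inner_odx_odx (w z : L2 a b) : inner ℝ (odx w) (odx z) = 2 * inner ℝ w z := by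
  rw [inner_eq_integral, inner_L2, ← integral_fold (fun x => w x * z x)
    ((Lp.aestronglyMeasurable w).mul (Lp.aestronglyMeasurable z))]
  refine integral_congr_ae ?_
  have hs := sgn_sign (a := a) (b := b)
  filter_upwards [odx_coe w, odx_coe z] with ξ h1 h2
  rw [h1, h2]
  rcases hs.val ξ with h | h <;> rw [h] <;> ring

theorem rf_evx (w : L2 a b) : rf 0 (evx w) = evx w := by
  refine Lp.ext ?_
  filter_upwards [rf_coe (0 : AddCircle (len a b)) (evx w), evx_coe w,
    ae_sub (evx_coe w) 0] with ξ h1 h2 h3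
  rw [h1, h3, h2, zero_sub, fold_neg]

theorem rf_odx (v : L2 a b) : rf 0 (odx v) = - odx v := by
  have hs := sgn_sign (a := a) (b := b)
  refine Lp.ext ?_
  filter_upwards [rf_coe (0 : AddCircle (len a b)) (odx v), odx_coe v,
    ae_sub (odx_coe v) 0, hs.odd, Lp.coeFn_neg (odx v)] with ξ h1 h2 h3 h4 h5
  rw [h1, h3, h5, Pi.neg_apply, h2, zero_sub, fold_neg, h4]
  ring

theorem inner_evx_odx (w v : L2 a b) : inner ℝ (evx w) (odx v) = 0 := by
  have h := inner_rf_rf (0 : AddCircle (len a b)) (evx w) (odx v)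
  rw [rf_evx, rf_odx, inner_neg_right] at h
  linarith

theorem inner_odx_evx (v w : L2 a b) : inner ℝ (odx v) (evx w) = 0 := by
  rw [real_inner_comm, inner_evx_odx]

/-- The state on the circle attached to `(w, v) = (∂_x u, ∂_t u)`. -/
noncomputable def st (w v : L2 a b) : XT (len a b) := evx w + odx v

theorem norm_st_sq (w v : L2 a b) : ‖st w v‖ ^ 2 = 2 * (‖w‖ ^ 2 + ‖v‖ ^ 2) := by
  have e : ‖st w v‖ ^ 2 = inner ℝ (st w v) (st w v) := (real_inner_self_eq_norm_sq _).symm
  rw [e, st, inner_add_left, inner_add_right, inner_add_right, inner_evx_evx, inner_odx_odx,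
    inner_evx_odx, inner_odx_evx, real_inner_self_eq_norm_sq,
    real_inner_self_eq_norm_sq]
  ring

theorem st_sub (w v w' v' : L2 a b) : st (w - w') (v - v') = st w v - st w' v' := by
  rw [st, st, st, evx_sub, odx_sub]
  abel

theorem inner_st_evx (w v z : L2 a b) : inner ℝ (st w v) (evx z) = 2 * inner ℝ w z := by
  rw [st, inner_add_left, inner_evx_evx, inner_odx_evx, add_zero]

theorem inner_st_odx (w v z : L2 a b) : inner ℝ (st w v) (odx z) = 2 * inner ℝ v z := by
  rw [st, inner_add_left, inner_odx_odx, inner_evx_odx, zero_add]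

theorem norm_st_le (w v : L2 a b) : ‖st w v‖ ≤ 2 * max ‖w‖ ‖v‖ := by
  have h := norm_st_sq w v
  have h0 : 0 ≤ max ‖w‖ ‖v‖ := (norm_nonneg w).trans (le_max_left _ _)
  have h1 : ‖w‖ ≤ max ‖w‖ ‖v‖ := le_max_left _ _
  have h2 : ‖v‖ ≤ max ‖w‖ ‖v‖ := le_max_right _ _
  nlinarith [norm_nonneg w, norm_nonneg v, norm_nonneg (st w v)]

theorem le_norm_st_left (w v : L2 a b) : ‖w‖ ≤ ‖st w v‖ := by
  have h := norm_st_sq w v
  nlinarith [norm_nonneg w, norm_nonneg v, norm_nonneg (st w v)]

theorem le_norm_st_right (w v : L2 a b) : ‖v‖ ≤ ‖st w v‖ := by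
  have h := norm_st_sq w v
  nlinarith [norm_nonneg w, norm_nonneg v, norm_nonneg (st w v)]

theorem od_st (w v : L2 a b) : od (st w v) = odx v := by
  rw [od, st, map_add, rf_evx, rf_odx]
  have : evx w + odx v - (evx w + -odx v) = (2 : ℝ) • odx v := by
    rw [two_smul]; abel
  rw [this, smul_smul]
  norm_num

theorem st_continuous : Continuous fun z : L2 a b × L2 a b => st z.1 z.2 := by
  refine LipschitzWith.continuous (K := 2) (LipschitzWith.of_dist_le_mul fun z z' => ?_)
  rw [dist_eq_norm, ← st_sub, dist_eq_norm]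
  exact norm_st_le _ _

theorem evx_zero : evx (0 : L2 a b) = 0 := by
  have := evx_sub (0 : L2 a b) 0
  rwa [sub_self, sub_self] at this

theorem st_zero_left (v : L2 a b) : st 0 v = odx v := by
  rw [st, evx_zero, zero_add]

end Ext

section Nem

variable {a b : ℝ} {g : ℝ → ℝ} {L : ℝ≥0}

theorem memLp_gI (hL : LipschitzWith L g) (v : L2 a b) :
    MemLp (fun x => g (v x)) 2 (volume.restrict (Ioo a b)) := by
  have hv : MemLp (fun x => v x) 2 (volume.restrict (Ioo a b)) := Lp.memLp v
  have h1 : MemLp (fun x => (L : ℝ) * |v x|) 2 (volume.restrict (Ioo a b)) :=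
    hv.abs.const_mul (L : ℝ)
  have h2 : MemLp (fun _ : ℝ => |g 0|) 2 (volume.restrict (Ioo a b)) := memLp_const _
  have h3 : MemLp (fun x : ℝ => |g 0| + (L : ℝ) * |v x|) 2 (volume.restrict (Ioo a b)) := h2.add h1
  refine h3.mono (hL.continuous.comp_aestronglyMeasurable hv.1)
    (Filter.Eventually.of_forall fun x => ?_)
  have h4 := hL.dist_le_mul (v x) 0
  rw [Real.dist_eq, Real.dist_eq, sub_zero] at h4
  have h5 : |g (v x)| ≤ |g 0| + L * |v x| := by
    have := abs_sub_abs_le_abs_sub (g (v x)) (g 0)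
    linarith
  rw [Real.norm_eq_abs, Real.norm_eq_abs]
  exact h5.trans (le_abs_self _)

open Classical in
/-- The superposition operator on `L²(a,b)`. -/
noncomputable def gI (g : ℝ → ℝ) (v : L2 a b) : L2 a b :=
  if h : MemLp (fun x => g (v x)) 2 (volume.restrict (Ioo a b)) then h.toLp _ else 0

theorem gI_coe (hL : LipschitzWith L g) (v : L2 a b) :
    gI g v =ᵐ[volume.restrict (Ioo a b)] fun x => g (v x) := by
  rw [gI, dif_pos (memLp_gI hL v)]
  exact (memLp_gI hL v).coeFn_toLp

theorem gI_continuous (hL : LipschitzWith L g) : Continuous (gI (a := a) (b := b) g) := by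
  refine LipschitzWith.continuous (K := L) (LipschitzWith.of_dist_le_mul fun v w => ?_)
  rw [dist_eq_norm, dist_eq_norm]
  refine Lp.norm_le_mul_norm_of_ae_le_mul ?_
  filter_upwards [gI_coe hL v, gI_coe hL w, Lp.coeFn_sub (gI g v) (gI g w),
    Lp.coeFn_sub v w] with x h1 h2 h3 h4
  rw [h3, h4, Pi.sub_apply, Pi.sub_apply, h1, h2]
  have := hL.dist_le_mul (v x) (w x)
  rwa [Real.dist_eq, Real.dist_eq] at this

variable [hT : Fact (0 < len a b)]

theorem isDamping (hg : Monotone g) (hL : LipschitzWith L g) : IsDamping (sgn a b) g L :=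
  ⟨sgn_sign, hg, hL⟩

theorem dmp_st (hg : Monotone g) (hL : LipschitzWith L g) (w v : L2 a b) :
    dmp (sgn a b) g (st w v) = odx (gI g v) := by
  rw [dmp, od_st]
  refine Lp.ext ?_
  filter_upwards [(isDamping (a := a) (b := b) hg hL).nem_coe (odx v), odx_coe v,
    odx_coe (gI g v), ae_fold (gI_coe hL v)] with ξ h1 h2 h3 h4
  rw [h1, h3, h4, h2]
  have hs := sgn_sign (a := a) (b := b)
  rcases hs.val ξ with h | h <;> rw [h] <;> simp

end Nem

end Pool.Agent.Lib_helper45
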