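import Mathlib

/-!
Definitions for the damped string equation on an interval `(a,b)`:
`∂_t² u - ∂_x² u + g(∂_t u) = f(t)` on `(a,b)`, `u = 0` at the end points.
-/

open MeasureTheory Set Filter Topology
open scoped NNReal ENNReal ContDiff

namespace Pool.Agent.Wave1D

/-- Real `L²(a,b)`. -/
abbrev L2 (a b : ℝ) : Type := Lp ℝ 2 (volume.restrict (Ioo a b))

/-- `φ ∈ C_c^∞((a,b))`. -/
def IsTest (a b : ℝ) (φ : ℝ → ℝ) : Prop :=
  ContDiff ℝ ∞ φ ∧ HasCompactSupport φ ∧ tsupport φ ⊆ Ioo a b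

/-- The pairs `(φ, φ')` in `L²(a,b) × L²(a,b)`, for `φ ∈ C_c^∞((a,b))`. -/
def testPairs (a b : ℝ) : Set (L2 a b × L2 a b) :=
  {z | ∃ φ : ℝ → ℝ, IsTest a b φ ∧ z.1 =ᵐ[volume.restrict (Ioo a b)] φ ∧
    z.2 =ᵐ[volume.restrict (Ioo a b)] deriv φ}

/-- The Sobolev space `H¹₀(a,b)`, as the set of the pairs `(u, u')`: the closure of the
pairs `(φ, φ')`, `φ ∈ C_c^∞((a,b))`, in `L²(a,b) × L²(a,b)`. -/
def H10 (a b : ℝ) : Set (L2 a b × L2 a b) := closure (testPairs a b)

/-- The energy space `H¹₀(a,b) × L²(a,b)`, as the set of the triples `((u, u'), v)`, with the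
topology (and uniformity) of `L²(a,b)³`, which is the one of the norm
`‖u‖_{H¹} + ‖v‖_{L²}`. -/
abbrev EnergySpace (a b : ℝ) : Type := {U : (L2 a b × L2 a b) × L2 a b // U.1 ∈ H10 a b}

/-- Position `u`. -/
def EnergySpace.pos {a b : ℝ} (U : EnergySpace a b) : L2 a b := U.1.1.1

/-- Weak space derivative `u'` of the position. -/
def EnergySpace.dx {a b : ℝ} (U : EnergySpace a b) : L2 a b := U.1.1.2

/-- Velocity `v`. -/
def EnergySpace.vel {a b : ℝ} (U : EnergySpace a b) : L2 a b := U.1.2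

/-- Energy space solutions `U = (u, ∂_t u)` on `[0,∞)` of
`∂_t² u - ∂_x² u + g(∂_t u) = f(t)` on `(a,b)` with Dirichlet boundary conditions:
`u ∈ C([0,∞); H¹₀) ∩ C¹([0,∞); L²)` and the equation holds in the weak sense. -/
structure IsSolution (a b : ℝ) (g : ℝ → ℝ) (f : ℝ → L2 a b) (U : ℝ → EnergySpace a b) : Prop where
  /-- continuity in the energy space -/
  cont : ContinuousOn U (Ici 0)
  /-- the second component is the time derivative of the first one, in `L²(a,b)` -/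
  deriv_pos : ∀ t, 0 ≤ t → HasDerivWithinAt (fun s => (U s).pos) ((U t).vel) (Ici 0) t
  /-- weak form of the equation, integrated in time -/
  weak : ∀ φ : ℝ → ℝ, IsTest a b φ → ∀ t, 0 ≤ t →
    (∫ x in Ioo a b, (U t).vel x * φ x) - (∫ x in Ioo a b, (U 0).vel x * φ x) =
      ∫ s in (0 : ℝ)..t, ∫ x in Ioo a b,
        (f s x * φ x - (U s).dx x * deriv φ x - g ((U s).vel x) * φ x)

end Pool.Agent.Wave1D
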