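import Pool.Agent.Lib_helper45.CircleMain
import Pool.Agent.Lib_helper45.WaveDefs

/-!
Folding the circle of length `2 (b - a)` onto the interval `(a,b)`.
-/

open MeasureTheory Set Filter Topology
open scoped NNReal ENNReal ContDiff

namespace Pool.Agent.Lib_helper45

set_option linter.unusedSectionVars false

open Pool.Agent.Wave1D

section Fold

variable {a b : ℝ}

/-- Length of the circle attached to the interval. -/
def len (a b : ℝ) : ℝ := 2 * (b - a)

variable [hT : Fact (0 < len a b)]

theorem ab_lt : a < b := by
  have h : 0 < len a b := hT.out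
  unfold len at h
  linarith

/-- Folding map from the circle to the interval. -/
noncomputable def fold (a b : ℝ) (ξ : AddCircle (len a b)) : ℝ := a + ‖ξ‖

theorem fold_continuous : Continuous (fold a b) := continuous_const.add continuous_norm

theorem fold_coe {x : ℝ} (hx : |x| ≤ b - a) : fold a b (x : AddCircle (len a b)) = a + |x| := by
  have h : (0 : ℝ) < len a b := hT.out
  have h1 : ‖(x : AddCircle (len a b))‖ = |x| := by
    rw [AddCircle.norm_coe_eq_abs_iff (len a b) h.ne', abs_of_pos h]
    unfold len
    linarith
  rw [fold, h1]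

theorem fold_neg (ξ : AddCircle (len a b)) : fold a b (-ξ) = fold a b ξ := by
  rw [fold, fold, norm_neg]

theorem mk_mp : MeasurePreserving (fun x : ℝ => (x : AddCircle (len a b)))
    (volume.restrict (Ioc (-(b - a)) (-(b - a) + len a b))) volume :=
  AddCircle.measurePreserving_mk (len a b) (-(b - a))

/-- Almost everywhere statements on the circle can be checked on a fundamental interval. -/
theorem ae_circle {P : AddCircle (len a b) → Prop} (hP : MeasurableSet {ξ | P ξ})
    (h : ∀ᵐ x : ℝ ∂(volume.restrict (Ioc (-(b - a)) (-(b - a) + len a b))),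
      P (x : AddCircle (len a b))) : ∀ᵐ ξ ∂(volume : Measure (AddCircle (len a b))), P ξ := by
  have h1 := (ae_map_iff (μ := volume.restrict (Ioc (-(b - a)) (-(b - a) + len a b)))
    (mk_mp (a := a) (b := b)).measurable.aemeasurable hP).mpr h
  rwa [(mk_mp (a := a) (b := b)).map_eq] at h1

theorem Ioc_split : Ioc (-(b - a)) (-(b - a) + len a b) = Ioc (-(b - a)) 0 ∪ Ioc 0 (b - a) := by
  have h := ab_lt (a := a) (b := b)
  rw [Ioc_union_Ioc_eq_Ioc (by linarith) (by linarith)]
  congr 1
  unfold len; ring

theorem fold_map : Measure.map (fold a b) (volume : Measure (AddCircle (len a b))) =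
    (2 : ℝ≥0∞) • (volume.restrict (Ioo a b)) := by
  have hab := ab_lt (a := a) (b := b)
  rw [← (mk_mp (a := a) (b := b)).map_eq, Measure.map_map fold_continuous.measurable
    (mk_mp (a := a) (b := b)).measurable, Ioc_split,
    Measure.restrict_union (by
      rw [Set.disjoint_left]; intro x h1 h2; linarith [h1.2, h2.1]) measurableSet_Ioc,
    Measure.map_add _ _ (fold_continuous.measurable.comp (mk_mp (a := a) (b := b)).measurable)]
  have hR : Measure.map (fold a b ∘ fun x : ℝ => (x : AddCircle (len a b)))
      (volume.restrict (Ioc 0 (b - a))) = volume.restrict (Ioo a b) := by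
    have h1 : Measure.map (fold a b ∘ fun x : ℝ => (x : AddCircle (len a b)))
        (volume.restrict (Ioc 0 (b - a))) =
        Measure.map (fun x => a + x) (volume.restrict (Ioc 0 (b - a))) := by
      refine Measure.map_congr ?_
      filter_upwards [ae_restrict_mem measurableSet_Ioc] with x hx
      simp only [Function.comp_apply]
      rw [fold_coe (by rw [abs_of_pos hx.1]; exact hx.2), abs_of_pos hx.1]
    rw [h1]
    have h2 : (fun x : ℝ => a + x) ⁻¹' (Ioc a b) = Ioc 0 (b - a) := by
      ext x; simp only [mem_preimage, mem_Ioc]; constructor <;> rintro ⟨h3, h4⟩ <;>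
        constructor <;> linarith
    have h3 := (measurePreserving_add_left (volume : Measure ℝ) a).restrict_preimage
      (s := Ioc a b) measurableSet_Ioc
    rw [h2] at h3
    rw [h3.map_eq]
    exact (restrict_Ioo_eq_restrict_Ioc).symm
  have hLft : Measure.map (fold a b ∘ fun x : ℝ => (x : AddCircle (len a b)))
      (volume.restrict (Ioc (-(b - a)) 0)) = volume.restrict (Ioo a b) := by
    have h1 : Measure.map (fold a b ∘ fun x : ℝ => (x : AddCircle (len a b)))
        (volume.restrict (Ioc (-(b - a)) 0)) =
        Measure.map (fun x => a - x) (volume.restrict (Ioc (-(b - a)) 0)) := by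
      refine Measure.map_congr ?_
      filter_upwards [ae_restrict_mem measurableSet_Ioc] with x hx
      simp only [Function.comp_apply]
      rw [fold_coe (by rw [abs_of_nonpos hx.2]; linarith [hx.1]), abs_of_nonpos hx.2]
      ring
    rw [h1]
    have h2 : (fun x : ℝ => a - x) ⁻¹' (Ico a b) = Ioc (-(b - a)) 0 := by
      ext x; simp only [mem_preimage, mem_Ico, mem_Ioc]; constructor <;> rintro ⟨h3, h4⟩ <;>
        constructor <;> linarith
    have h3 := (Measure.measurePreserving_sub_left (volume : Measure ℝ) a).restrict_preimage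
      (s := Ico a b) measurableSet_Ico
    rw [h2] at h3
    rw [h3.map_eq]
    exact (restrict_Ioo_eq_restrict_Ico).symm
  rw [hR, hLft, two_smul]

theorem fold_mp : MeasurePreserving (fold a b) (volume : Measure (AddCircle (len a b)))
    ((2 : ℝ≥0∞) • (volume.restrict (Ioo a b))) := ⟨fold_continuous.measurable, fold_map⟩

theorem fold_qmp : Measure.QuasiMeasurePreserving (fold a b)
    (volume : Measure (AddCircle (len a b))) (volume.restrict (Ioo a b)) := by
  refine ⟨fold_continuous.measurable, ?_⟩
  rw [fold_map]
  exact Measure.smul_absolutelyContinuous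

/-- Almost everywhere statements on the interval pull back to the circle. -/
theorem ae_fold {P : ℝ → Prop} (h : ∀ᵐ x ∂(volume.restrict (Ioo a b)), P x) :
    ∀ᵐ ξ ∂(volume : Measure (AddCircle (len a b))), P (fold a b ξ) := fold_qmp.ae h

open Classical in
/-- The sign on the circle. -/
noncomputable def sgn (a b : ℝ) [Fact (0 < len a b)] (ξ : AddCircle (len a b)) : ℝ :=
  if 0 < ((AddCircle.equivIoc (len a b) (-(b - a)) ξ :
    Ioc (-(b - a)) (-(b - a) + len a b)) : ℝ) then 1 else -1

theorem sgn_coe_pos {x : ℝ} (h0 : 0 < x) (hx : x ≤ b - a) :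
    sgn a b (x : AddCircle (len a b)) = 1 := by
  have h1 : ((AddCircle.equivIoc (len a b) (-(b - a)) (x : AddCircle (len a b)) :
      Ioc (-(b - a)) (-(b - a) + len a b)) : ℝ) = x := by
    refine AddCircle.equivIoc_coe_of_mem ⟨by linarith, ?_⟩
    unfold len; linarith
  rw [sgn, h1, if_pos h0]

theorem sgn_coe_nonpos {x : ℝ} (h0 : x ≤ 0) (hx : -(b - a) < x) :
    sgn a b (x : AddCircle (len a b)) = -1 := by
  have hab := ab_lt (a := a) (b := b)
  have h1 : ((AddCircle.equivIoc (len a b) (-(b - a)) (x : AddCircle (len a b)) :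
      Ioc (-(b - a)) (-(b - a) + len a b)) : ℝ) = x := by
    refine AddCircle.equivIoc_coe_of_mem ⟨hx, ?_⟩
    unfold len; linarith
  rw [sgn, h1, if_neg (not_lt.mpr h0)]

theorem sgn_sign : IsSign (sgn a b) := by
  classical
  have hab := ab_lt (a := a) (b := b)
  refine ⟨?_, ?_, ?_⟩
  · have h1 : Measurable fun s : AddCircle (len a b) =>
        ((AddCircle.measurableEquivIoc (len a b) (-(b - a)) s :
          Ioc (-(b - a)) (-(b - a) + len a b)) : ℝ) :=
      measurable_subtype_coe.comp (AddCircle.measurableEquivIoc (len a b) (-(b - a))).measurable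
    exact Measurable.ite (h1 measurableSet_Ioi) measurable_const measurable_const
  · intro x
    unfold sgn
    split_ifs
    · left; rfl
    · right; rfl
  · -- transfer to the real line
    have hms : Measurable (sgn a b) := by
      have h1 : Measurable fun s : AddCircle (len a b) =>
          ((AddCircle.measurableEquivIoc (len a b) (-(b - a)) s :
            Ioc (-(b - a)) (-(b - a) + len a b)) : ℝ) :=
        measurable_subtype_coe.comp (AddCircle.measurableEquivIoc (len a b) (-(b - a))).measurable
      exact Measurable.ite (h1 measurableSet_Ioi) measurable_const measurable_const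
    refine ae_circle (measurableSet_eq_fun (hms.comp measurable_neg) hms.neg) ?_
    have h0 : ∀ᵐ x : ℝ ∂(volume.restrict (Ioc (-(b - a)) (-(b - a) + len a b))), x ≠ 0 ∧ x ≠ b - a := by
      have : ∀ᵐ x : ℝ ∂(volume : Measure ℝ), x ≠ 0 ∧ x ≠ b - a := by
        have h1 : ∀ᵐ x : ℝ ∂(volume : Measure ℝ), x ≠ 0 := by simp [ae_iff, measure_singleton]
        have h2 : ∀ᵐ x : ℝ ∂(volume : Measure ℝ), x ≠ b - a := by simp [ae_iff, measure_singleton]
        filter_upwards [h1, h2] with x h3 h4 using ⟨h3, h4⟩
      exact ae_restrict_of_ae this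
    filter_upwards [h0, ae_restrict_mem measurableSet_Ioc] with x hx hx2
    have hx3 : x ≤ b - a := by
      have := hx2.2; unfold len at this; linarith
    rw [← AddCircle.coe_neg]
    rcases lt_or_gt_of_ne hx.1 with h | h
    · rw [sgn_coe_pos (x := -x) (by linarith) (by linarith [hx2.1]),
        sgn_coe_nonpos h.le hx2.1, neg_neg]
    · have h5 : x < b - a := lt_of_le_of_ne hx3 hx.2
      rw [sgn_coe_pos h hx3, sgn_coe_nonpos (x := -x) (by linarith) (by linarith)]

end Fold

end Pool.Agent.Lib_helper45
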