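import Pool.Agent.Lib_helper45.Sobolev

/-!
Trigonometric functions on the circle of length `2 (b - a)` and on the interval `(a,b)`.
-/

open MeasureTheory Set Filter Topology
open scoped NNReal ENNReal ContDiff

namespace Pool.Agent.Lib_helper45

set_option linter.unusedSectionVars false

open Pool.Agent.Wave1D

section Circle

variable {T : ℝ} [hT : Fact (0 < T)]

/-- An `L²` function orthogonal to all trigonometric functions vanishes. -/
theorem eq_zero_of_fourier (q : XT T) (hre : ∀ k : ℤ, ∫ x, q x * (fourier k x).re = 0)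
    (him : ∀ k : ℤ, ∫ x, q x * (fourier k x).im = 0) : q = 0 := by
  have h1 : MemLp (fun x => ((q x : ℝ) : ℂ)) 2 (volume : Measure (AddCircle T)) :=
    (Lp.memLp q).ofReal
  have h2 : MemLp (fun x => ((q x : ℝ) : ℂ)) 2 (AddCircle.haarAddCircle : Measure (AddCircle T)) :=
    h1.haarAddCircle
  have hint : ∀ k : ℤ, Integrable (fun x : AddCircle T => fourier k x * ((q x : ℝ) : ℂ)) := by
    intro k
    have h3 : Integrable (fun x => ((q x : ℝ) : ℂ)) (volume : Measure (AddCircle T)) :=
      h1.integrable (by norm_num)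
    refine h3.bdd_mul (c := 1) (fourier k).continuous.aestronglyMeasurable
      (Filter.Eventually.of_forall fun x => ?_)
    have := (fourier k).norm_coe_le_norm x
    rwa [fourier_norm] at this
  have h0 : ∀ k : ℤ, ∫ x : AddCircle T, fourier k x * ((q x : ℝ) : ℂ) = 0 := by
    intro k
    rw [← integral_re_add_im (hint k)]
    have e1 : ∫ x : AddCircle T, RCLike.re (fourier k x * ((q x : ℝ) : ℂ)) = 0 := by
      rw [← hre k]
      refine integral_congr_ae (Filter.Eventually.of_forall fun x => ?_)
      simp only [RCLike.re_to_complex, Complex.mul_re, Complex.ofReal_re, Complex.ofReal_im]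
      ring
    have e2 : ∫ x : AddCircle T, RCLike.im (fourier k x * ((q x : ℝ) : ℂ)) = 0 := by
      rw [← him k]
      refine integral_congr_ae (Filter.Eventually.of_forall fun x => ?_)
      simp only [RCLike.im_to_complex, Complex.mul_im, Complex.ofReal_re, Complex.ofReal_im]
      ring
    rw [e1, e2]
    simp
  have h3 : h2.toLp _ = 0 := by
    have h4 : fourierBasis.repr (h2.toLp _) = 0 := by
      ext i
      rw [fourierBasis_repr, fourierCoeff_congr_ae h2.coeFn_toLp, fourierCoeff,
        AddCircle.integral_haarAddCircle]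
      simp only [smul_eq_mul]
      rw [h0 (-i), smul_zero]
      rfl
    exact (LinearIsometryEquiv.map_eq_zero_iff _).mp h4
  have h4 : (fun x => ((q x : ℝ) : ℂ)) =ᵐ[AddCircle.haarAddCircle] 0 := by
    rw [← MemLp.toLp_eq_toLp_iff h2 MemLp.zero, h3, MemLp.toLp_zero]
  have hac : (volume : Measure (AddCircle T)) ≪ AddCircle.haarAddCircle := by
    rw [AddCircle.volume_eq_smul_haarAddCircle]
    exact Measure.smul_absolutelyContinuous
  have h5 : ∀ᵐ x ∂(volume : Measure (AddCircle T)), ((q x : ℝ) : ℂ) = 0 := hac.ae_le h4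
  refine Lp.ext ?_
  filter_upwards [h5, Lp.coeFn_zero ℝ 2 (volume : Measure (AddCircle T))] with x h6 h7
  rw [h7]
  exact_mod_cast h6

theorem fourier_add_point (k : ℤ) (x y : AddCircle T) :
    fourier k (x + y) = fourier k x * fourier k y := by
  rw [fourier_apply, fourier_apply, fourier_apply, smul_add, AddCircle.toCircle_add,
    Circle.coe_mul]

end Circle

section Trig

variable (a b : ℝ)

/-- Frequencies. -/
noncomputable def om (k : ℤ) : ℝ := k * Real.pi / (b - a)

theorem memLp_cos (k : ℤ) :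
    MemLp (fun x => Real.cos (om a b k * (x - a))) 2 (volume.restrict (Ioo a b)) :=
  memLp_cont (by fun_prop)

theorem memLp_sin (k : ℤ) :
    MemLp (fun x => Real.sin (om a b k * (x - a))) 2 (volume.restrict (Ioo a b)) :=
  memLp_cont (by fun_prop)

/-- Cosines in `L²(a,b)`. -/
noncomputable def cosL (k : ℤ) : L2 a b := (memLp_cos a b k).toLp _

/-- Sines in `L²(a,b)`. -/
noncomputable def sinL (k : ℤ) : L2 a b := (memLp_sin a b k).toLp _

theorem cosL_coe (k : ℤ) : cosL a b k =ᵐ[volume.restrict (Ioo a b)]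
    fun x => Real.cos (om a b k * (x - a)) := (memLp_cos a b k).coeFn_toLp

theorem sinL_coe (k : ℤ) : sinL a b k =ᵐ[volume.restrict (Ioo a b)]
    fun x => Real.sin (om a b k * (x - a)) := (memLp_sin a b k).coeFn_toLp

theorem sin_mem_H10 (hab : a < b) (k : ℤ) : (sinL a b k, om a b k • cosL a b k) ∈ H10 a b := by
  have hd : ∀ x : ℝ, HasDerivAt (fun x => Real.sin (om a b k * (x - a)))
      (Real.cos (om a b k * (x - a)) * om a b k) x := by
    intro x
    have h1 : HasDerivAt (fun x : ℝ => om a b k * (x - a)) (om a b k) x := by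
      have := ((hasDerivAt_id x).sub_const a).const_mul (om a b k)
      simpa using this
    exact h1.sin
  refine mem_H10 hab (φ := fun x => Real.sin (om a b k * (x - a))) ?_ ?_ ?_ (sinL_coe a b k) ?_
  · exact Real.contDiff_sin.comp (contDiff_const.mul (contDiff_id.sub contDiff_const))
  · simp
  · have : om a b k * (b - a) = k * Real.pi := by
      unfold om
      field_simp [(sub_pos.mpr hab).ne']
    simp only [this]
    exact Real.sin_int_mul_pi k
  · filter_upwards [Lp.coeFn_smul (om a b k) (cosL a b k), cosL_coe a b k] with x h1 h2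
    rw [h1, Pi.smul_apply, h2, (hd x).deriv, smul_eq_mul, mul_comm]

theorem inner_cosL (hab : a < b) (k : ℤ) {z : L2 a b × L2 a b} (hz : z ∈ H10 a b) :
    inner ℝ z.2 (cosL a b k) = om a b k * inner ℝ z.1 (sinL a b k) := by
  have hd : ∀ x : ℝ, HasDerivAt (fun x => Real.cos (om a b k * (x - a)))
      (-Real.sin (om a b k * (x - a)) * om a b k) x := by
    intro x
    have h1 : HasDerivAt (fun x : ℝ => om a b k * (x - a)) (om a b k) x := by
      have := ((hasDerivAt_id x).sub_const a).const_mul (om a b k)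
      simpa using this
    exact h1.cos
  have h := H10_parts hab (ψ := fun x => Real.cos (om a b k * (x - a))) (y := cosL a b k)
    (y' := -(om a b k • sinL a b k)) ?_ (cosL_coe a b k) ?_ hz
  · rw [h, inner_neg_right, real_inner_smul_right]
    ring
  · exact Real.contDiff_cos.comp (contDiff_const.mul (contDiff_id.sub contDiff_const))
  · filter_upwards [Lp.coeFn_neg (om a b k • sinL a b k),
      Lp.coeFn_smul (om a b k) (sinL a b k), sinL_coe a b k] with x h0 h1 h2
    rw [h0, Pi.neg_apply, h1, Pi.smul_apply, h2, (hd x).deriv, smul_eq_mul]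
    ring

variable [hT : Fact (0 < len a b)]

theorem fourier_re_im (k : ℤ) (x : ℝ) :
    (fourier k (x : AddCircle (len a b))).re = Real.cos (om a b k * x) ∧
    (fourier k (x : AddCircle (len a b))).im = Real.sin (om a b k * x) := by
  have hab := ab_lt (a := a) (b := b)
  have hne : b - a ≠ 0 := (sub_pos.mpr hab).ne'
  have h1 : fourier k (x : AddCircle (len a b)) = Complex.exp (((om a b k * x : ℝ) : ℂ) *
      Complex.I) := by
    rw [fourier_coe_apply]
    congr 1
    unfold om len
    have : ((b : ℂ) - (a : ℂ)) ≠ 0 := by exact_mod_cast hne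
    push_cast
    field_simp
  rw [h1]
  exact ⟨Complex.exp_ofReal_mul_I_re _, Complex.exp_ofReal_mul_I_im _⟩

theorem exists_rep (ξ : AddCircle (len a b)) :
    ∃ x : ℝ, -(b - a) < x ∧ x ≤ b - a ∧ (x : AddCircle (len a b)) = ξ := by
  have h : ξ ∈ (univ : Set (AddCircle (len a b))) := mem_univ _
  rw [← AddCircle.coe_image_Ioc_eq (len a b) (-(b - a))] at h
  obtain ⟨x, hx, rfl⟩ := h
  refine ⟨x, hx.1, ?_, rfl⟩
  have := hx.2
  unfold len at this
  linarith

theorem cos_fold (k : ℤ) (ξ : AddCircle (len a b)) :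
    Real.cos (om a b k * (fold a b ξ - a)) = (fourier k ξ).re := by
  obtain ⟨x, h1, h2, rfl⟩ := exists_rep a b ξ
  rw [fold_coe (abs_le.mpr ⟨h1.le, h2⟩), (fourier_re_im a b k x).1]
  have e : om a b k * (a + |x| - a) = om a b k * |x| := by ring
  rw [e]
  rcases abs_cases x with ⟨h, _⟩ | ⟨h, _⟩
  · rw [h]
  · rw [h, mul_neg, Real.cos_neg]

theorem sin_fold (k : ℤ) (ξ : AddCircle (len a b)) :
    sgn a b ξ * Real.sin (om a b k * (fold a b ξ - a)) = (fourier k ξ).im := by
  obtain ⟨x, h1, h2, rfl⟩ := exists_rep a b ξ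
  rw [fold_coe (abs_le.mpr ⟨h1.le, h2⟩), (fourier_re_im a b k x).2]
  have e : om a b k * (a + |x| - a) = om a b k * |x| := by ring
  rw [e]
  rcases lt_or_ge 0 x with h | h
  · rw [sgn_coe_pos h h2, abs_of_pos h, one_mul]
  · rw [sgn_coe_nonpos h h1, abs_of_nonpos h, mul_neg, Real.sin_neg]
    ring

theorem evx_cosL (k : ℤ) : evx (cosL a b k) =ᵐ[volume] fun ξ => (fourier k ξ).re := by
  filter_upwards [evx_coe (cosL a b k), ae_fold (cosL_coe a b k)] with ξ h1 h2
  rw [h1, h2, cos_fold]

theorem odx_sinL (k : ℤ) : odx (sinL a b k) =ᵐ[volume] fun ξ => (fourier k ξ).im := by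
  filter_upwards [odx_coe (sinL a b k), ae_fold (sinL_coe a b k)] with ξ h1 h2
  rw [h1, h2, sin_fold]

theorem tr_evx_cosL (k : ℤ) (t : ℝ) : tr (t : AddCircle (len a b)) (evx (cosL a b k)) =
    Real.cos (om a b k * t) • evx (cosL a b k) - Real.sin (om a b k * t) • odx (sinL a b k) := by
  refine Lp.ext ?_
  filter_upwards [tr_coe (t : AddCircle (len a b)) (evx (cosL a b k)), evx_cosL a b k,
    odx_sinL a b k, ae_add (evx_cosL a b k) (t : AddCircle (len a b)),
    Lp.coeFn_sub (Real.cos (om a b k * t) • evx (cosL a b k))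
      (Real.sin (om a b k * t) • odx (sinL a b k)),
    Lp.coeFn_smul (Real.cos (om a b k * t)) (evx (cosL a b k)),
    Lp.coeFn_smul (Real.sin (om a b k * t)) (odx (sinL a b k))] with ξ h1 h2 h3 h4 h5 h6 h7
  rw [h1, h4, h5, Pi.sub_apply, h6, h7, Pi.smul_apply, Pi.smul_apply, h2, h3, fourier_add_point,
    Complex.mul_re, (fourier_re_im a b k t).1, (fourier_re_im a b k t).2, smul_eq_mul, smul_eq_mul]
  ring

theorem tr_odx_sinL (k : ℤ) (t : ℝ) : tr (t : AddCircle (len a b)) (odx (sinL a b k)) =
    Real.sin (om a b k * t) • evx (cosL a b k) + Real.cos (om a b k * t) • odx (sinL a b k) := by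
  refine Lp.ext ?_
  filter_upwards [tr_coe (t : AddCircle (len a b)) (odx (sinL a b k)), evx_cosL a b k,
    odx_sinL a b k, ae_add (odx_sinL a b k) (t : AddCircle (len a b)),
    Lp.coeFn_add (Real.sin (om a b k * t) • evx (cosL a b k))
      (Real.cos (om a b k * t) • odx (sinL a b k)),
    Lp.coeFn_smul (Real.sin (om a b k * t)) (evx (cosL a b k)),
    Lp.coeFn_smul (Real.cos (om a b k * t)) (odx (sinL a b k))] with ξ h1 h2 h3 h4 h5 h6 h7
  rw [h1, h4, h5, Pi.add_apply, h6, h7, Pi.smul_apply, Pi.smul_apply, h2, h3, fourier_add_point,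
    Complex.mul_im, (fourier_re_im a b k t).1, (fourier_re_im a b k t).2, smul_eq_mul, smul_eq_mul]
  ring

/-- Totality of the trigonometric functions. -/
theorem eq_zero_of_inner (q : XT (len a b)) (h1 : ∀ k : ℤ, inner ℝ q (evx (cosL a b k)) = 0)
    (h2 : ∀ k : ℤ, inner ℝ q (odx (sinL a b k)) = 0) : q = 0 := by
  refine eq_zero_of_fourier q (fun k => ?_) fun k => ?_
  · rw [← h1 k, inner_eq_integral]
    refine integral_congr_ae ?_
    filter_upwards [evx_cosL a b k] with ξ h
    rw [h]
  · rw [← h2 k, inner_eq_integral]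
    refine integral_congr_ae ?_
    filter_upwards [odx_sinL a b k] with ξ h
    rw [h]

end Trig

end Pool.Agent.Lib_helper45
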