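import Pool.Agent.Lib_helper45.Tail

/-!
Asymptotic independence: weakly convergent sequences evaluated at `x` and at `s - x` become
independent after averaging in `s`.
-/

open MeasureTheory Set Filter Topology
open scoped NNReal ENNReal

namespace Pool.Agent.Lib_helper45

set_option linter.unusedSectionVars false

variable {T : ℝ} [hT : Fact (0 < T)]

/-- Weak convergence of a sequence in `L²` of the circle. -/
def WeakTo (x : ℕ → XT T) (y : XT T) : Prop :=
  ∀ z : XT T, Tendsto (fun n => inner ℝ (x n) z) atTop (𝓝 (inner ℝ y z))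

/-- The kernel function `ξ ↦ ⟪tr ξ κ, ψ⟫`. -/
noncomputable def ker (κ ψ : XT T) (ξ : AddCircle T) : ℝ := inner ℝ (tr ξ κ) ψ

theorem ker_continuous (κ ψ : XT T) : Continuous (ker κ ψ) :=
  (continuous_tr_apply continuous_id continuous_const).inner continuous_const

theorem ker_bound (κ ψ : XT T) (ξ : AddCircle T) : |ker κ ψ ξ| ≤ ‖κ‖ * ‖ψ‖ := by
  refine (abs_real_inner_le_norm _ _).trans ?_
  rw [norm_tr]

theorem ker_memLp (κ ψ : XT T) : MemLp (ker κ ψ) 2 (volume : Measure (AddCircle T)) := by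
  refine MemLp.of_bound (ker_continuous κ ψ).aestronglyMeasurable (‖κ‖ * ‖ψ‖) ?_
  exact Filter.Eventually.of_forall fun ξ => ker_bound κ ψ ξ

/-- The kernel function as an element of `L²`. -/
noncomputable def Ker (κ ψ : XT T) : XT T := (ker_memLp κ ψ).toLp _

theorem Ker_coe (κ ψ : XT T) : Ker κ ψ =ᵐ[volume] ker κ ψ := (ker_memLp κ ψ).coeFn_toLp

theorem ker_eq_integral (κ ψ : XT T) (ξ : AddCircle T) :
    ker κ ψ ξ = ∫ s, κ s * ψ (s - ξ) := by
  rw [ker, inner_eq_integral]
  rw [← integral_add_right_eq_self (fun s => κ s * ψ (s - ξ)) ξ]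
  refine integral_congr_ae ?_
  filter_upwards [tr_coe ξ κ] with x h1
  rw [h1, add_sub_cancel_right]

/-- Fubini identity for the averaged reflected pairing. -/
theorem integral_pair (κ a ψ : XT T) (hψ : ∀ᵐ x ∂(volume : Measure (AddCircle T)), |ψ x| ≤ 1) :
    ∫ s : AddCircle T, κ s * inner ℝ a (rf s ψ) = inner ℝ a (Ker κ ψ) := by
  have h1 : ∀ s : AddCircle T, κ s * inner ℝ a (rf s ψ) = ∫ x, κ s * (a x * ψ (s - x)) := by
    intro s
    rw [inner_eq_integral, ← integral_const_mul]
    refine integral_congr_ae ?_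
    filter_upwards [rf_coe s ψ] with x h
    rw [h]
  have h2 : inner ℝ a (Ker κ ψ) = ∫ x : AddCircle T, ∫ s, κ s * (a x * ψ (s - x)) := by
    rw [inner_eq_integral]
    refine integral_congr_ae ?_
    filter_upwards [Ker_coe κ ψ] with x h
    rw [h, ker_eq_integral, ← integral_const_mul]
    refine integral_congr_ae (Filter.Eventually.of_forall fun s => ?_)
    simp only
    ring
  simp_rw [h1]
  rw [h2]
  refine integral_integral_swap ?_
  -- integrability on the product
  have hκ : Integrable (fun s => κ s) (volume : Measure (AddCircle T)) :=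
    (Lp.memLp κ).integrable (by norm_num)
  have ha : Integrable (fun s => a s) (volume : Measure (AddCircle T)) :=
    (Lp.memLp a).integrable (by norm_num)
  have hprod : Integrable (fun z : AddCircle T × AddCircle T => κ z.1 * a z.2)
      ((volume : Measure (AddCircle T)).prod volume) := hκ.mul_prod ha
  have hmeas : Measurable fun z : AddCircle T × AddCircle T => κ z.1 * (a z.2 * ψ (z.1 - z.2)) := by
    have m1 : Measurable fun x => κ x := (Lp.stronglyMeasurable κ).measurable
    have m2 : Measurable fun x => a x := (Lp.stronglyMeasurable a).measurable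
    have m3 : Measurable fun x => ψ x := (Lp.stronglyMeasurable ψ).measurable
    exact (m1.comp measurable_fst).mul ((m2.comp measurable_snd).mul
      (m3.comp (measurable_fst.sub measurable_snd)))
  have hψ' : ∀ᵐ z : AddCircle T × AddCircle T ∂((volume : Measure (AddCircle T)).prod volume),
      |ψ (z.1 - z.2)| ≤ 1 := by
    have hq : Measure.QuasiMeasurePreserving (fun z : AddCircle T × AddCircle T => z.1 - z.2)
        ((volume : Measure (AddCircle T)).prod volume) volume :=
      quasiMeasurePreserving_sub volume volume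
    exact hq.ae hψ
  refine hprod.mono hmeas.aestronglyMeasurable ?_
  filter_upwards [hψ'] with z hz
  simp only [Function.uncurry]
  rw [← mul_assoc, norm_mul, Real.norm_eq_abs (ψ _)]
  calc ‖κ z.1 * a z.2‖ * |ψ (z.1 - z.2)| ≤ ‖κ z.1 * a z.2‖ * 1 := by gcongr
    _ = ‖κ z.1 * a z.2‖ := mul_one _

/-- Complete continuity of the averaging operator. -/
theorem Ker_tendsto (κ : XT T) {ψ : ℕ → XT T} {ψ' : XT T} {C : ℝ} (hC : ∀ n, ‖ψ n‖ ≤ C)
    (hψ : WeakTo ψ ψ') : Tendsto (fun n => ‖Ker κ (ψ n) - Ker κ ψ'‖) atTop (𝓝 0) := by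
  have hC0 : 0 ≤ C := (norm_nonneg _).trans (hC 0)
  have h1 : Tendsto (fun n => ∫ ξ : AddCircle T, (ker κ (ψ n) ξ - ker κ ψ' ξ) ^ 2) atTop
      (𝓝 (∫ _ : AddCircle T, (0 : ℝ))) := by
    refine tendsto_integral_of_dominated_convergence
      (fun _ => (‖κ‖ * C + ‖κ‖ * ‖ψ'‖) ^ 2) ?_ (integrable_const _) ?_ ?_
    · intro n
      exact (((ker_continuous κ (ψ n)).sub (ker_continuous κ ψ')).pow 2).aestronglyMeasurable
    · intro n
      refine Filter.Eventually.of_forall fun ξ => ?_
      rw [Real.norm_eq_abs, abs_of_nonneg (sq_nonneg _)]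
      refine sq_le_sq' ?_ ?_
      · have a1 := ker_bound κ (ψ n) ξ
        have a2 := ker_bound κ ψ' ξ
        have a3 : ‖κ‖ * ‖ψ n‖ ≤ ‖κ‖ * C := by gcongr; exact hC n
        have := abs_le.mp a1
        have := abs_le.mp a2
        linarith
      · have a1 := ker_bound κ (ψ n) ξ
        have a2 := ker_bound κ ψ' ξ
        have a3 : ‖κ‖ * ‖ψ n‖ ≤ ‖κ‖ * C := by gcongr; exact hC n
        have := abs_le.mp a1
        have := abs_le.mp a2
        linarith
    · refine Filter.Eventually.of_forall fun ξ => ?_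
      have h2 : Tendsto (fun n => ker κ (ψ n) ξ) atTop (𝓝 (ker κ ψ' ξ)) := by
        have := hψ (tr ξ κ)
        simp only [ker]
        simpa only [real_inner_comm] using this
      have h3 := (h2.sub_const (ker κ ψ' ξ)).pow 2
      simpa using h3
  rw [integral_zero] at h1
  have h2 : ∀ n, ‖Ker κ (ψ n) - Ker κ ψ'‖ ^ 2 = ∫ ξ : AddCircle T, (ker κ (ψ n) ξ - ker κ ψ' ξ) ^ 2 := by
    intro n
    rw [norm_sq_eq_integral]
    refine integral_congr_ae ?_
    filter_upwards [Lp.coeFn_sub (Ker κ (ψ n)) (Ker κ ψ'), Ker_coe κ (ψ n), Ker_coe κ ψ'] with x a b c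
    rw [a, Pi.sub_apply, b, c, sq]
  have h3 : Tendsto (fun n => ‖Ker κ (ψ n) - Ker κ ψ'‖ ^ 2) atTop (𝓝 0) := by
    simpa only [h2] using h1
  have h4 := (Real.continuous_sqrt.tendsto 0).comp h3
  rw [Real.sqrt_zero] at h4
  refine h4.congr fun n => ?_
  simp only [Function.comp_apply]
  exact Real.sqrt_sq (norm_nonneg _)

/-- Asymptotic independence after averaging. -/
theorem pair_tendsto (κ : XT T) {a ψ : ℕ → XT T} {a' ψ' : XT T} {A C : ℝ}
    (hA : ∀ n, ‖a n‖ ≤ A) (ha : WeakTo a a') (hC : ∀ n, ‖ψ n‖ ≤ C) (hψ : WeakTo ψ ψ')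
    (hψ1 : ∀ n, ∀ᵐ x ∂(volume : Measure (AddCircle T)), |ψ n x| ≤ 1)
    (hψ1' : ∀ᵐ x ∂(volume : Measure (AddCircle T)), |ψ' x| ≤ 1) :
    Tendsto (fun n => ∫ s : AddCircle T, κ s * inner ℝ (a n) (rf s (ψ n))) atTop
      (𝓝 (∫ s : AddCircle T, κ s * inner ℝ a' (rf s ψ'))) := by
  simp_rw [fun n => integral_pair κ (a n) (ψ n) (hψ1 n)]
  rw [integral_pair κ a' ψ' hψ1']
  have h1 : ∀ n, inner ℝ (a n) (Ker κ (ψ n)) =
      inner ℝ (a n) (Ker κ (ψ n) - Ker κ ψ') + inner ℝ (a n) (Ker κ ψ') := by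
    intro n; rw [inner_sub_right]; ring
  simp_rw [h1]
  have h2 : Tendsto (fun n => inner ℝ (a n) (Ker κ (ψ n) - Ker κ ψ')) atTop (𝓝 0) := by
    rw [tendsto_zero_iff_abs_tendsto_zero]
    have h3 : Tendsto (fun n => A * ‖Ker κ (ψ n) - Ker κ ψ'‖) atTop (𝓝 (A * 0)) :=
      (Ker_tendsto κ hC hψ).const_mul A
    rw [mul_zero] at h3
    refine squeeze_zero (fun n => abs_nonneg _) (fun n => ?_) h3
    refine (abs_real_inner_le_norm _ _).trans ?_
    gcongr
    exact hA n
  have h4 := h2.add (ha (Ker κ ψ'))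
  rwa [zero_add] at h4

end Pool.Agent.Lib_helper45
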