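import Mathlib

/-!
Extraction of weakly convergent subsequences, simultaneously for countably many bounded
sequences of a separable Hilbert space.
-/

open MeasureTheory Set Filter Topology
open scoped NNReal ENNReal

namespace Pool.Agent.Lib_helper45

theorem exists_weak_subseq {H : Type*} [NormedAddCommGroup H] [InnerProductSpace ℝ H]
    [CompleteSpace H] [TopologicalSpace.SeparableSpace H] {ι : Type*} [Countable ι]
    (x : ι → ℕ → H) (C : ℝ) (hC : ∀ i n, ‖x i n‖ ≤ C) :
    ∃ φ : ℕ → ℕ, StrictMono φ ∧ ∃ y : ι → H, ∀ i z,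
      Tendsto (fun n => inner ℝ (x i (φ n)) z) atTop (𝓝 (inner ℝ (y i) z)) := by
  classical
  set K : Set (WeakDual ℝ H) := WeakDual.toStrongDual ⁻¹' Metric.closedBall 0 C with hK
  have hKc : IsCompact K := WeakDual.isCompact_closedBall (0 : StrongDual ℝ H) C
  have : CompactSpace K := isCompact_iff_compactSpace.mp hKc
  have : TopologicalSpace.MetrizableSpace K := WeakDual.metrizable_of_isCompact ℝ H K hKc
  let _ : MetricSpace K := TopologicalSpace.metrizableSpaceMetric K
  have hmem : ∀ i n, StrongDual.toWeakDual (InnerProductSpace.toDual ℝ H (x i n)) ∈ K := by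
    intro i n
    change InnerProductSpace.toDual ℝ H (x i n) ∈ Metric.closedBall 0 C
    rw [mem_closedBall_zero_iff, LinearIsometryEquiv.norm_map]
    exact hC i n
  set s : ℕ → (ι → K) := fun n i =>
    ⟨StrongDual.toWeakDual (InnerProductSpace.toDual ℝ H (x i n)), hmem i n⟩ with hs
  obtain ⟨a, φ, hφ, ha⟩ := CompactSpace.tendsto_subseq s
  refine ⟨φ, hφ, fun i => (InnerProductSpace.toDual ℝ H).symm
    (WeakDual.toStrongDual (a i : WeakDual ℝ H)), fun i z => ?_⟩
  have h1 : Tendsto (fun n => (s (φ n) i : WeakDual ℝ H)) atTop (𝓝 (a i : WeakDual ℝ H)) :=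
    (continuous_subtype_val.tendsto _).comp ((continuous_apply i).tendsto _ |>.comp ha)
  have h2 := ((WeakDual.eval_continuous z).tendsto _).comp h1
  have h3 : inner ℝ ((InnerProductSpace.toDual ℝ H).symm
      (WeakDual.toStrongDual (a i : WeakDual ℝ H))) z = (a i : WeakDual ℝ H) z := by
    rw [InnerProductSpace.toDual_symm_apply]
    rfl
  rw [h3]
  exact h2

end Pool.Agent.Lib_helper45
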