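import Pool.Agent.Lib_helper45.Arc
import Pool.Agent.Lib_helper45.WeakSeq

/-!
Level set indicators, their weak limits, and products with bounded functions.
-/

open MeasureTheory Set Filter Topology
open scoped NNReal ENNReal

namespace Pool.Agent.Lib_helper45

set_option linter.unusedSectionVars false

variable {T : ℝ} [hT : Fact (0 < T)]

/-- Constant functions. -/
noncomputable def cst (c : ℝ) : XT T := Lp.const 2 (volume : Measure (AddCircle T)) c

theorem cst_coe (c : ℝ) : (cst c : XT T) =ᵐ[volume] fun _ => c := Lp.coeFn_const _ _ _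

/-- A bound for the norm of functions bounded by one. -/
noncomputable def CT (T : ℝ) [Fact (0 < T)] : ℝ := ‖(cst 1 : XT T)‖

theorem norm_le_CT {p : XT T} (hp : ∀ᵐ x ∂(volume : Measure (AddCircle T)), |p x| ≤ 1) :
    ‖p‖ ≤ CT T := by
  refine Lp.norm_le_norm_of_ae_le ?_
  filter_upwards [hp, cst_coe (T := T) 1] with x h1 h2
  rw [h2, Real.norm_eq_abs, norm_one]
  exact h1

theorem CT_nonneg : 0 ≤ CT T := norm_nonneg _

/-- Indicator of the level set `{R > r}`. -/
noncomputable def lev (r : ℝ) (R : XT T) : XT T :=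
  indicatorConstLp 2 (s := {x | r < R x})
    (measurableSet_lt measurable_const (Lp.stronglyMeasurable R).measurable)
    (measure_ne_top _ _) (1 : ℝ)

open Classical in
theorem lev_coe (r : ℝ) (R : XT T) :
    lev r R =ᵐ[volume] fun x => if r < R x then (1 : ℝ) else 0 := by
  have hm : MeasurableSet {x | r < R x} :=
    measurableSet_lt measurable_const (Lp.stronglyMeasurable R).measurable
  have h := indicatorConstLp_coeFn (p := 2) (hs := hm)
    (hμs := measure_ne_top (volume : Measure (AddCircle T)) {x | r < R x}) (c := (1 : ℝ))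
  filter_upwards [h] with x hx
  rw [lev, hx]
  by_cases h1 : r < R x
  · rw [indicator_of_mem (show x ∈ {x | r < R x} from h1), if_pos h1]
  · rw [indicator_of_notMem (show x ∉ {x | r < R x} from h1), if_neg h1]

theorem lev_abs_le (r : ℝ) (R : XT T) :
    ∀ᵐ x ∂(volume : Measure (AddCircle T)), |lev r R x| ≤ 1 := by
  filter_upwards [lev_coe r R] with x hx
  rw [hx]
  split_ifs <;> simp

theorem lev_nonneg (r : ℝ) (R : XT T) :
    ∀ᵐ x ∂(volume : Measure (AddCircle T)), 0 ≤ lev r R x := by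
  filter_upwards [lev_coe r R] with x hx
  rw [hx]
  split_ifs <;> simp

/-- Complementary indicator. -/
noncomputable def colev (r : ℝ) (R : XT T) : XT T := cst 1 - lev r R

open Classical in
theorem colev_coe (r : ℝ) (R : XT T) :
    colev r R =ᵐ[volume] fun x => if r < R x then (0 : ℝ) else 1 := by
  filter_upwards [Lp.coeFn_sub (cst 1) (lev r R), cst_coe (T := T) 1, lev_coe r R] with x h1 h2 h3
  rw [colev, h1, Pi.sub_apply, h2, h3]
  split_ifs <;> simp

theorem colev_abs_le (r : ℝ) (R : XT T) :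
    ∀ᵐ x ∂(volume : Measure (AddCircle T)), |colev r R x| ≤ 1 := by
  filter_upwards [colev_coe r R] with x hx
  rw [hx]
  split_ifs <;> simp

theorem colev_nonneg (r : ℝ) (R : XT T) :
    ∀ᵐ x ∂(volume : Measure (AddCircle T)), 0 ≤ colev r R x := by
  filter_upwards [colev_coe r R] with x hx
  rw [hx]
  split_ifs <;> simp

theorem WeakTo.nonneg {x : ℕ → XT T} {y : XT T} (h : WeakTo x y)
    (hx : ∀ n, ∀ᵐ ξ ∂(volume : Measure (AddCircle T)), 0 ≤ x n ξ) :
    ∀ᵐ ξ ∂(volume : Measure (AddCircle T)), 0 ≤ y ξ := by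
  set z : XT T := Lp.negPart y with hz
  have hzc : ∀ᵐ ξ ∂(volume : Measure (AddCircle T)), z ξ = - min (y ξ) 0 := Lp.coeFn_negPart y
  have h1 : 0 ≤ inner ℝ y z := by
    refine ge_of_tendsto' (h z) fun n => ?_
    rw [inner_eq_integral]
    refine integral_nonneg_of_ae ?_
    filter_upwards [hx n, hzc] with ξ a b
    rw [b]
    exact mul_nonneg a (by have := min_le_right (y ξ) 0; linarith)
  have h2 : inner ℝ y z = - ‖z‖ ^ 2 := by
    rw [inner_eq_integral, norm_sq_eq_integral, ← integral_neg]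
    refine integral_congr_ae ?_
    filter_upwards [hzc] with ξ a
    rw [a]
    rcases le_total (y ξ) 0 with hy | hy
    · rw [min_eq_left hy]; ring
    · rw [min_eq_right hy]; ring
  have h3 : ‖z‖ ^ 2 = 0 := le_antisymm (by linarith) (sq_nonneg _)
  have h4 : z = 0 := norm_eq_zero.mp (pow_eq_zero_iff two_ne_zero |>.mp h3)
  have h5 := Lp.coeFn_zero ℝ 2 (volume : Measure (AddCircle T))
  filter_upwards [hzc, h5] with ξ a b
  rw [h4, b, Pi.zero_apply] at a
  have : min (y ξ) 0 = 0 := by linarith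
  exact min_eq_right_iff.mp this

theorem WeakTo.const_sub {x : ℕ → XT T} {y : XT T} (h : WeakTo x y) (c : XT T) :
    WeakTo (fun n => c - x n) (c - y) := by
  intro z
  simp only [inner_sub_left]
  exact (h z).const_sub _

theorem WeakTo.abs_le {x : ℕ → XT T} {y : XT T} (h : WeakTo x y)
    (hx : ∀ n, ∀ᵐ ξ ∂(volume : Measure (AddCircle T)), 0 ≤ x n ξ)
    (hx1 : ∀ n, ∀ᵐ ξ ∂(volume : Measure (AddCircle T)), x n ξ ≤ 1) :
    ∀ᵐ ξ ∂(volume : Measure (AddCircle T)), 0 ≤ y ξ ∧ y ξ ≤ 1 := by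
  have h1 := h.nonneg hx
  have h2 := (h.const_sub (cst 1)).nonneg (fun n => by
    filter_upwards [Lp.coeFn_sub (cst 1) (x n), cst_coe (T := T) 1, hx1 n] with ξ a b c
    rw [a, Pi.sub_apply, b]; linarith)
  filter_upwards [h1, h2, Lp.coeFn_sub (cst 1) y, cst_coe (T := T) 1] with ξ a b c d
  rw [c, Pi.sub_apply, d] at b
  exact ⟨a, by linarith⟩

open Classical in
/-- Pointwise product, when it is in `L²`. -/
noncomputable def pm (θ φ : XT T) : XT T :=
  if h : MemLp (fun x => θ x * φ x) 2 (volume : Measure (AddCircle T)) then h.toLp _ else 0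

theorem pm_memLp {θ φ : XT T} {C : ℝ} (hC : ∀ᵐ x ∂(volume : Measure (AddCircle T)), |θ x| ≤ C) :
    MemLp (fun x => θ x * φ x) 2 (volume : Measure (AddCircle T)) := by
  have hφ : MemLp (fun x => φ x) 2 (volume : Measure (AddCircle T)) := Lp.memLp φ
  have h1 : MemLp (fun x => C * φ x) 2 (volume : Measure (AddCircle T)) := hφ.const_mul C
  refine h1.mono ((Lp.aestronglyMeasurable θ).mul (Lp.aestronglyMeasurable φ)) ?_
  filter_upwards [hC] with x hx
  rw [norm_mul, norm_mul, Real.norm_eq_abs (θ x), Real.norm_eq_abs C]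
  have : C ≤ |C| := le_abs_self C
  exact mul_le_mul_of_nonneg_right (hx.trans this) (norm_nonneg _)

theorem pm_coe {θ φ : XT T} {C : ℝ} (hC : ∀ᵐ x ∂(volume : Measure (AddCircle T)), |θ x| ≤ C) :
    pm θ φ =ᵐ[volume] fun x => θ x * φ x := by
  rw [pm, dif_pos (pm_memLp hC)]
  exact (pm_memLp hC).coeFn_toLp

theorem pm_norm_le {θ φ : XT T} {C : ℝ} (hC : ∀ᵐ x ∂(volume : Measure (AddCircle T)), |θ x| ≤ C)
    (hφ : ∀ᵐ x ∂(volume : Measure (AddCircle T)), |φ x| ≤ 1) : ‖pm θ φ‖ ≤ ‖θ‖ := by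
  refine Lp.norm_le_norm_of_ae_le ?_
  filter_upwards [pm_coe (φ := φ) hC, hφ] with x h1 h2
  rw [h1, norm_mul, Real.norm_eq_abs (φ x)]
  calc ‖θ x‖ * |φ x| ≤ ‖θ x‖ * 1 := by gcongr
    _ = ‖θ x‖ := mul_one _

theorem pm_inner {θ φ z : XT T} {C : ℝ}
    (hC : ∀ᵐ x ∂(volume : Measure (AddCircle T)), |θ x| ≤ C) :
    inner ℝ (pm θ φ) z = inner ℝ φ (pm θ z) := by
  rw [inner_eq_integral, inner_eq_integral]
  refine integral_congr_ae ?_
  filter_upwards [pm_coe (φ := φ) hC, pm_coe (φ := z) hC] with x h1 h2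
  rw [h1, h2]; ring

theorem pm_weak {θ : XT T} {φ : ℕ → XT T} {φ' : XT T} {C : ℝ}
    (hC : ∀ᵐ x ∂(volume : Measure (AddCircle T)), |θ x| ≤ C) (h : WeakTo φ φ') :
    WeakTo (fun n => pm θ (φ n)) (pm θ φ') := by
  intro z
  simp only [pm_inner hC]
  exact h _

/-- Lipschitz dependence of the product on the bounded factor. -/
theorem pm_sub_norm_le {θ θ' φ : XT T} {C : ℝ}
    (hC : ∀ᵐ x ∂(volume : Measure (AddCircle T)), |θ x| ≤ C)
    (hC' : ∀ᵐ x ∂(volume : Measure (AddCircle T)), |θ' x| ≤ C)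
    (hφ : ∀ᵐ x ∂(volume : Measure (AddCircle T)), |φ x| ≤ 1) :
    ‖pm θ φ - pm θ' φ‖ ≤ ‖θ - θ'‖ := by
  refine Lp.norm_le_norm_of_ae_le ?_
  filter_upwards [pm_coe (φ := φ) hC, pm_coe (φ := φ) hC', hφ, Lp.coeFn_sub (pm θ φ) (pm θ' φ),
    Lp.coeFn_sub θ θ'] with x h1 h2 h3 h4 h5
  rw [h4, h5, Pi.sub_apply, Pi.sub_apply, h1, h2, ← sub_mul, norm_mul, Real.norm_eq_abs (φ x)]
  calc ‖θ x - θ' x‖ * |φ x| ≤ ‖θ x - θ' x‖ * 1 := by gcongr
    _ = ‖θ x - θ' x‖ := mul_one _

end Pool.Agent.Lib_helper45
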