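import Pool.Agent.Lib_helper45.CircleSpace

/-!
The superposition operator `v ↦ ς g(ς v)` on `L²` of the circle and its monotonicity properties.
-/

open MeasureTheory Set Filter Topology
open scoped NNReal ENNReal

namespace Pool.Agent.Lib_helper45

set_option linter.unusedSectionVars false

variable {T : ℝ} [hT : Fact (0 < T)]

/-- A measurable odd sign function on the circle. -/
structure IsSign (sg : AddCircle T → ℝ) : Prop where
  meas : Measurable sg
  val : ∀ x, sg x = 1 ∨ sg x = -1
  odd : ∀ᵐ x ∂(volume : Measure (AddCircle T)), sg (-x) = - sg x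

/-- Data for the damping: an odd sign function and a nondecreasing Lipschitz function. -/
structure IsDamping (sg : AddCircle T → ℝ) (g : ℝ → ℝ) (L : ℝ≥0) : Prop where
  sign : IsSign sg
  mono : Monotone g
  lip : LipschitzWith L g

section

variable {sg : AddCircle T → ℝ} {g : ℝ → ℝ} {L : ℝ≥0}

theorem IsDamping.abs_sub_le (h : IsDamping sg g L) (a b : ℝ) : |g a - g b| ≤ L * |a - b| := by
  have := h.lip.dist_le_mul a b
  rwa [Real.dist_eq, Real.dist_eq] at this

theorem memLp_affine_abs (c L : ℝ) (v : XT T) :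
    MemLp (fun x => c + L * |v x|) 2 (volume : Measure (AddCircle T)) := by
  have hv : MemLp (fun x => v x) 2 (volume : Measure (AddCircle T)) := Lp.memLp v
  have h1 : MemLp (fun x => L * |v x|) 2 (volume : Measure (AddCircle T)) := hv.abs.const_mul L
  have h2 : MemLp (fun _ : AddCircle T => c) 2 (volume : Measure (AddCircle T)) := memLp_const c
  exact h2.add h1

theorem IsDamping.memLp (h : IsDamping sg g L) (v : XT T) :
    MemLp (fun x => sg x * g (sg x * v x)) 2 (volume : Measure (AddCircle T)) := by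
  have hvm : Measurable (fun x => v x) := (Lp.stronglyMeasurable v).measurable
  have hm : Measurable fun x => sg x * g (sg x * v x) :=
    h.sign.meas.mul (h.lip.continuous.measurable.comp (h.sign.meas.mul hvm))
  have hb := memLp_affine_abs |g 0| L v
  refine hb.mono hm.aestronglyMeasurable (Filter.Eventually.of_forall fun x => ?_)
  have h1 : |sg x| = 1 := by
    rcases h.sign.val x with h1 | h1 <;> simp [h1]
  have h2 : |g (sg x * v x) - g 0| ≤ L * |sg x * v x - 0| := h.abs_sub_le _ _
  rw [sub_zero, abs_mul, h1, one_mul] at h2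
  have h3 : |g (sg x * v x)| ≤ |g 0| + L * |v x| := by
    have := abs_sub_abs_le_abs_sub (g (sg x * v x)) (g 0)
    linarith
  rw [Real.norm_eq_abs, Real.norm_eq_abs, abs_mul, h1, one_mul]
  exact h3.trans (le_abs_self _)

open Classical in
/-- The superposition operator `v ↦ ς g(ς v)` on `L²` of the circle. -/
noncomputable def nem (sg : AddCircle T → ℝ) (g : ℝ → ℝ) (v : XT T) : XT T :=
  if h : MemLp (fun x => sg x * g (sg x * v x)) 2 (volume : Measure (AddCircle T)) then h.toLp _
  else 0

theorem IsDamping.nem_coe (h : IsDamping sg g L) (v : XT T) :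
    nem sg g v =ᵐ[volume] fun x => sg x * g (sg x * v x) := by
  rw [nem, dif_pos (h.memLp v)]
  exact (h.memLp v).coeFn_toLp

/-- Pointwise form of the damping. -/
theorem IsDamping.pointwise_lip (h : IsDamping sg g L) (x : AddCircle T) (a b : ℝ) :
    |sg x * g (sg x * a) - sg x * g (sg x * b)| ≤ L * |a - b| := by
  have h1 : |sg x| = 1 := by
    rcases h.sign.val x with h1 | h1 <;> simp [h1]
  have h2 := h.abs_sub_le (sg x * a) (sg x * b)
  rw [← mul_sub, abs_mul, h1, one_mul] at h2
  rw [← mul_sub, abs_mul, h1, one_mul]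
  exact h2

theorem IsDamping.pointwise_mono (h : IsDamping sg g L) (x : AddCircle T) {a b : ℝ} (hab : a ≤ b) :
    sg x * g (sg x * a) ≤ sg x * g (sg x * b) := by
  rcases h.sign.val x with h1 | h1
  · simp only [h1, one_mul]; exact h.mono hab
  · simp only [h1, neg_mul, one_mul, neg_le_neg_iff]; exact h.mono (neg_le_neg hab)

theorem IsDamping.nem_lip (h : IsDamping sg g L) (v w : XT T) :
    ‖nem sg g v - nem sg g w‖ ≤ L * ‖v - w‖ := by
  refine Lp.norm_le_mul_norm_of_ae_le_mul ?_
  filter_upwards [h.nem_coe v, h.nem_coe w, Lp.coeFn_sub (nem sg g v) (nem sg g w),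
    Lp.coeFn_sub v w] with x h1 h2 h3 h4
  rw [h3, h4, Pi.sub_apply, Pi.sub_apply, h1, h2]
  exact h.pointwise_lip x _ _

theorem IsDamping.nem_continuous (h : IsDamping sg g L) : Continuous (nem sg g) := by
  refine LipschitzWith.continuous (K := L) (LipschitzWith.of_dist_le_mul fun v w => ?_)
  rw [dist_eq_norm, dist_eq_norm]
  exact h.nem_lip v w

/-- Odd part of an `L²` function on the circle. -/
noncomputable def od (p : XT T) : XT T := (1 / 2 : ℝ) • (p - rf 0 p)

theorem od_coe (p : XT T) : od p =ᵐ[volume] fun x => (p x - p (-x)) / 2 := by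
  filter_upwards [Lp.coeFn_smul (1 / 2 : ℝ) (p - rf 0 p), Lp.coeFn_sub p (rf 0 p),
    rf_coe (0 : AddCircle T) p] with x h1 h2 h3
  rw [od, h1, Pi.smul_apply, h2, Pi.sub_apply, h3, zero_sub, smul_eq_mul]
  ring

theorem od_sub (p q : XT T) : od (p - q) = od p - od q := by
  rw [od, od, od, map_sub, ← smul_sub]
  congr 1
  abel

theorem od_add (p q : XT T) : od (p + q) = od p + od q := by
  rw [od, od, od, map_add, ← smul_add]
  congr 1
  abel

theorem norm_od_le (p : XT T) : ‖od p‖ ≤ ‖p‖ := by
  rw [od, norm_smul]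
  have h1 := norm_sub_le p (rf 0 p)
  rw [norm_rf] at h1
  have h2 : ‖(1 / 2 : ℝ)‖ = 1 / 2 := by norm_num
  rw [h2]
  linarith

/-- The damping operator on `L²` of the circle. -/
noncomputable def dmp (sg : AddCircle T → ℝ) (g : ℝ → ℝ) (p : XT T) : XT T := nem sg g (od p)

theorem IsDamping.dmp_lip (h : IsDamping sg g L) (p q : XT T) :
    ‖dmp sg g p - dmp sg g q‖ ≤ L * ‖p - q‖ := by
  refine (h.nem_lip _ _).trans ?_
  rw [← od_sub]
  exact mul_le_mul_of_nonneg_left (norm_od_le _) L.coe_nonneg

theorem IsDamping.dmp_continuous (h : IsDamping sg g L) : Continuous (dmp sg g) := by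
  refine LipschitzWith.continuous (K := L) (LipschitzWith.of_dist_le_mul fun v w => ?_)
  rw [dist_eq_norm, dist_eq_norm]
  exact h.dmp_lip v w

/-- Almost everywhere description of the difference of two values of the damping operator. -/
theorem IsDamping.dmp_sub_coe (h : IsDamping sg g L) (p q : XT T) :
    ∀ᵐ x ∂(volume : Measure (AddCircle T)), (dmp sg g p - dmp sg g q) x =
      sg x * g (sg x * ((p x - p (-x)) / 2)) - sg x * g (sg x * ((q x - q (-x)) / 2)) := by
  filter_upwards [h.nem_coe (od p), h.nem_coe (od q), od_coe p, od_coe q,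
    Lp.coeFn_sub (dmp sg g p) (dmp sg g q)] with x h1 h2 h3 h4 h5
  rw [h5, Pi.sub_apply]
  rw [← h3, ← h4, ← h1, ← h2]
  rfl

/-- The difference of two values of the damping operator is odd. -/
theorem IsDamping.dmp_sub_odd (h : IsDamping sg g L) (p q : XT T) :
    ∀ᵐ x ∂(volume : Measure (AddCircle T)),
      (dmp sg g p - dmp sg g q) (-x) = - (dmp sg g p - dmp sg g q) x := by
  have h0 := ae_sub (h.dmp_sub_coe p q) 0
  filter_upwards [h0, h.dmp_sub_coe p q, h.sign.odd] with x h1 h2 h3
  rw [zero_sub] at h1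
  rw [h1, h2, h3, neg_neg]
  have e1 : -sg x * ((p (-x) - p x) / 2) = sg x * ((p x - p (-x)) / 2) := by ring
  have e2 : -sg x * ((q (-x) - q x) / 2) = sg x * ((q x - q (-x)) / 2) := by ring
  rw [e1, e2]
  ring

theorem IsDamping.dmp_sub_sign (h : IsDamping sg g L) (p q : XT T) :
    ∀ᵐ x ∂(volume : Measure (AddCircle T)),
      (0 ≤ (p - q) x - (p - q) (-x) → 0 ≤ (dmp sg g p - dmp sg g q) x) ∧
      ((p - q) x - (p - q) (-x) ≤ 0 → (dmp sg g p - dmp sg g q) x ≤ 0) := by
  have h0 := ae_sub (Lp.coeFn_sub p q) 0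
  filter_upwards [h0, Lp.coeFn_sub p q, h.dmp_sub_coe p q] with x h1 h2 h3
  rw [zero_sub, Pi.sub_apply] at h1
  rw [h1, h2, h3, Pi.sub_apply]
  refine ⟨fun h4 => ?_, fun h4 => ?_⟩
  · exact sub_nonneg.mpr (h.pointwise_mono x (by linarith))
  · exact sub_nonpos.mpr (h.pointwise_mono x (by linarith))

/-- Key monotonicity: pairing of the damping difference with a nondecreasing function of
the difference of states. -/
theorem IsDamping.integral_mono_nonneg (h : IsDamping sg g L) (p q : XT T) (φ : ℝ → ℝ)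
    (hφ : Monotone φ) (w : XT T) (hw : ∀ᵐ x ∂(volume : Measure (AddCircle T)), w x = φ ((p - q) x)) :
    0 ≤ inner ℝ (dmp sg g p - dmp sg g q) w := by
  set G := dmp sg g p - dmp sg g q with hG
  -- reflect
  have h1 : inner ℝ G w = inner ℝ (rf 0 G) (rf 0 w) := (inner_rf_rf 0 G w).symm
  have h2 : rf 0 G = -G := by
    refine Lp.ext ?_
    filter_upwards [rf_coe (0 : AddCircle T) G, h.dmp_sub_odd p q, Lp.coeFn_neg G] with x a b c
    rw [a, zero_sub, b, c]
    rfl
  have h3 : inner ℝ G w = (1 / 2 : ℝ) * inner ℝ G (w - rf 0 w) := by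
    rw [inner_sub_right]
    have h4 : inner ℝ G (rf 0 w) = - inner ℝ G w := by
      rw [h1, h2, inner_neg_left, neg_neg]
    rw [h4]; ring
  rw [h3]
  have h5 : 0 ≤ inner ℝ G (w - rf 0 w) := by
    rw [inner_eq_integral]
    refine integral_nonneg_of_ae ?_
    filter_upwards [Lp.coeFn_sub w (rf 0 w), rf_coe (0 : AddCircle T) w, hw, ae_sub hw 0,
      h.dmp_sub_sign p q] with x a1 a2 a3 a4 a5
    rw [zero_sub] at a4 a2
    rw [a1, Pi.sub_apply, a2, a3, a4]
    rcases le_total 0 ((p - q) x - (p - q) (-x)) with h6 | h6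
    · exact mul_nonneg (a5.1 h6) (sub_nonneg.mpr (hφ (by linarith)))
    · exact mul_nonneg_of_nonpos_of_nonpos (a5.2 h6) (sub_nonpos.mpr (hφ (by linarith)))
  positivity

/-- The dissipation controls the square of the damping difference. -/
theorem IsDamping.norm_sq_le_dissipation (h : IsDamping sg g L) (p q : XT T) :
    ‖dmp sg g p - dmp sg g q‖ ^ 2 ≤ L * inner ℝ (dmp sg g p - dmp sg g q) (p - q) := by
  set G := dmp sg g p - dmp sg g q with hG
  have h1 : inner ℝ G (p - q) = inner ℝ (rf 0 G) (rf 0 (p - q)) := (inner_rf_rf 0 G _).symm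
  have h2 : rf 0 G = -G := by
    refine Lp.ext ?_
    filter_upwards [rf_coe (0 : AddCircle T) G, h.dmp_sub_odd p q, Lp.coeFn_neg G] with x a b c
    rw [a, zero_sub, b, c]
    rfl
  have h3 : inner ℝ G (p - q) = inner ℝ G (od (p - q)) := by
    have h4 : inner ℝ G (rf 0 (p - q)) = - inner ℝ G (p - q) := by
      rw [h1, h2, inner_neg_left, neg_neg]
    rw [od, inner_smul_right, inner_sub_right G (p - q), h4]; ring
  rw [h3, norm_sq_eq_integral, inner_eq_integral, ← integral_const_mul]
  refine integral_mono_ae (integrable_mul G G) ((integrable_mul G (od (p - q))).const_mul _) ?_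
  filter_upwards [h.dmp_sub_coe p q, od_coe p, od_coe q,
    Lp.coeFn_sub (od p) (od q)] with x a1 a2 a3 a4
  rw [od_sub, a4, Pi.sub_apply, a2, a3, a1]
  set a := (p x - p (-x)) / 2
  set b := (q x - q (-x)) / 2
  have h5 := h.pointwise_lip x a b
  rcases le_total b a with hba | hba
  · have h6 := h.pointwise_mono x hba
    rw [abs_of_nonneg (by linarith), abs_of_nonneg (by linarith)] at h5
    nlinarith
  · have h6 := h.pointwise_mono x hba
    rw [abs_of_nonpos (by linarith), abs_of_nonpos (by linarith)] at h5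
    nlinarith

end

end Pool.Agent.Lib_helper45
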