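import Pool.Agent.Lib_helper45.Vanish

/-!
Precompactness of bounded orbits of the evolution on the circle.
-/

open MeasureTheory Set Filter Topology
open scoped NNReal ENNReal

namespace Pool.Agent.Lib_helper45

set_option linter.unusedSectionVars false

variable {T : ℝ} [hT : Fact (0 < T)] {sg : AddCircle T → ℝ} {g : ℝ → ℝ} {L : ℝ≥0}

/-- A finite rational grid of mesh smaller than `δ`. -/
theorem exists_grid (M : ℕ) {δ : ℝ} (hδ : 0 < δ) :
    ∃ G : Finset ℚ, (∀ r ∈ G, |(r : ℝ)| ≤ M) ∧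
      ∀ x y : ℝ, -(M : ℝ) ≤ x → y ≤ M → x + δ < y → ∃ r ∈ G, x < r ∧ (r : ℝ) < y := by
  classical
  obtain ⟨k, hk⟩ := exists_nat_one_div_lt hδ
  set K : ℚ := (k : ℚ) + 1 with hK
  have hKr : ((K : ℚ) : ℝ) = (k : ℝ) + 1 := by rw [hK]; push_cast; ring
  have hK0 : (0 : ℝ) < (K : ℝ) := by rw [hKr]; positivity
  refine ⟨(Finset.range (2 * M * (k + 1) + 1)).image fun i : ℕ => (-(M : ℚ) + i / K), ?_, ?_⟩
  · intro r hr
    rw [Finset.mem_image] at hr
    obtain ⟨i, hi, rfl⟩ := hr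
    rw [Finset.mem_range] at hi
    have h1 : (i : ℝ) ≤ 2 * M * (k + 1) := by
      have : i ≤ 2 * M * (k + 1) := by omega
      exact_mod_cast this
    push_cast
    rw [abs_le]
    have h2 : 0 ≤ (i : ℝ) / (K : ℝ) := by positivity
    have h3 : (i : ℝ) / (K : ℝ) ≤ 2 * M := by
      rw [div_le_iff₀ hK0, hKr]; exact h1
    constructor <;> linarith
  · intro x y hx hy hxy
    have hxM : 0 ≤ (x + M) * K := by
      apply mul_nonneg _ hK0.le; linarith
    set i := ⌊(x + M) * (K : ℝ)⌋₊ + 1 with hi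
    have h1 : (x + M) * K < i := by rw [hi]; push_cast; exact Nat.lt_floor_add_one _
    have h2 : (i : ℝ) ≤ (x + M) * K + 1 := by
      rw [hi]; push_cast
      have := Nat.floor_le hxM
      linarith
    have h3 : x < -(M : ℝ) + i / K := by
      have : x + M < i / K := by rw [lt_div_iff₀ hK0]; exact h1
      linarith
    have h4 : -(M : ℝ) + i / K < y := by
      have h5 : (i : ℝ) / K ≤ x + M + 1 / K := by
        rw [div_le_iff₀ hK0]
        have : (x + M + 1 / (K : ℝ)) * K = (x + M) * K + 1 := by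
          field_simp
        rw [this]; exact h2
      have h6 : 1 / (K : ℝ) < δ := by rw [hKr]; exact hk
      linarith
    refine ⟨-(M : ℚ) + i / K, ?_, ?_, ?_⟩
    · rw [Finset.mem_image]
      refine ⟨i, ?_, rfl⟩
      rw [Finset.mem_range]
      have h7 : (i : ℝ) / K < 2 * M := by linarith
      have h8 : (i : ℝ) < 2 * M * (k + 1) := by
        rw [div_lt_iff₀ hK0, hKr] at h7; exact h7
      have h9 : i < 2 * M * (k + 1) := by exact_mod_cast h8
      omega
    · push_cast; exact h3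
    · push_cast; exact h4

/-- Clipping between the envelopes. -/
noncomputable def clp (M : ℝ) (θ : ℚ → XT T) (R : XT T) (ξ : AddCircle T) : ℝ :=
  max (lo M θ ξ) (min (hi M θ ξ) (R ξ))

theorem clp_mem {M : ℝ} (hM : 0 ≤ M) (θ : ℚ → XT T) (R : XT T) (ξ : AddCircle T) :
    lo M θ ξ ≤ clp M θ R ξ ∧ clp M θ R ξ ≤ hi M θ ξ :=
  ⟨le_max_left _ _, max_le (lo_le_hi hM ξ) (min_le_left _ _)⟩

theorem clp_memLp {M : ℝ} (hM : 0 ≤ M) (θ : ℚ → XT T) (R : XT T) :
    MemLp (clp M θ R) 2 (volume : Measure (AddCircle T)) := by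
  have hR : Measurable fun x => R x := (Lp.stronglyMeasurable R).measurable
  have hm : Measurable (clp M θ R) :=
    lo_measurable.max (hi_measurable.min hR)
  refine MemLp.of_bound hm.aestronglyMeasurable M (Filter.Eventually.of_forall fun ξ => ?_)
  have h1 := clp_mem hM θ R ξ
  have h2 := le_lo (θ := θ) hM ξ
  have h3 := hi_le (θ := θ) hM ξ
  rw [Real.norm_eq_abs, abs_le]
  constructor <;> linarith

/-- Clipping between the envelopes, as an element of `L²`. -/
noncomputable def Clp (M : ℝ) (hM : 0 ≤ M) (θ : ℚ → XT T) (R : XT T) : XT T :=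
  (clp_memLp hM θ R).toLp _

theorem Clp_coe {M : ℝ} (hM : 0 ≤ M) (θ : ℚ → XT T) (R : XT T) :
    Clp M hM θ R =ᵐ[volume] clp M θ R := (clp_memLp hM θ R).coeFn_toLp

open Classical in
/-- Pointwise clipping error. -/
theorem clp_error {M : ℕ} {δ : ℝ} (hδ : 0 < δ) {G : Finset ℚ}
    (hG : ∀ r ∈ G, |(r : ℝ)| ≤ M)
    (hG' : ∀ x y : ℝ, -(M : ℝ) ≤ x → y ≤ M → x + δ < y → ∃ r ∈ G, x < r ∧ (r : ℝ) < y)
    (θ : ℚ → XT T) (R : XT T) (ξ : AddCircle T) :
    ((R ξ - tl M (R ξ)) - clp M θ R ξ) ^ 2 ≤ δ ^ 2 +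
      (2 * (M : ℝ)) ^ 2 * ((∑ r ∈ G, (if (r : ℝ) < R ξ then (1 : ℝ) else 0) *
        (if θ r ξ ≤ 0 then (1 : ℝ) else 0)) +
      ∑ r ∈ G, (if (r : ℝ) < R ξ then (0 : ℝ) else 1) * (if 1 ≤ θ r ξ then (1 : ℝ) else 0)) := by
  have hM : (0 : ℝ) ≤ M := Nat.cast_nonneg M
  set S1 := ∑ r ∈ G, (if (r : ℝ) < R ξ then (1 : ℝ) else 0) *
        (if θ r ξ ≤ 0 then (1 : ℝ) else 0) with hS1
  set S2 := ∑ r ∈ G, (if (r : ℝ) < R ξ then (0 : ℝ) else 1) *
        (if 1 ≤ θ r ξ then (1 : ℝ) else 0) with hS2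
  have hS1n : 0 ≤ S1 := Finset.sum_nonneg fun r _ => by split_ifs <;> simp
  have hS2n : 0 ≤ S2 := Finset.sum_nonneg fun r _ => by split_ifs <;> simp
  have h1 := neg_le_hi (θ := θ) hM ξ
  have h2 := hi_le (θ := θ) hM ξ
  have h3 := le_lo (θ := θ) hM ξ
  have h4 := lo_le_M (θ := θ) hM ξ
  have h5 := lo_le_hi (θ := θ) hM ξ
  set H := hi (M : ℝ) θ ξ with hH
  set l := lo (M : ℝ) θ ξ with hl
  set c := R ξ - tl M (R ξ) with hc
  have hcM : -(M : ℝ) ≤ c ∧ c ≤ M ∧ (c < M → R ξ ≤ c) ∧ (-(M : ℝ) < c → c ≤ R ξ) := by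
    rcases tl_cases hM (R ξ) with ⟨a, b⟩ | ⟨a, b⟩ | ⟨a, a', b⟩
    · refine ⟨?_, ?_, ?_, ?_⟩ <;> (rw [hc, b]) <;> intros <;> linarith
    · refine ⟨?_, ?_, ?_, ?_⟩ <;> (rw [hc, b]) <;> intros <;> linarith
    · refine ⟨?_, ?_, ?_, ?_⟩ <;> (rw [hc, b]) <;> intros <;> linarith
  obtain ⟨hc1, hc2, hc3, hc4⟩ := hcM
  have hclp : clp (M : ℝ) θ R ξ = max l (min H c) := by
    rw [clp, ← hH, ← hl]
    rcases tl_cases hM (R ξ) with ⟨a, b⟩ | ⟨a, b⟩ | ⟨a, a', b⟩
    · rw [min_eq_left (by linarith), hc, b, min_eq_left (by linarith)]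
    · rw [hc, b, min_eq_right (show R ξ ≤ H by linarith),
        min_eq_right (show R ξ - (R ξ + M) ≤ H by linarith),
        max_eq_left (show R ξ ≤ l by linarith),
        max_eq_left (show R ξ - (R ξ + M) ≤ l by linarith)]
    · rw [hc, b, sub_zero]
  rw [hclp]
  rcases lt_or_ge (H + δ) c with hA | hA
  · -- above the upper envelope
    obtain ⟨r, hrG, hr1, hr2⟩ := hG' H c h1 hc2 hA
    have hθ : θ r ξ ≤ 0 := by
      by_contra hcon
      push Not at hcon
      have := le_hi (θ := θ) hM hcon (hG r hrG)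
      linarith
    have hR : (r : ℝ) < R ξ := lt_of_lt_of_le hr2 (hc4 (by linarith))
    have hS : 1 ≤ S1 := by
      have : (if (r : ℝ) < R ξ then (1 : ℝ) else 0) * (if θ r ξ ≤ 0 then (1 : ℝ) else 0) ≤ S1 :=
        Finset.single_le_sum (f := fun r : ℚ => (if (r : ℝ) < R ξ then (1 : ℝ) else 0) *
          (if θ r ξ ≤ 0 then (1 : ℝ) else 0)) (fun r _ => by split_ifs <;> simp) hrG
      rw [if_pos hR, if_pos hθ, one_mul] at this
      exact this
    have hm1 : min H c = H := min_eq_left (by linarith)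
    rw [hm1, max_eq_right h5]
    have h6 : (c - H) ^ 2 ≤ (2 * (M : ℝ)) ^ 2 := by
      apply pow_le_pow_left₀ (by linarith) (by linarith)
    have h7 : (2 * (M : ℝ)) ^ 2 * 1 ≤ (2 * (M : ℝ)) ^ 2 * (S1 + S2) := by
      gcongr; linarith
    nlinarith [sq_nonneg δ]
  · rcases lt_or_ge (c + δ) l with hB | hB
    · -- below the lower envelope
      obtain ⟨r, hrG, hr1, hr2⟩ := hG' c l hc1 h4 hB
      have hθ : 1 ≤ θ r ξ := by
        by_contra hcon
        push Not at hcon
        have := lo_le (θ := θ) hM hcon (hG r hrG)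
        linarith
      have hR : ¬ (r : ℝ) < R ξ := by
        have := hc3 (by linarith)
        intro h; linarith
      have hS : 1 ≤ S2 := by
        have : (if (r : ℝ) < R ξ then (0 : ℝ) else 1) * (if 1 ≤ θ r ξ then (1 : ℝ) else 0) ≤ S2 :=
          Finset.single_le_sum (f := fun r : ℚ => (if (r : ℝ) < R ξ then (0 : ℝ) else 1) *
            (if 1 ≤ θ r ξ then (1 : ℝ) else 0)) (fun r _ => by split_ifs <;> simp) hrG
        rw [if_neg hR, if_pos hθ, one_mul] at this
        exact this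
      have hm1 : min H c = c := min_eq_right (by linarith)
      rw [hm1, max_eq_left (by linarith)]
      have h6 : (c - l) ^ 2 ≤ (2 * (M : ℝ)) ^ 2 := by
        rw [← neg_sub, neg_sq]
        apply pow_le_pow_left₀ (by linarith) (by linarith)
      have h7 : (2 * (M : ℝ)) ^ 2 * 1 ≤ (2 * (M : ℝ)) ^ 2 * (S1 + S2) := by
        gcongr; linarith
      nlinarith [sq_nonneg δ]
    · -- close to the box
      have h8 : |c - max l (min H c)| ≤ δ := by
        rw [abs_le]
        rcases le_total H c with h | h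
        · rw [min_eq_left h, max_eq_right h5]; constructor <;> linarith
        · rw [min_eq_right h]
          rcases le_total l c with h' | h'
          · rw [max_eq_right h']; constructor <;> linarith
          · rw [max_eq_left h']; constructor <;> linarith
      have h9 : (c - max l (min H c)) ^ 2 ≤ δ ^ 2 := by
        rw [← sq_abs (c - max l (min H c))]
        exact pow_le_pow_left₀ (abs_nonneg _) h8 2
      have h10 : 0 ≤ (2 * (M : ℝ)) ^ 2 * (S1 + S2) := by positivity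
      linarith

end Pool.Agent.Lib_helper45
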