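import Pool.Agent.Lib_helper45.Fourier

/-!
Reduction of the damped string equation to the evolution on the circle.
-/

open MeasureTheory Set Filter Topology
open scoped NNReal ENNReal ContDiff

namespace Pool.Agent.Lib_helper45

set_option linter.unusedSectionVars false

open Pool.Agent.Wave1D

section Reduction

variable {a b : ℝ} {g : ℝ → ℝ} {L : ℝ≥0} {f : ℝ → L2 a b} {U : ℝ → EnergySpace a b}

theorem integrable_mul_L2 (p q : L2 a b) :
    Integrable (fun x => p x * q x) (volume.restrict (Ioo a b)) := by
  have h := L2.integrable_inner (𝕜 := ℝ) p q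
  refine h.congr (Filter.Eventually.of_forall fun x => ?_)
  simp [mul_comm]

theorem inner_integral_left {E : Type*} [NormedAddCommGroup E] [InnerProductSpace ℝ E]
    [CompleteSpace E] {h : ℝ → E} (hh : Continuous h) (y : E) (s t : ℝ) :
    inner ℝ (∫ r in s..t, h r) y = ∫ r in s..t, inner ℝ (h r) y := by
  have h1 := (innerSL ℝ y).intervalIntegral_comp_comm (hh.intervalIntegrable (μ := volume) s t)
  simp only [innerSL_apply_apply] at h1
  rw [real_inner_comm, ← h1]
  refine intervalIntegral.integral_congr fun r _ => ?_
  exact real_inner_comm _ _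

/-- The curve extended to negative times by a constant. -/
noncomputable def xt (U : ℝ → EnergySpace a b) (t : ℝ) : EnergySpace a b := U (max t 0)

theorem xt_of_nonneg {t : ℝ} (ht : 0 ≤ t) : xt U t = U t := by
  rw [xt, max_eq_left ht]

theorem xt_continuous (hU : ContinuousOn U (Ici 0)) : Continuous (xt U) := by
  refine hU.comp_continuous (continuous_id.max continuous_const) fun t => ?_
  exact le_max_right t 0

theorem vel_continuous : Continuous fun V : EnergySpace a b => V.vel :=
  continuous_snd.comp continuous_subtype_val

theorem dx_continuous : Continuous fun V : EnergySpace a b => V.dx :=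
  continuous_snd.comp (continuous_fst.comp continuous_subtype_val)

theorem pos_continuous : Continuous fun V : EnergySpace a b => V.pos :=
  continuous_fst.comp (continuous_fst.comp continuous_subtype_val)

theorem weak_test (hL : LipschitzWith L g) (hU : IsSolution a b g f U) {t : ℝ} (ht : 0 ≤ t)
    {z : L2 a b × L2 a b} (hz : z ∈ testPairs a b) :
    inner ℝ (U t).vel z.1 - inner ℝ (U 0).vel z.1 =
      ∫ s in (0 : ℝ)..t, (inner ℝ (f s - gI g (xt U s).vel) z.1 - inner ℝ (xt U s).dx z.2) := by
  obtain ⟨φ, hφ, e1, e2⟩ := hz
  have h := hU.weak φ hφ t ht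
  have h1 : ∀ V : L2 a b, ∫ x in Ioo a b, V x * φ x = inner ℝ V z.1 := by
    intro V
    rw [inner_L2]
    refine integral_congr_ae ?_
    filter_upwards [e1] with x q1
    rw [q1]
  rw [h1, h1] at h
  rw [h]
  refine intervalIntegral.integral_congr fun s hs => ?_
  rw [uIcc_of_le ht] at hs
  have i1 : Integrable (fun x => f s x * z.1 x - gI g (U s).vel x * z.1 x)
      (volume.restrict (Ioo a b)) := (integrable_mul_L2 _ _).sub (integrable_mul_L2 _ _)
  have i2 : Integrable (fun x => (U s).dx x * z.2 x) (volume.restrict (Ioo a b)) :=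
    integrable_mul_L2 _ _
  rw [xt_of_nonneg hs.1, inner_sub_left, inner_L2, inner_L2, inner_L2,
    ← integral_sub (integrable_mul_L2 _ _) (integrable_mul_L2 _ _), ← integral_sub i1 i2]
  refine integral_congr_ae ?_
  filter_upwards [e1, e2, gI_coe hL (U s).vel] with x q1 q2 q3
  rw [q1, q2, q3]
  ring

theorem weak_H10 (hL : LipschitzWith L g) (hf : Continuous f) (hU : IsSolution a b g f U) {t : ℝ}
    (ht : 0 ≤ t) {z : L2 a b × L2 a b} (hz : z ∈ H10 a b) :
    inner ℝ (U t).vel z.1 - inner ℝ (U 0).vel z.1 =
      ∫ s in (0 : ℝ)..t, (inner ℝ (f s - gI g (xt U s).vel) z.1 - inner ℝ (xt U s).dx z.2) := by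
  have hxc := xt_continuous hU.cont
  have hc1 : Continuous fun s => f s - gI g (xt U s).vel :=
    hf.sub ((gI_continuous hL).comp (vel_continuous.comp hxc))
  have hc2 : Continuous fun s => (xt U s).dx := dx_continuous.comp hxc
  have hrew : ∀ z : L2 a b × L2 a b,
      ∫ s in (0 : ℝ)..t, (inner ℝ (f s - gI g (xt U s).vel) z.1 - inner ℝ (xt U s).dx z.2) =
      inner ℝ (∫ s in (0 : ℝ)..t, (f s - gI g (xt U s).vel)) z.1 -
      inner ℝ (∫ s in (0 : ℝ)..t, (xt U s).dx) z.2 := by
    intro z
    rw [inner_integral_left hc1, inner_integral_left hc2, intervalIntegral.integral_sub]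
    · exact (hc1.inner continuous_const).intervalIntegrable _ _
    · exact (hc2.inner continuous_const).intervalIntegrable _ _
  have hcl : IsClosed {z : L2 a b × L2 a b | inner ℝ (U t).vel z.1 - inner ℝ (U 0).vel z.1 =
      inner ℝ (∫ s in (0 : ℝ)..t, (f s - gI g (xt U s).vel)) z.1 -
      inner ℝ (∫ s in (0 : ℝ)..t, (xt U s).dx) z.2} := by
    refine isClosed_eq ?_ ?_
    · exact (continuous_const.inner continuous_fst).sub (continuous_const.inner continuous_fst)
    · exact (continuous_const.inner continuous_fst).sub (continuous_const.inner continuous_snd)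
  rw [hrew]
  refine closure_minimal ?_ hcl hz
  intro z hz
  have := weak_test hL hU ht hz
  rw [hrew] at this
  exact this

/-- Evolution of the sine coefficients of the velocity. -/
theorem sin_coeff_eq (hab : a < b) (hL : LipschitzWith L g) (hf : Continuous f)
    (hU : IsSolution a b g f U) (k : ℤ) {t : ℝ} (ht : 0 ≤ t) :
    inner ℝ (xt U t).vel (sinL a b k) = inner ℝ (xt U 0).vel (sinL a b k) +
      ∫ s in (0 : ℝ)..t, (inner ℝ (f s - gI g (xt U s).vel) (sinL a b k) -
        om a b k * inner ℝ (xt U s).dx (cosL a b k)) := by
  have h := weak_H10 hL hf hU ht (sin_mem_H10 a b hab k)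
  simp only [real_inner_smul_right] at h
  rw [xt_of_nonneg ht, xt_of_nonneg (le_refl (0 : ℝ)), ← h]
  ring

theorem cos_coeff_eq (hab : a < b) (k : ℤ) (V : EnergySpace a b) :
    inner ℝ V.dx (cosL a b k) = om a b k * inner ℝ V.pos (sinL a b k) :=
  inner_cosL a b hab k V.2

theorem hasDerivAt_cos_coeff (hab : a < b) (hU : IsSolution a b g f U) (k : ℤ) {t : ℝ}
    (ht : 0 < t) : HasDerivAt (fun s => inner ℝ (xt U s).dx (cosL a b k))
      (om a b k * inner ℝ (xt U t).vel (sinL a b k)) t := by
  have h1 : HasDerivAt (fun s => (U s).pos) ((U t).vel) t :=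
    (hU.deriv_pos t ht.le).hasDerivAt (Ici_mem_nhds ht)
  have h2 : HasDerivAt (fun s => om a b k * inner ℝ (U s).pos (sinL a b k))
      (om a b k * inner ℝ (U t).vel (sinL a b k)) t := by
    have h3 := ((hasDerivAt_const t (sinL a b k))).inner ℝ h1
    have h4 : HasDerivAt (fun s => inner ℝ (sinL a b k) (U s).pos)
        (inner ℝ (sinL a b k) (U t).vel) t := by
      simpa using h3
    have h5 : HasDerivAt (fun s => inner ℝ (U s).pos (sinL a b k))
        (inner ℝ (U t).vel (sinL a b k)) t := by
      rw [real_inner_comm] at h4
      refine h4.congr_of_eventuallyEq (Filter.Eventually.of_forall fun s => ?_)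
      exact real_inner_comm _ _
    exact h5.const_mul _
  rw [xt_of_nonneg ht.le]
  refine h2.congr_of_eventuallyEq ?_
  filter_upwards [Ioi_mem_nhds ht] with s hs
  rw [cos_coeff_eq hab, xt_of_nonneg (le_of_lt hs)]

theorem hasDerivAt_sin_coeff (hab : a < b) (hL : LipschitzWith L g) (hf : Continuous f)
    (hU : IsSolution a b g f U) (k : ℤ) {t : ℝ}
    (ht : 0 < t) : HasDerivAt (fun s => inner ℝ (xt U s).vel (sinL a b k))
      (inner ℝ (f t - gI g (xt U t).vel) (sinL a b k) -
        om a b k * inner ℝ (xt U t).dx (cosL a b k)) t := by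
  have hxc := xt_continuous hU.cont
  have hc1 : Continuous fun s => f s - gI g (xt U s).vel :=
    hf.sub ((gI_continuous hL).comp (vel_continuous.comp hxc))
  have hc2 : Continuous fun s => (xt U s).dx := dx_continuous.comp hxc
  have hc : Continuous fun s => inner ℝ (f s - gI g (xt U s).vel) (sinL a b k) -
        om a b k * inner ℝ (xt U s).dx (cosL a b k) :=
    (hc1.inner continuous_const).sub (continuous_const.mul (hc2.inner continuous_const))
  have h1 := (hc.integral_hasStrictDerivAt 0 t).hasDerivAt
  have h2 := h1.const_add (inner ℝ (xt U 0).vel (sinL a b k))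
  refine h2.congr_of_eventuallyEq ?_
  filter_upwards [Ioi_mem_nhds ht] with s hs
  exact sin_coeff_eq hab hL hf hU k (le_of_lt hs)

variable [hT : Fact (0 < len a b)]

theorem odx_continuous : Continuous (odx (a := a) (b := b)) := by
  have h : Continuous fun v : L2 a b => st 0 v := st_continuous.comp (continuous_const.prodMk continuous_id)
  refine h.congr fun v => st_zero_left v

theorem inner_tr_neg (p q : XT (len a b)) (t : ℝ) :
    inner ℝ (tr ((-t : ℝ) : AddCircle (len a b)) p) q =
      inner ℝ p (tr (t : AddCircle (len a b)) q) := by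
  rw [inner_tr_left]
  congr 2
  rw [AddCircle.coe_neg, neg_neg]

/-- The circle evolution attached to a solution of the string equation. -/
theorem isSol (hg : Monotone g) (hL : LipschitzWith L g) (hf : Continuous f)
    (hU : IsSolution a b g f U) :
    IsSol (sgn a b) g (fun t => odx (f t)) (fun t => st (xt U t).dx (xt U t).vel) := by
  have hab := ab_lt (a := a) (b := b)
  have hxc := xt_continuous hU.cont
  have hcv : Continuous fun s => (xt U s).vel := vel_continuous.comp hxc
  have hcw : Continuous fun s => (xt U s).dx := dx_continuous.comp hxc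
  have hcF : Continuous fun t => odx (f t) := odx_continuous.comp hf
  have hcp : Continuous fun t => st (xt U t).dx (xt U t).vel :=
    st_continuous.comp (hcw.prodMk hcv)
  have hd := isDamping (a := a) (b := b) hg hL
  refine ⟨hcp, fun t ht => ?_⟩
  have hcR := IsSol.cont_rhs hd hcF hcp
  -- the right-hand side in terms of the string
  have hR : ∀ s, odx (f s) - dmp (sgn a b) g (st (xt U s).dx (xt U s).vel) =
      st 0 (f s - gI g (xt U s).vel) := by
    intro s
    rw [dmp_st hg hL, ← odx_sub, st_zero_left]
  rw [← sub_eq_zero]
  have hI : ∀ k : ℤ, Continuous fun s => inner ℝ (f s - gI g (xt U s).vel) (sinL a b k) := by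
    intro k
    exact (hf.sub ((gI_continuous hL).comp hcv)).inner continuous_const
  refine eq_zero_of_inner a b _ (fun k => ?_) fun k => ?_
  · rw [inner_sub_left, inner_add_left, inner_integral_left hcR, inner_tr_neg, tr_evx_cosL,
      inner_sub_right, real_inner_smul_right, real_inner_smul_right, inner_st_evx, inner_st_odx,
      inner_st_evx]
    have e1 : ∫ r in (0 : ℝ)..t, inner ℝ (tr ((-r : ℝ) : AddCircle (len a b))
        (odx (f r) - dmp (sgn a b) g (st (xt U r).dx (xt U r).vel))) (evx (cosL a b k)) =
        ∫ r in (0 : ℝ)..t, 2 * (- (Real.sin (om a b k * r) *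
          inner ℝ (f r - gI g (xt U r).vel) (sinL a b k))) := by
      refine intervalIntegral.integral_congr fun r _ => ?_
      rw [hR, inner_tr_neg, tr_evx_cosL, inner_sub_right, real_inner_smul_right,
        real_inner_smul_right, inner_st_evx, inner_st_odx, inner_zero_left]
      ring
    rw [e1, intervalIntegral.integral_const_mul]
    have e2 : ∫ r in (0 : ℝ)..t, - (Real.sin (om a b k * r) *
          inner ℝ (f r - gI g (xt U r).vel) (sinL a b k)) =
        (Real.cos (om a b k * t) * inner ℝ (xt U t).dx (cosL a b k) -
          Real.sin (om a b k * t) * inner ℝ (xt U t).vel (sinL a b k)) -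
        (Real.cos (om a b k * 0) * inner ℝ (xt U 0).dx (cosL a b k) -
          Real.sin (om a b k * 0) * inner ℝ (xt U 0).vel (sinL a b k)) := by
      refine intervalIntegral.integral_eq_sub_of_hasDerivAt_of_le (f := fun t =>
        Real.cos (om a b k * t) * inner ℝ (xt U t).dx (cosL a b k) -
          Real.sin (om a b k * t) * inner ℝ (xt U t).vel (sinL a b k)) ht ?_ ?_ ?_
      · refine Continuous.continuousOn ?_
        have c1 : Continuous fun t => Real.cos (om a b k * t) := by fun_prop
        have c2 : Continuous fun t => Real.sin (om a b k * t) := by fun_prop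
        exact (c1.mul (hcw.inner continuous_const)).sub (c2.mul (hcv.inner continuous_const))
      · intro x hx
        have d1 := hasDerivAt_cos_coeff hab hU k hx.1
        have d2 := hasDerivAt_sin_coeff hab hL hf hU k hx.1
        have d0 : HasDerivAt (fun x : ℝ => om a b k * x) (om a b k) x := by
          simpa using (hasDerivAt_id x).const_mul (om a b k)
        have d3 := d0.cos
        have d4 := d0.sin
        have d5 : HasDerivAt (fun t =>
            Real.cos (om a b k * t) * inner ℝ (xt U t).dx (cosL a b k) -
            Real.sin (om a b k * t) * inner ℝ (xt U t).vel (sinL a b k)) _ x :=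
          (d3.mul d1).sub (d4.mul d2)
        refine d5.congr_deriv ?_
        ring
      · refine Continuous.intervalIntegrable ?_ _ _
        have c2 : Continuous fun t => Real.sin (om a b k * t) := by fun_prop
        exact (c2.mul (hI k)).neg
    rw [e2, mul_zero, Real.cos_zero, Real.sin_zero]
    ring
  · rw [inner_sub_left, inner_add_left, inner_integral_left hcR, inner_tr_neg, tr_odx_sinL,
      inner_add_right, real_inner_smul_right, real_inner_smul_right, inner_st_evx, inner_st_odx,
      inner_st_odx]
    have e1 : ∫ r in (0 : ℝ)..t, inner ℝ (tr ((-r : ℝ) : AddCircle (len a b))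
        (odx (f r) - dmp (sgn a b) g (st (xt U r).dx (xt U r).vel))) (odx (sinL a b k)) =
        ∫ r in (0 : ℝ)..t, 2 * (Real.cos (om a b k * r) *
          inner ℝ (f r - gI g (xt U r).vel) (sinL a b k)) := by
      refine intervalIntegral.integral_congr fun r _ => ?_
      rw [hR, inner_tr_neg, tr_odx_sinL, inner_add_right, real_inner_smul_right,
        real_inner_smul_right, inner_st_evx, inner_st_odx, inner_zero_left]
      ring
    rw [e1, intervalIntegral.integral_const_mul]
    have e2 : ∫ r in (0 : ℝ)..t, (Real.cos (om a b k * r) *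
          inner ℝ (f r - gI g (xt U r).vel) (sinL a b k)) =
        (Real.sin (om a b k * t) * inner ℝ (xt U t).dx (cosL a b k) +
          Real.cos (om a b k * t) * inner ℝ (xt U t).vel (sinL a b k)) -
        (Real.sin (om a b k * 0) * inner ℝ (xt U 0).dx (cosL a b k) +
          Real.cos (om a b k * 0) * inner ℝ (xt U 0).vel (sinL a b k)) := by
      refine intervalIntegral.integral_eq_sub_of_hasDerivAt_of_le (f := fun t =>
        Real.sin (om a b k * t) * inner ℝ (xt U t).dx (cosL a b k) +
          Real.cos (om a b k * t) * inner ℝ (xt U t).vel (sinL a b k)) ht ?_ ?_ ?_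
      · refine Continuous.continuousOn ?_
        have c1 : Continuous fun t => Real.cos (om a b k * t) := by fun_prop
        have c2 : Continuous fun t => Real.sin (om a b k * t) := by fun_prop
        exact (c2.mul (hcw.inner continuous_const)).add (c1.mul (hcv.inner continuous_const))
      · intro x hx
        have d1 := hasDerivAt_cos_coeff hab hU k hx.1
        have d2 := hasDerivAt_sin_coeff hab hL hf hU k hx.1
        have d0 : HasDerivAt (fun x : ℝ => om a b k * x) (om a b k) x := by
          simpa using (hasDerivAt_id x).const_mul (om a b k)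
        have d3 := d0.cos
        have d4 := d0.sin
        have d5 : HasDerivAt (fun t =>
            Real.sin (om a b k * t) * inner ℝ (xt U t).dx (cosL a b k) +
            Real.cos (om a b k * t) * inner ℝ (xt U t).vel (sinL a b k)) _ x :=
          (d4.mul d1).add (d3.mul d2)
        refine d5.congr_deriv ?_
        ring
      · refine Continuous.intervalIntegrable ?_ _ _
        have c2 : Continuous fun t => Real.cos (om a b k * t) := by fun_prop
        exact c2.mul (hI k)
    rw [e2, mul_zero, Real.cos_zero, Real.sin_zero]
    ring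

end Reduction

end Pool.Agent.Lib_helper45
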