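import Pool.Agent.Lib_helper45.Density

/-!
Integration by parts and the Poincaré inequality in `H¹₀(a,b)`.
-/

open MeasureTheory Set Filter Topology
open scoped NNReal ENNReal ContDiff

namespace Pool.Agent.Lib_helper45

set_option linter.unusedSectionVars false

open Pool.Agent.Wave1D

section Sobolev

variable {a b : ℝ}

theorem isTest_zero_left {φ : ℝ → ℝ} (h : IsTest a b φ) : φ a = 0 := by
  refine image_eq_zero_of_notMem_tsupport fun hh => ?_
  exact lt_irrefl _ (h.2.2 hh).1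

theorem isTest_zero_right {φ : ℝ → ℝ} (h : IsTest a b φ) : φ b = 0 := by
  refine image_eq_zero_of_notMem_tsupport fun hh => ?_
  exact lt_irrefl _ (h.2.2 hh).2

/-- Integration by parts in `H¹₀(a,b)`. -/
theorem H10_parts (hab : a < b) {ψ : ℝ → ℝ} (hψ : ContDiff ℝ ∞ ψ) {y y' : L2 a b}
    (h1 : y =ᵐ[volume.restrict (Ioo a b)] ψ) (h2 : y' =ᵐ[volume.restrict (Ioo a b)] deriv ψ)
    {z : L2 a b × L2 a b} (hz : z ∈ H10 a b) : inner ℝ z.2 y = - inner ℝ z.1 y' := by
  have hcl : IsClosed {z : L2 a b × L2 a b | inner ℝ z.2 y = - inner ℝ z.1 y'} :=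
    isClosed_eq (continuous_snd.inner continuous_const) (continuous_fst.inner continuous_const).neg
  have hsub : testPairs a b ⊆ {z : L2 a b × L2 a b | inner ℝ z.2 y = - inner ℝ z.1 y'} := by
    rintro z ⟨φ, hφ, e1, e2⟩
    change inner ℝ z.2 y = - inner ℝ z.1 y'
    rw [inner_L2, inner_L2]
    have e3 : ∫ x in Ioo a b, z.2 x * y x = ∫ x in a..b, ψ x * deriv φ x := by
      rw [intervalIntegral.integral_of_le hab.le, integral_Ioc_eq_integral_Ioo]
      refine integral_congr_ae ?_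
      filter_upwards [h1, e2] with x q1 q2
      rw [q1, q2]; ring
    have e4 : ∫ x in Ioo a b, z.1 x * y' x = ∫ x in a..b, deriv ψ x * φ x := by
      rw [intervalIntegral.integral_of_le hab.le, integral_Ioc_eq_integral_Ioo]
      refine integral_congr_ae ?_
      filter_upwards [h2, e1] with x q1 q2
      rw [q1, q2]; ring
    have hφd : Continuous (deriv φ) := hφ.1.continuous_deriv (by norm_num)
    have hψd : Continuous (deriv ψ) := hψ.continuous_deriv (by norm_num)
    rw [e3, e4, intervalIntegral.integral_mul_deriv_eq_deriv_mul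
      (fun x _ => (hψ.differentiable (by norm_num) x).hasDerivAt)
      (fun x _ => (hφ.1.differentiable (by norm_num) x).hasDerivAt)
      (hψd.intervalIntegrable _ _) (hφd.intervalIntegrable _ _), isTest_zero_left hφ, isTest_zero_right hφ]
    ring
  exact closure_minimal hsub hcl hz

theorem testPairs_sub {z z' : L2 a b × L2 a b} (h : z ∈ testPairs a b) (h' : z' ∈ testPairs a b) :
    z - z' ∈ testPairs a b := by
  obtain ⟨φ, hφ, e1, e2⟩ := h
  obtain ⟨φ', hφ', e1', e2'⟩ := h'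
  refine ⟨fun x => φ x - φ' x, ⟨hφ.1.sub hφ'.1, hφ.2.1.sub hφ'.2.1, ?_⟩, ?_, ?_⟩
  · exact (tsupport_sub φ φ').trans (union_subset hφ.2.2 hφ'.2.2)
  · filter_upwards [e1, e1', Lp.coeFn_sub z.1 z'.1] with x q1 q2 q3
    rw [Prod.fst_sub, q3, Pi.sub_apply, q1, q2]
  · filter_upwards [e2, e2', Lp.coeFn_sub z.2 z'.2] with x q1 q2 q3
    rw [Prod.snd_sub, q3, Pi.sub_apply, q1, q2]
    exact (deriv_fun_sub (hφ.1.differentiable (by norm_num) x)
      (hφ'.1.differentiable (by norm_num) x)).symm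

theorem H10_sub {z z' : L2 a b × L2 a b} (h : z ∈ H10 a b) (h' : z' ∈ H10 a b) :
    z - z' ∈ H10 a b :=
  map_mem_closure₂ continuous_sub h h' fun _ hx _ hy => testPairs_sub hx hy

/-- The Poincaré inequality. -/
theorem poincare (a b : ℝ) : ∃ C : ℝ, 0 ≤ C ∧ ∀ z ∈ H10 a b, ‖z.1‖ ≤ C * ‖z.2‖ := by
  set μ := volume.restrict (Ioo a b) with hμ
  have hone : MemLp (fun _ : ℝ => (1 : ℝ)) 2 μ := memLp_const 1
  set D : ℝ := ‖hone.toLp (fun _ : ℝ => (1 : ℝ))‖ with hD
  set E : ℝ := (measureUnivNNReal μ : ℝ) ^ ((2 : ℝ≥0∞).toReal)⁻¹ with hE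
  refine ⟨E * D, by positivity, ?_⟩
  have hcl : IsClosed {z : L2 a b × L2 a b | ‖z.1‖ ≤ E * D * ‖z.2‖} :=
    isClosed_le continuous_fst.norm (continuous_const.mul continuous_snd.norm)
  refine fun z hz => closure_minimal ?_ hcl hz
  rintro z ⟨φ, hφ, e1, e2⟩
  change ‖z.1‖ ≤ E * D * ‖z.2‖
  have hφd : Continuous (deriv φ) := hφ.1.continuous_deriv (by norm_num)
  have key : ∀ x ∈ Ioo a b, |φ x| ≤ D * ‖z.2‖ := by
    intro x hx
    have hind : MemLp ((Iio x).indicator fun _ : ℝ => (1 : ℝ)) 2 μ := hone.indicator measurableSet_Iio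
    have f1 : φ x = inner ℝ (hind.toLp _) z.2 := by
      rw [inner_L2]
      have f2 : ∫ y in Ioo a b, (hind.toLp _) y * z.2 y =
          ∫ y in Ioo a b, (Iio x).indicator (deriv φ) y := by
        refine integral_congr_ae ?_
        filter_upwards [hind.coeFn_toLp, e2] with y q1 q2
        rw [q1, q2]
        by_cases hy : y ∈ Iio x
        · rw [indicator_of_mem hy, indicator_of_mem hy, one_mul]
        · rw [indicator_of_notMem hy, indicator_of_notMem hy, zero_mul]
      rw [f2, setIntegral_indicator measurableSet_Iio]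
      have f3 : Ioo a b ∩ Iio x = Ioo a x := by
        ext y; simp only [mem_inter_iff, mem_Ioo, mem_Iio]
        constructor
        · rintro ⟨⟨h1, h2⟩, h3⟩; exact ⟨h1, h3⟩
        · rintro ⟨h1, h3⟩; exact ⟨⟨h1, h3.trans hx.2⟩, h3⟩
      rw [f3, ← integral_Ioc_eq_integral_Ioo, ← intervalIntegral.integral_of_le hx.1.le,
        intervalIntegral.integral_deriv_eq_sub
          (fun y _ => hφ.1.differentiable (by norm_num) y) (hφd.intervalIntegrable _ _),
        isTest_zero_left hφ, sub_zero]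
    have f4 : ‖hind.toLp ((Iio x).indicator fun _ : ℝ => (1 : ℝ))‖ ≤ D := by
      refine Lp.norm_le_norm_of_ae_le ?_
      filter_upwards [hind.coeFn_toLp, hone.coeFn_toLp] with y q1 q2
      rw [q1, q2]
      by_cases hy : y ∈ Iio x
      · rw [indicator_of_mem hy]
      · rw [indicator_of_notMem hy]; simp
    rw [f1]
    exact (abs_real_inner_le_norm _ _).trans (mul_le_mul_of_nonneg_right f4 (norm_nonneg _))
  have h5 := Lp.norm_le_of_ae_bound (f := z.1) (C := D * ‖z.2‖) (by positivity) (by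
    filter_upwards [e1, ae_restrict_mem measurableSet_Ioo] with x q1 hx
    rw [q1]
    exact key x hx)
  rw [mul_assoc]
  exact h5

theorem EnergySpace.dist_pos_le (a b : ℝ) : ∃ C : ℝ, 0 ≤ C ∧ ∀ U V : EnergySpace a b,
    ‖U.pos - V.pos‖ ≤ C * ‖U.dx - V.dx‖ := by
  obtain ⟨C, hC, h⟩ := poincare a b
  refine ⟨C, hC, fun U V => ?_⟩
  have h1 := h (U.1.1 - V.1.1) (H10_sub U.2 V.2)
  rw [Prod.fst_sub, Prod.snd_sub] at h1
  exact h1

end Sobolev

end Pool.Agent.Lib_helper45
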