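import Pool.Agent.Lib_helper45.Nonlin
import Pool.Agent.Lib_helper45.Curves

/-!
The tail operator `p ↦ p - clip(p, -M, M)` on `L²` of the circle.
-/

open MeasureTheory Set Filter Topology
open scoped NNReal ENNReal

namespace Pool.Agent.Lib_helper45

set_option linter.unusedSectionVars false

variable {T : ℝ} [hT : Fact (0 < T)]

/-- Scalar tail function. -/
noncomputable def tl (M s : ℝ) : ℝ := s - max (-M) (min M s)

theorem tl_cases {M : ℝ} (hM : 0 ≤ M) (s : ℝ) :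
    (M ≤ s ∧ tl M s = s - M) ∨ (s ≤ -M ∧ tl M s = s + M) ∨ (-M ≤ s ∧ s ≤ M ∧ tl M s = 0) := by
  unfold tl
  rcases le_total M s with h | h
  · left
    refine ⟨h, ?_⟩
    rw [min_eq_left h, max_eq_right (by linarith)]
  · rw [min_eq_right h]
    rcases le_total (-M) s with h' | h'
    · right; right
      refine ⟨h', h, ?_⟩
      rw [max_eq_right h']; ring
    · right; left
      refine ⟨h', ?_⟩
      rw [max_eq_left h']; ring

theorem tl_mono {M : ℝ} (hM : 0 ≤ M) : Monotone (tl M) := by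
  intro a b hab
  rcases tl_cases hM a with ⟨h1, h2⟩ | ⟨h1, h2⟩ | ⟨h1, h1', h2⟩ <;>
  rcases tl_cases hM b with ⟨h3, h4⟩ | ⟨h3, h4⟩ | ⟨h3, h3', h4⟩ <;>
  rw [h2, h4] <;> linarith

theorem tl_sub_le {M : ℝ} (hM : 0 ≤ M) {a b : ℝ} (hab : a ≤ b) : tl M b - tl M a ≤ b - a := by
  rcases tl_cases hM a with ⟨h1, h2⟩ | ⟨h1, h2⟩ | ⟨h1, h1', h2⟩ <;>
  rcases tl_cases hM b with ⟨h3, h4⟩ | ⟨h3, h4⟩ | ⟨h3, h3', h4⟩ <;>
  rw [h2, h4] <;> linarith

theorem tl_lip {M : ℝ} (hM : 0 ≤ M) : LipschitzWith 1 (tl M) := by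
  refine LipschitzWith.of_dist_le_mul fun a b => ?_
  rw [Real.dist_eq, Real.dist_eq, NNReal.coe_one, one_mul]
  rcases le_total a b with h | h
  · have h1 := tl_sub_le hM h
    have h2 := tl_mono hM h
    rw [abs_sub_comm, abs_sub_comm a b, abs_of_nonneg (by linarith), abs_of_nonneg (by linarith)]
    exact h1
  · have h1 := tl_sub_le hM h
    have h2 := tl_mono hM h
    rw [abs_of_nonneg (by linarith), abs_of_nonneg (by linarith)]
    exact h1

theorem tl_zero {M : ℝ} (hM : 0 ≤ M) : tl M 0 = 0 := by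
  unfold tl
  rw [min_eq_right hM, max_eq_right (by linarith)]; ring

theorem tl_conv {M : ℝ} (hM : 0 ≤ M) (a b : ℝ) :
    (tl M a) ^ 2 / 2 + tl M a * (b - a) ≤ (tl M b) ^ 2 / 2 := by
  rcases tl_cases hM a with ⟨h1, h2⟩ | ⟨h1, h2⟩ | ⟨h1, h1', h2⟩ <;>
  rcases tl_cases hM b with ⟨h3, h4⟩ | ⟨h3, h4⟩ | ⟨h3, h3', h4⟩ <;>
  rw [h2, h4] <;> nlinarith [sq_nonneg (b - a), sq_nonneg (a - M), sq_nonneg (a + M),
    sq_nonneg (b - M), sq_nonneg (b + M)]

theorem tl_abs_le {M : ℝ} (hM : 0 ≤ M) (s : ℝ) : |tl M s| ≤ |s| := by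
  have := (tl_lip hM).dist_le_mul s 0
  rw [tl_zero hM, Real.dist_eq, Real.dist_eq, sub_zero, sub_zero, NNReal.coe_one, one_mul] at this
  exact this

/-- Tail operator on `L²`. -/
noncomputable def Tl (M : ℝ) (hM : 0 ≤ M) (p : XT T) : XT T := (tl_lip hM).compLp (tl_zero hM) p

theorem Tl_coe {M : ℝ} (hM : 0 ≤ M) (p : XT T) :
    Tl M hM p =ᵐ[volume] fun x => tl M (p x) := (tl_lip hM).coeFn_compLp (tl_zero hM) p

theorem Tl_lip {M : ℝ} (hM : 0 ≤ M) (p q : XT T) : ‖Tl M hM p - Tl M hM q‖ ≤ ‖p - q‖ := by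
  have := (tl_lip hM).norm_compLp_sub_le (tl_zero hM) p q
  rwa [NNReal.coe_one, one_mul] at this

theorem Tl_conv {M : ℝ} (hM : 0 ≤ M) (p q : XT T) :
    ‖Tl M hM p‖ ^ 2 / 2 + inner ℝ (Tl M hM p) (q - p) ≤ ‖Tl M hM q‖ ^ 2 / 2 := by
  rw [norm_sq_eq_integral, norm_sq_eq_integral, inner_eq_integral, ← integral_div, ← integral_div,
    ← integral_add ((integrable_mul _ _).div_const _) (integrable_mul _ _)]
  refine integral_mono_ae (((integrable_mul _ _).div_const _).add (integrable_mul _ _))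
    ((integrable_mul _ _).div_const _) ?_
  filter_upwards [Tl_coe hM p, Tl_coe hM q, Lp.coeFn_sub q p] with x h1 h2 h3
  rw [h1, h2, h3, Pi.sub_apply]
  have := tl_conv hM (p x) (q x)
  nlinarith

theorem Tl_tr {M : ℝ} (hM : 0 ≤ M) (s : AddCircle T) (p : XT T) :
    Tl M hM (tr s p) = tr s (Tl M hM p) := by
  refine Lp.ext ?_
  filter_upwards [Tl_coe hM (tr s p), tr_coe s p, tr_coe s (Tl M hM p),
    ae_add (Tl_coe hM p) s] with x h1 h2 h3 h4
  rw [h1, h2, h3, h4]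

theorem Tl_zero_eq (p : XT T) : Tl 0 le_rfl p = p := by
  refine Lp.ext ?_
  filter_upwards [Tl_coe le_rfl p] with x h1
  rw [h1]
  rcases tl_cases (le_refl (0 : ℝ)) (p x) with ⟨h3, h4⟩ | ⟨h3, h4⟩ | ⟨h3, h3', h4⟩
  · rw [h4, sub_zero]
  · rw [h4, add_zero]
  · rw [h4]; linarith

/-- Tails of a fixed function are small. -/
theorem exists_tail_le (p : XT T) {ε : ℝ} (hε : 0 < ε) :
    ∃ M : ℕ, ‖Tl (M : ℝ) (Nat.cast_nonneg M) p‖ ≤ ε := by
  have hlim : Tendsto (fun n : ℕ => ∫ x, (tl (n : ℝ) (p x)) ^ 2) atTop (𝓝 (∫ _ : AddCircle T, (0 : ℝ))) := by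
    refine tendsto_integral_of_dominated_convergence (fun x => p x * p x) ?_ (integrable_mul p p)
      ?_ ?_
    · intro n
      exact ((tl_lip (Nat.cast_nonneg n)).continuous.comp_aestronglyMeasurable
        (Lp.aestronglyMeasurable p)).pow 2
    · intro n
      refine Filter.Eventually.of_forall fun x => ?_
      rw [Real.norm_eq_abs, abs_of_nonneg (sq_nonneg _), ← sq, sq_le_sq]
      exact tl_abs_le (Nat.cast_nonneg n) _
    · refine Filter.Eventually.of_forall fun x => ?_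
      refine tendsto_const_nhds.congr' ?_
      obtain ⟨N, hN⟩ := exists_nat_ge |p x|
      filter_upwards [eventually_ge_atTop N] with n hn
      have h1 : |p x| ≤ n := hN.trans (by exact_mod_cast hn)
      rw [abs_le] at h1
      rcases tl_cases (Nat.cast_nonneg (α := ℝ) n) (p x) with ⟨h3, h4⟩ | ⟨h3, h4⟩ | ⟨h3, h3', h4⟩
      · rw [h4]; have : p x = n := le_antisymm h1.2 h3
        rw [this]; ring
      · rw [h4]; have : p x = -n := le_antisymm h3 h1.1
        rw [this]; ring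
      · rw [h4]; ring
  rw [integral_zero] at hlim
  have h1 := hlim.eventually_lt_const (show (0 : ℝ) < ε ^ 2 by positivity)
  obtain ⟨n, hn⟩ := h1.exists
  refine ⟨n, ?_⟩
  have h2 : ‖Tl (n : ℝ) (Nat.cast_nonneg n) p‖ ^ 2 ≤ ε ^ 2 := by
    rw [norm_sq_eq_integral]
    refine le_trans (le_of_eq ?_) hn.le
    refine integral_congr_ae ?_
    filter_upwards [Tl_coe (Nat.cast_nonneg (α := ℝ) n) p] with x h3
    rw [h3, sq]
  exact le_of_sq_le_sq h2 hε.le

end Pool.Agent.Lib_helper45
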