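import Pool.Agent.Lib_helper45.Envelope

/-!
Vanishing of the dissipation functional along time shifts, and the clipping estimate.
-/

open MeasureTheory Set Filter Topology
open scoped NNReal ENNReal

namespace Pool.Agent.Lib_helper45

set_option linter.unusedSectionVars false

variable {T : ℝ} [hT : Fact (0 < T)] {sg : AddCircle T → ℝ} {g : ℝ → ℝ} {L : ℝ≥0}

theorem Dd_perturb (hd : IsDamping sg g L) (P w e : XT T) :
    Dd sg g P (w - e) ≤ inner ℝ (dmp sg g (P + w) - dmp sg g P) w
      + L * ‖e‖ * (‖w‖ + ‖w - e‖) := by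
  have h1 : Dd sg g P (w - e) = inner ℝ (dmp sg g (P + w) - dmp sg g P) w
      - inner ℝ (dmp sg g (P + w) - dmp sg g P) e
      + inner ℝ (dmp sg g (P + (w - e)) - dmp sg g (P + w)) (w - e) := by
    rw [Dd]
    have h2 : dmp sg g (P + (w - e)) - dmp sg g P =
        (dmp sg g (P + w) - dmp sg g P) + (dmp sg g (P + (w - e)) - dmp sg g (P + w)) := by abel
    rw [h2, inner_add_left, inner_sub_right (dmp sg g (P + w) - dmp sg g P)]
  have h3 : |inner ℝ (dmp sg g (P + w) - dmp sg g P) e| ≤ L * ‖w‖ * ‖e‖ := by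
    refine (abs_real_inner_le_norm _ _).trans ?_
    have h4 := hd.dmp_lip (P + w) P
    rw [add_sub_cancel_left] at h4
    gcongr
  have h5 : |inner ℝ (dmp sg g (P + (w - e)) - dmp sg g (P + w)) (w - e)| ≤
      L * ‖e‖ * ‖w - e‖ := by
    refine (abs_real_inner_le_norm _ _).trans ?_
    have h4 := hd.dmp_lip (P + (w - e)) (P + w)
    have h6 : P + (w - e) - (P + w) = -e := by abel
    rw [h6, norm_neg] at h4
    gcongr
  have h7 := (abs_le.mp h3).1
  have h8 := (abs_le.mp h5).2
  rw [h1]
  nlinarith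

/-- Deviation from free transport is controlled by the dissipation. -/
theorem deviation_le (hd : IsDamping sg g L) {F : ℝ → XT T} (hF : Continuous F)
    {p q : ℝ → XT T} (hp : IsSol sg g F p) (hq : IsSol sg g F q) {a b t ε : ℝ} (ha : 0 ≤ a)
    (ht : 0 ≤ t) (htb : t ≤ b) (hε : 0 < ε) :
    ‖(p (a + t) - q (a + t)) - tr (t : AddCircle T) (p a - q a)‖ ≤
      b * ε / 2 + L / (2 * ε) * ∫ r in a..(a + b), diss sg g p q r := by
  have h1 := IsSol.dif_sub hd hF hp hq ha (show a ≤ a + t by linarith)
  have e1 : ((a + t : ℝ) : AddCircle T) + ((-(a + t) : ℝ) : AddCircle T) = 0 := by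
    rw [← AddCircle.coe_add]; simp
  have e2 : ((a + t : ℝ) : AddCircle T) + ((-a : ℝ) : AddCircle T) = (t : AddCircle T) := by
    rw [← AddCircle.coe_add]; congr 1; ring
  have h2 : (p (a + t) - q (a + t)) - tr (t : AddCircle T) (p a - q a)
      = tr ((a + t : ℝ) : AddCircle T) (dif p q (a + t) - dif p q a) := by
    rw [map_sub (tr ((a + t : ℝ) : AddCircle T)), dif, dif, tr_tr, tr_tr, e1, e2, tr_zero]
  rw [h2, norm_tr, h1, norm_neg]
  have hc := dam_continuous hd hp.cont hq.cont
  have hdc := diss_continuous hd hp.cont hq.cont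
  have h3 : ‖∫ r in a..(a + t), dam sg g p q r‖ ≤
      ∫ r in a..(a + t), (ε / 2 + L / (2 * ε) * diss sg g p q r) := by
    refine intervalIntegral.norm_integral_le_of_norm_le (by linarith) ?_ ?_
    · refine Filter.Eventually.of_forall fun r _ => ?_
      have h4 := hd.norm_sq_le_dissipation (p r) (q r)
      rw [dam, norm_tr]
      set G := ‖dmp sg g (p r) - dmp sg g (q r)‖
      have h5 : G ^ 2 ≤ L * diss sg g p q r := h4
      have h6 : G ≤ ε / 2 + G ^ 2 / (2 * ε) := by
        have : 0 ≤ (G - ε) ^ 2 := sq_nonneg _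
        rw [div_add_div _ _ (by norm_num) (by positivity), le_div_iff₀ (by positivity)]
        nlinarith
      have h7 : G ^ 2 / (2 * ε) ≤ L / (2 * ε) * diss sg g p q r := by
        rw [div_mul_eq_mul_div]
        gcongr
      linarith
    · exact (continuous_const.add (continuous_const.mul hdc)).intervalIntegrable _ _
  refine h3.trans ?_
  have h8 : ∫ r in a..(a + t), (ε / 2 + L / (2 * ε) * diss sg g p q r) ≤
      ∫ r in a..(a + b), (ε / 2 + L / (2 * ε) * diss sg g p q r) := by
    have hcc : Continuous fun r => ε / 2 + L / (2 * ε) * diss sg g p q r :=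
      continuous_const.add (continuous_const.mul hdc)
    rw [← intervalIntegral.integral_add_adjacent_intervals
      (hcc.intervalIntegrable a (a + t)) (hcc.intervalIntegrable (a + t) (a + b))]
    have : 0 ≤ ∫ r in (a + t)..(a + b), (ε / 2 + L / (2 * ε) * diss sg g p q r) := by
      refine intervalIntegral.integral_nonneg (by linarith) fun r _ => ?_
      have := diss_nonneg hd p q r
      positivity
    linarith
  refine h8.trans ?_
  have hcd : Continuous fun r => L / (2 * ε) * diss sg g p q r := continuous_const.mul hdc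
  rw [intervalIntegral.integral_add intervalIntegrable_const (hcd.intervalIntegrable _ _),
    intervalIntegral.integral_const_mul, intervalIntegral.integral_const, smul_eq_mul]
  have : (a + b - a) * (ε / 2) = b * ε / 2 := by ring
  rw [this]

/-- The total dissipation over shifted windows tends to zero. -/
theorem diss_window_tendsto (hd : IsDamping sg g L) {F : ℝ → XT T} (hF : Continuous F)
    {p q : ℝ → XT T} (hp : IsSol sg g F p) (hq : IsSol sg g F q) {τ b : ℝ} (hτ : 0 < τ)
    (hb : 0 ≤ b) :
    Tendsto (fun n : ℕ => ∫ r in (n * τ)..(n * τ + b), diss sg g p q r) atTop (𝓝 0) := by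
  set d : ℕ → ℝ := fun n => ‖p (n * τ) - q (n * τ)‖ ^ 2 with hd'
  have hanti : Antitone d := by
    refine antitone_nat_of_succ_le fun n => ?_
    refine pow_le_pow_left₀ (norm_nonneg _) ?_ 2
    refine IsSol.nonexpansive hd hF hp hq (by positivity) ?_
    push_cast; nlinarith
  have hbdd : BddBelow (range d) := ⟨0, by rintro _ ⟨n, rfl⟩; positivity⟩
  have hlim : Tendsto d atTop (𝓝 (⨅ n, d n)) := tendsto_atTop_ciInf hanti hbdd
  obtain ⟨m, hm⟩ := exists_nat_ge (b / τ)
  have hm' : b ≤ m * τ := by rwa [div_le_iff₀ hτ] at hm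
  have hlim2 : Tendsto (fun n => d (n + m)) atTop (𝓝 (⨅ n, d n)) :=
    (tendsto_add_atTop_iff_nat m).mpr hlim
  have hlim3 : Tendsto (fun n => (d n - d (n + m)) / 2) atTop (𝓝 0) := by
    have := (hlim.sub hlim2).div_const 2
    simpa using this
  refine squeeze_zero (fun n => ?_) (fun n => ?_) hlim3
  · exact intervalIntegral.integral_nonneg (by linarith) fun r _ => diss_nonneg hd p q r
  · have h1 := IsSol.energy hd hF hp hq (s := n * τ) (t := n * τ + b) (by positivity) (by linarith)
    have h2 : d (n + m) ≤ ‖p (n * τ + b) - q (n * τ + b)‖ ^ 2 := by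
      refine pow_le_pow_left₀ (norm_nonneg _) ?_ 2
      refine IsSol.nonexpansive hd hF hp hq (by positivity) ?_
      push_cast; nlinarith
    have h3 : d n = ‖p (n * τ) - q (n * τ)‖ ^ 2 := rfl
    linarith

/-- Vanishing of the dissipation functional evaluated at the free transport of the shifted
differences. -/
theorem Dd_window_tendsto (hd : IsDamping sg g L) {F : ℝ → XT T} (hF : Continuous F)
    {p q : ℝ → XT T} (hp : IsSol sg g F p) (hq : IsSol sg g F q) {τ : ℝ} (hτ : 0 < τ)
    (hper : ∀ t, 0 ≤ t → q (t + τ) = q t) {b : ℝ} (hb : 0 ≤ b) :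
    Tendsto (fun n : ℕ => ∫ t in (0 : ℝ)..b,
      Dd sg g (q t) (tr (t : AddCircle T) (p (n * τ) - q (n * τ)))) atTop (𝓝 0) := by
  have hpern : ∀ n : ℕ, ∀ t, 0 ≤ t → q (n * τ + t) = q t := by
    intro n
    induction n with
    | zero => intro t _; simp
    | succ n ih =>
      intro t ht
      have : ((n + 1 : ℕ) : ℝ) * τ + t = (n * τ + t) + τ := by push_cast; ring
      rw [this, hper _ (by positivity), ih t ht]
  set C := ‖p 0 - q 0‖ with hC
  have hC0 : 0 ≤ C := norm_nonneg _
  have hCn : ∀ t, 0 ≤ t → ‖p t - q t‖ ≤ C := fun t ht =>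
    IsSol.nonexpansive hd hF hp hq le_rfl ht
  rw [Metric.tendsto_atTop]
  intro ε₀ hε₀
  -- choose ε
  set A : ℝ := L * (C + C) * b with hA
  have hA0 : 0 ≤ A := by positivity
  set ε : ℝ := ε₀ / (2 * (A * b + 1)) with hε
  have hε0 : 0 < ε := by positivity
  have hw := diss_window_tendsto hd hF hp hq hτ hb
  -- eventual smallness
  have hev : ∀ᶠ n : ℕ in atTop,
      (1 + A * (L / (2 * ε))) * ∫ r in (n * τ)..(n * τ + b), diss sg g p q r < ε₀ / 2 := by
    have h1 := hw.const_mul (1 + A * (L / (2 * ε)))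
    rw [mul_zero] at h1
    exact h1.eventually_lt_const (by linarith)
  obtain ⟨N, hN⟩ := eventually_atTop.mp hev
  refine ⟨N, fun n hn => ?_⟩
  have h2 := hN n hn
  set δ := ∫ r in (n * τ)..(n * τ + b), diss sg g p q r with hδ
  have hδ0 : 0 ≤ δ := intervalIntegral.integral_nonneg (by linarith)
    fun r _ => diss_nonneg hd p q r
  have hn0 : (0 : ℝ) ≤ n * τ := by positivity
  have hDc : Continuous fun t : ℝ =>
      Dd sg g (q t) (tr (t : AddCircle T) (p (n * τ) - q (n * τ))) :=
    Dd_continuous hd hq.cont (continuous_tr_apply continuous_coe' continuous_const)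
  have hdc := diss_continuous hd hp.cont hq.cont
  have hdc' : Continuous fun t => diss sg g p q (n * τ + t) :=
    hdc.comp (continuous_const.add continuous_id)
  have hnonneg : 0 ≤ ∫ t in (0 : ℝ)..b,
      Dd sg g (q t) (tr (t : AddCircle T) (p (n * τ) - q (n * τ))) :=
    intervalIntegral.integral_nonneg hb fun t _ => Dd_nonneg hd _ _
  rw [Real.dist_eq, sub_zero, abs_of_nonneg hnonneg]
  have h3 : ∫ t in (0 : ℝ)..b, Dd sg g (q t) (tr (t : AddCircle T) (p (n * τ) - q (n * τ))) ≤
      ∫ t in (0 : ℝ)..b, (diss sg g p q (n * τ + t)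
        + L * (C + C) * (b * ε / 2 + L / (2 * ε) * δ)) := by
    refine intervalIntegral.integral_mono_on hb (hDc.intervalIntegrable _ _)
      ((hdc'.add continuous_const).intervalIntegrable _ _) fun t ht => ?_
    set w := p (n * τ + t) - q (n * τ + t) with hw'
    set e := w - tr (t : AddCircle T) (p (n * τ) - q (n * τ)) with he
    have h4 : tr (t : AddCircle T) (p (n * τ) - q (n * τ)) = w - e := by rw [he]; abel
    have h5 := Dd_perturb hd (q t) w e
    have h6 : ‖e‖ ≤ b * ε / 2 + L / (2 * ε) * δ :=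
      deviation_le hd hF hp hq hn0 ht.1 ht.2 hε0
    have h7 : ‖w‖ ≤ C := hCn _ (by linarith [ht.1])
    have h8 : ‖w - e‖ ≤ C := by
      rw [← h4, norm_tr]; exact hCn _ hn0
    have h9 : q t + w = p (n * τ + t) := by
      rw [hw', hpern n t ht.1]; abel
    have h10 : inner ℝ (dmp sg g (q t + w) - dmp sg g (q t)) w = diss sg g p q (n * τ + t) := by
      rw [h9, diss, hw', hpern n t ht.1]
    rw [h4]
    rw [h10] at h5
    have h11 : L * ‖e‖ * (‖w‖ + ‖w - e‖) ≤ L * (b * ε / 2 + L / (2 * ε) * δ) * (C + C) := by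
      gcongr
    linarith
  have h12 : ∫ t in (0 : ℝ)..b, (diss sg g p q (n * τ + t)
      + L * (C + C) * (b * ε / 2 + L / (2 * ε) * δ)) =
      δ + b * (L * (C + C) * (b * ε / 2 + L / (2 * ε) * δ)) := by
    rw [intervalIntegral.integral_add (hdc'.intervalIntegrable _ _) intervalIntegrable_const,
      intervalIntegral.integral_const, smul_eq_mul, sub_zero,
      intervalIntegral.integral_comp_add_left (fun r => diss sg g p q r) (n * τ), add_zero]
  rw [h12] at h3
  have h13 : b * (L * (C + C) * (b * ε / 2 + L / (2 * ε) * δ))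
      = A * b * ε / 2 + A * (L / (2 * ε)) * δ := by rw [hA]; ring
  have h14 : A * b * ε / 2 ≤ ε₀ / 4 := by
    have h15 : A * b * ε ≤ (A * b + 1) * ε := by nlinarith
    have h16 : (A * b + 1) * ε = ε₀ / 2 := by
      rw [hε]
      have : A * b + 1 ≠ 0 := by positivity
      field_simp
    linarith
  have h17 : (1 + A * (L / (2 * ε))) * δ = δ + A * (L / (2 * ε)) * δ := by ring
  rw [h13] at h3
  linarith

end Pool.Agent.Lib_helper45
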