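import Mathlib

/-!
Definitions for the damped wave equation on an open set `Ω ⊂ ℝ^N`:
`∂_t² u - Δ u + g(∂_t u) = f(t)` on `Ω`, `u = 0` on `∂Ω`.
-/

open MeasureTheory Set Filter Topology
open scoped NNReal ENNReal ContDiff

namespace Pool.Agent.WaveND

/-- The space `ℝ^N`. -/
abbrev EN (N : ℕ) : Type := Fin N → ℝ

/-- Real `L²(Ω)`, for Lebesgue measure. -/
abbrev L2 {N : ℕ} (Ω : Set (EN N)) : Type := Lp ℝ 2 (volume.restrict Ω)

/-- `φ ∈ C_c^∞(Ω)`. -/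
def IsTest {N : ℕ} (Ω : Set (EN N)) (φ : EN N → ℝ) : Prop :=
  ContDiff ℝ ∞ φ ∧ HasCompactSupport φ ∧ tsupport φ ⊆ Ω

/-- The partial derivative `∂_j φ`. -/
noncomputable def partialD {N : ℕ} (φ : EN N → ℝ) (j : Fin N) (x : EN N) : ℝ :=
  fderiv ℝ φ x (Pi.single j 1)

/-- The pairs `(φ, (∂_1 φ, ..., ∂_N φ))` in `L²(Ω) × L²(Ω)^N`, for `φ ∈ C_c^∞(Ω)`. -/
def testPairs {N : ℕ} (Ω : Set (EN N)) : Set (L2 Ω × (Fin N → L2 Ω)) :=
  {z | ∃ φ : EN N → ℝ, IsTest Ω φ ∧ z.1 =ᵐ[volume.restrict Ω] φ ∧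
    ∀ j, z.2 j =ᵐ[volume.restrict Ω] partialD φ j}

/-- The Sobolev space `H¹₀(Ω)`, as the set of the pairs `(u, ∇u)`: the closure of the
pairs `(φ, ∇φ)`, `φ ∈ C_c^∞(Ω)`, in `L²(Ω) × L²(Ω)^N`. -/
def H10 {N : ℕ} (Ω : Set (EN N)) : Set (L2 Ω × (Fin N → L2 Ω)) := closure (testPairs Ω)

/-- The energy space `H¹₀(Ω) × L²(Ω)`, as the set of the triples `((u, ∇u), v)`, with the
topology (and uniformity) of `L²(Ω) × L²(Ω)^N × L²(Ω)`, which is the one of the norm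
`‖u‖_{H¹} + ‖v‖_{L²}`. -/
abbrev EnergySpace {N : ℕ} (Ω : Set (EN N)) : Type :=
  {U : (L2 Ω × (Fin N → L2 Ω)) × L2 Ω // U.1 ∈ H10 Ω}

/-- Position `u`. -/
def EnergySpace.pos {N : ℕ} {Ω : Set (EN N)} (U : EnergySpace Ω) : L2 Ω := U.1.1.1

/-- Weak partial derivative `∂_j u` of the position. -/
def EnergySpace.dx {N : ℕ} {Ω : Set (EN N)} (U : EnergySpace Ω) (j : Fin N) : L2 Ω := U.1.1.2 j

/-- Velocity `v`. -/
def EnergySpace.vel {N : ℕ} {Ω : Set (EN N)} (U : EnergySpace Ω) : L2 Ω := U.1.2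

/-- `∫_Ω v φ dx`. -/
noncomputable def pair {N : ℕ} {Ω : Set (EN N)} (v : L2 Ω) (φ : EN N → ℝ) : ℝ :=
  ∫ x in Ω, v x * φ x

/-- `∫_Ω (f φ - ∇u · ∇φ - g(v) φ) dx`, where `U = (u, v)`. -/
noncomputable def rhs {N : ℕ} {Ω : Set (EN N)} (g : ℝ → ℝ) (f : L2 Ω) (U : EnergySpace Ω)
    (φ : EN N → ℝ) : ℝ :=
  ∫ x in Ω, (f x * φ x - (∑ j, U.dx j x * partialD φ j x) - g (U.vel x) * φ x)

/-- Energy space solutions `U = (u, ∂_t u)` on `[0,∞)` of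
`∂_t² u - Δ u + g(∂_t u) = f(t)` on `Ω` with Dirichlet boundary conditions:
`u ∈ C([0,∞); H¹₀(Ω)) ∩ C¹([0,∞); L²(Ω))` and the equation holds in the weak sense. -/
structure IsSolution {N : ℕ} (Ω : Set (EN N)) (g : ℝ → ℝ) (f : ℝ → L2 Ω)
    (U : ℝ → EnergySpace Ω) : Prop where
  /-- continuity in the energy space -/
  cont : ContinuousOn U (Ici 0)
  /-- the second component is the time derivative of the first one, in `L²(Ω)` -/
  deriv_pos : ∀ t, 0 ≤ t → HasDerivWithinAt (fun s => (U s).pos) ((U t).vel) (Ici 0) t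
  /-- weak form of the equation, integrated in time -/
  weak : ∀ φ : EN N → ℝ, IsTest Ω φ → ∀ t, 0 ≤ t →
    pair (U t).vel φ - pair (U 0).vel φ = ∫ s in (0 : ℝ)..t, rhs g (f s) (U s) φ

/-- Bounded domains of `ℝ^N`: bounded, open, connected and nonempty. -/
def IsBoundedDomain {N : ℕ} (Ω : Set (EN N)) : Prop :=
  IsOpen Ω ∧ IsConnected Ω ∧ Bornology.IsBounded Ω

/-- Continuous forcing terms `f : ℝ → L²(Ω)` of period `τ`. -/
def IsPeriodicForcing {N : ℕ} {Ω : Set (EN N)} (f : ℝ → L2 Ω) (τ : ℝ) : Prop :=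
  Continuous f ∧ Function.Periodic f τ

/-- Boundedness on `[0,∞)` in the energy space. -/
def IsBoundedOrbit {N : ℕ} {Ω : Set (EN N)} (U : ℝ → EnergySpace Ω) : Prop :=
  ∃ C : ℝ, ∀ t : ℝ, 0 ≤ t → ‖(U t).pos‖ ≤ C ∧ (∀ j, ‖(U t).dx j‖ ≤ C) ∧ ‖(U t).vel‖ ≤ C

/-- The closure of the positive orbit in the energy space is compact. -/
def IsPrecompactOrbit {N : ℕ} {Ω : Set (EN N)} (U : ℝ → EnergySpace Ω) : Prop :=
  IsCompact (closure (U '' Ici 0))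

/-- The open square `(0,1/2)²`. -/
def square : Set (EN 2) := {x | ∀ i : Fin 2, 0 < x i ∧ x i < 1 / 2}

end Pool.Agent.WaveND
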